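import Pool.Agent.H657R2.MAAM.Proved

namespace H657R2.MAAM.TaskG

open Finset

theorem one_sub_sum_le_prod {ι : Type} (s : Finset ι) (ε : ι → ℝ) (h0 : ∀ i ∈ s, 0 ≤ ε i)
    (h1 : ∀ i ∈ s, ε i ≤ 1) : 1 - ∑ i ∈ s, ε i ≤ ∏ i ∈ s, (1 - ε i) := by
  classical
  induction s using Finset.induction_on with
  | empty => simp
  | insert a s ha ih =>
    rw [Finset.sum_insert ha, Finset.prod_insert ha]
    have h2 := ih (fun i hi => h0 i (Finset.mem_insert_of_mem hi))
      (fun i hi => h1 i (Finset.mem_insert_of_mem hi))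
    have h3 : ∏ i ∈ s, (1 - ε i) ≤ 1 :=
      Finset.prod_le_one (fun i hi => by have := h1 i (Finset.mem_insert_of_mem hi); linarith)
        (fun i hi => by have := h0 i (Finset.mem_insert_of_mem hi); linarith)
    have ha0 := h0 a (Finset.mem_insert_self _ _)
    nlinarith

variable {p m k M : ℕ}

/-- the coordinates of `Q` in row `a` -/
noncomputable def Qa (Q : Finset (Pt p m × Fin (2 * M))) (a : Pt p m) : Finset (Fin (2 * M)) :=
  fil univ (fun b => (a, b) ∈ Q)

noncomputable def cyl [NeZero p] (Q : Finset (Pt p m × Fin (2 * M))) (τ : Inp p m M) :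
    Finset (Inp p m M) :=
  fil univ (fun z => ∀ q ∈ Q, z q.1 q.2 = τ q.1 q.2)

theorem sum_cyl [NeZero p] (D : Pt p m → Row p M → ℝ) (Q : Finset (Pt p m × Fin (2 * M)))
    (τ : Inp p m M) :
    ∑ z ∈ cyl Q τ, ∏ a, D a (z a) =
      ∏ a, ∑ r ∈ fil univ (fun r : Row p M => ∀ b ∈ Qa Q a, r b = τ a b), D a r := by
  classical
  rw [Finset.prod_univ_sum]
  refine Finset.sum_congr ?_ (fun _ _ => rfl)
  ext z
  simp only [cyl, mem_fil, mem_univ, true_and, Fintype.mem_piFinset, Qa]
  constructor
  · intro h a b hb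
    exact h (a, b) hb
  · intro h q hq
    exact h q.1 q.2 hq

theorem sum_all [NeZero p] (D : Pt p m → Row p M → ℝ) :
    ∑ z : Inp p m M, ∏ a, D a (z a) = ∏ a, ∑ r : Row p M, D a r := by
  classical
  rw [Finset.prod_univ_sum, Fintype.piFinset_univ]

theorem card_Qa [NeZero p] (Q : Finset (Pt p m × Fin (2 * M))) :
    ∑ a, (Qa Q a).card = Q.card := by
  classical
  have h := Finset.card_eq_sum_card_fiberwise (s := Q) (t := univ) (f := fun q => q.1)
    (fun _ _ => mem_univ _)
  rw [h]
  refine Finset.sum_congr rfl (fun a _ => ?_)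
  refine Finset.card_bij (fun b _ => (a, b)) ?_ ?_ ?_
  · intro b hb
    simp only [Qa, mem_fil, mem_univ, true_and] at hb
    simp [hb]
  · intro b _ b' _ h
    exact (Prod.mk.inj h).2
  · intro q hq
    simp only [mem_filter] at hq
    refine ⟨q.2, ?_, ?_⟩
    · simp only [Qa, mem_fil, mem_univ, true_and]
      rw [← hq.2]; exact hq.1
    · rw [← hq.2]

theorem G_query (p m k M M' w : ℕ) [Fact p.Prime] (hw : 1 ≤ w) (hk : 1 ≤ k) (hkp : k ≤ p)
    (hcode : w + 1 ≤ k ^ m) (hM' : 16 * w ^ 2 ≤ M') (hM : M = 2 * p * M') :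
    ∃ ν₀ ν₁ : Inp p m M → ℝ, (∀ z, 0 ≤ ν₀ z) ∧ (∀ z, 0 ≤ ν₁ z) ∧
      ∑ z, ν₀ z = 1 ∧ ∑ z, ν₁ z = 1 ∧
      (∀ z, ν₁ z ≠ 0 → Good k z) ∧ (∀ z, ν₀ z ≠ 0 → ¬ Good k z) ∧
      ∀ Q : Finset (Pt p m × Fin (2 * M)), Q.card ≤ w → ∀ h : Inp p m M → ℝ, (∀ z, 0 ≤ h z) →
        (∀ z z' : Inp p m M, (∀ q ∈ Q, z q.1 q.2 = z' q.1 q.2) → h z = h z') →
        15 / 16 * ∑ z, ν₁ z * h z ≤ ∑ z, ν₀ z * h z := by
  classical
  have hp : p.Prime := Fact.out
  have hp2 : 2 ≤ p := hp.two_le
  have hM'1 : 1 ≤ M' := le_trans (by nlinarith) hM'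
  have hM1 : 1 ≤ M := by rw [hM]; nlinarith
  obtain ⟨D₁, D₂, D₃, hD1, hD2, hD3, hs1, hs2, hs3, hz1, hz2, hz3, hdom⟩ :=
    E_rows p M M' hM'1 hM
  set DP : (Pt p m → ZMod p) → Pt p m → Row p M → ℝ :=
    fun P a r => if P a = 0 then D₂ r else D₃ (P a) r with hDP
  have hDPpos : ∀ P a r, 0 ≤ DP P a r := by
    intro P a r
    simp only [hDP]
    split_ifs
    · exact hD2 r
    · exact hD3 _ r
  have hDPsum : ∀ P a, ∑ r, DP P a r = 1 := by
    intro P a
    simp only [hDP]
    split_ifs
    · exact hs2
    · exact hs3 _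
  set CS : Finset (Pt p m → ZMod p) := fil univ (fun P => Code k P ∧ P ≠ 0) with hCS
  set n := CS.card with hn
  have hzero : Code k (0 : Pt p m → ZMod p) := by
    intro i a
    exact ⟨fun _ => 0, fun x => by simp⟩
  have hcount : count (fun P : Pt p m → ZMod p => Code k P) = n + 1 := by
    have : fil univ (fun P : Pt p m → ZMod p => Code k P) = insert 0 CS := by
      ext P
      simp only [mem_fil, mem_univ, true_and, hCS, mem_insert]
      constructor
      · intro h
        by_cases hP : P = 0
        · left; exact hP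
        · right; exact ⟨h, hP⟩
      · rintro (h | h)
        · rw [h]; exact hzero
        · exact h.1
    unfold count
    rw [this, Finset.card_insert_of_notMem]
    simp [hCS]
  have hbig : p ^ (w + 1) ≤ n + 1 := by
    rw [← hcount]
    exact le_trans (Nat.pow_le_pow_right hp.pos hcode) (F_card hk hkp)
  have hn1 : 1 ≤ n := by
    have h2 : 2 ^ 2 ≤ p ^ (w + 1) := by
      calc 2 ^ 2 ≤ p ^ 2 := Nat.pow_le_pow_left hp2 2
        _ ≤ p ^ (w + 1) := Nat.pow_le_pow_right hp.pos (by omega)
    omega
  have hnpos : (0 : ℝ) < n := by exact_mod_cast hn1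
  refine ⟨fun z => (∑ P ∈ CS, ∏ a, DP P a (z a)) / n, fun z => ∏ a, D₁ (z a), ?_, ?_, ?_, ?_,
    ?_, ?_, ?_⟩
  · intro z
    exact div_nonneg (Finset.sum_nonneg (fun P _ => Finset.prod_nonneg (fun a _ => hDPpos _ _ _)))
      hnpos.le
  · intro z
    exact Finset.prod_nonneg (fun a _ => hD1 _)
  · rw [← Finset.sum_div, Finset.sum_comm]
    have : ∀ P ∈ CS, ∑ z : Inp p m M, ∏ a, DP P a (z a) = 1 := by
      intro P _
      rw [sum_all (fun a r => DP P a r)]
      simp [hDPsum]
    rw [Finset.sum_congr rfl this]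
    simp only [Finset.sum_const, nsmul_eq_mul, mul_one]
    exact div_self hnpos.ne'
  · rw [sum_all (fun _ r => D₁ r)]
    simp [hs1]
  · intro z hz
    right
    intro a
    obtain ⟨v, hv⟩ := E_total hM1 (z a)
    have h1 : D₁ (z a) ≠ 0 := (Finset.prod_ne_zero_iff.mp hz) a (mem_univ a)
    have := hz1 (z a) h1 v hv
    rw [← this]; exact hv
  · intro z hz
    have hz' : ∑ P ∈ CS, ∏ a, DP P a (z a) ≠ 0 := by
      intro h0
      apply hz
      simp [h0]
    obtain ⟨P, hP, hPz⟩ := Finset.exists_ne_zero_of_sum_ne_zero hz'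
    have hPz' := Finset.prod_ne_zero_iff.mp hPz
    have hval : ∀ a u, RowSol (z a) u → u = P a := by
      intro a u hu
      have h1 := hPz' a (mem_univ a)
      simp only [hDP] at h1
      by_cases h0 : P a = 0
      · rw [if_pos h0] at h1
        rw [h0]; exact hz2 (z a) h1 u hu
      · rw [if_neg h0] at h1
        exact hz3 (P a) (z a) h1 u hu
    have hP' : Code k P ∧ P ≠ 0 := by simpa [hCS] using hP
    rintro ((⟨a, v, v', hne, h1, h2⟩ | ⟨i, a, u, hu, h1⟩) | h1)
    · exact hne ((hval a v h1).trans (hval a v' h2).symm)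
    · apply hu
      have : u = fun c => P (Function.update a i c) := by
        funext c
        exact hval _ _ (h1 c)
      rw [this]
      exact hP'.1 i a
    · apply hP'.2
      funext a
      exact (hval a 0 (h1 a)).symm
  · intro Q hQ h hh hdep
    -- cylinders
    have hcyl : ∀ τ : Inp p m M, 15 / 16 * ∑ z ∈ cyl Q τ, ∏ a, D₁ (z a) ≤
        ∑ z ∈ cyl Q τ, (∑ P ∈ CS, ∏ a, DP P a (z a)) / n := by
      intro τ
      set S : Pt p m → Finset (Row p M) :=
        fun a => fil univ (fun r : Row p M => ∀ b ∈ Qa Q a, r b = τ a b) with hS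
      set T : Finset (Pt p m) := fil univ (fun a =>
        ¬ Set.InjOn (fun b => (τ a b).1) (Qa Q a : Set (Fin (2 * M)))) with hT
      set ε : Pt p m → ℝ := fun a => ((Qa Q a).card : ℝ) ^ 2 / M' with hε
      have hM'pos : (0 : ℝ) < M' := by exact_mod_cast hM'1
      have hcardQ : ∑ a, (Qa Q a).card = Q.card := card_Qa Q
      have hcardle : ∀ a, (Qa Q a).card ≤ w := by
        intro a
        calc (Qa Q a).card ≤ ∑ a, (Qa Q a).card :=
              Finset.single_le_sum (f := fun a => (Qa Q a).card) (fun _ _ => Nat.zero_le _)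
                (mem_univ a)
          _ ≤ w := by rw [hcardQ]; exact hQ
      have hεpos : ∀ a, 0 ≤ ε a := fun a => by positivity
      have hε1 : ∀ a, ε a ≤ 1 := by
        intro a
        simp only [hε]
        rw [div_le_one hM'pos]
        have h1 : (Qa Q a).card ^ 2 ≤ w ^ 2 := Nat.pow_le_pow_left (hcardle a) 2
        have h2 : (Qa Q a).card ^ 2 ≤ M' := by nlinarith
        exact_mod_cast h2
      have hεsum : ∑ a, ε a ≤ 1 / 16 := by
        simp only [hε]
        rw [← Finset.sum_div, div_le_iff₀ hM'pos]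
        have h1 : ∑ a, (Qa Q a).card ^ 2 ≤ (∑ a, (Qa Q a).card) ^ 2 := by
          rw [sq, Finset.sum_mul]
          refine Finset.sum_le_sum (fun a _ => ?_)
          rw [sq]
          refine Nat.mul_le_mul_left _ ?_
          exact Finset.single_le_sum (f := fun a => (Qa Q a).card) (fun _ _ => Nat.zero_le _)
                (mem_univ a)
        have h2 : 16 * ∑ a, (Qa Q a).card ^ 2 ≤ M' := by
          have : (∑ a, (Qa Q a).card) ^ 2 ≤ w ^ 2 :=
            Nat.pow_le_pow_left (by rw [hcardQ]; exact hQ) 2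
          nlinarith
        have h3 : (16 : ℝ) * ∑ a, ((Qa Q a).card : ℝ) ^ 2 ≤ M' := by exact_mod_cast h2
        linarith
      have hprodε : 15 / 16 ≤ ∏ a, (1 - ε a) := by
        have := one_sub_sum_le_prod univ ε (fun a _ => hεpos a) (fun a _ => hε1 a)
        linarith
      set A : Pt p m → ℝ := fun a => ∑ r ∈ S a, D₁ r with hA
      have hApos : ∀ a, 0 ≤ A a := fun a => Finset.sum_nonneg (fun r _ => hD1 r)
      have hTw : T.card ≤ w := by
        have h1 : ∀ a ∈ T, 1 ≤ (Qa Q a).card := by
          intro a ha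
          simp only [hT, mem_fil, mem_univ, true_and] at ha
          by_contra h0
          apply ha
          have : Qa Q a = ∅ := Finset.card_eq_zero.mp (by omega)
          rw [this]
          simp
        calc T.card = ∑ a ∈ T, 1 := by simp
          _ ≤ ∑ a ∈ T, (Qa Q a).card := Finset.sum_le_sum h1
          _ ≤ ∑ a, (Qa Q a).card := Finset.sum_le_univ_sum_of_nonneg (fun _ => Nat.zero_le _)
          _ ≤ w := by rw [hcardQ]; exact hQ
      -- pointwise bound for codewords vanishing on T
      have hfac : ∀ P : Pt p m → ZMod p, (∀ a ∈ T, P a = 0) → ∀ a,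
          (1 - ε a) * (if a ∈ T then (2 * p : ℝ) else 1) * A a ≤ ∑ r ∈ S a, DP P a r := by
        intro P hP a
        have hd := hdom (Qa Q a) (τ a)
        by_cases haT : a ∈ T
        · rw [if_pos haT]
          have h0 := hP a haT
          have h1 : ¬ Set.InjOn (fun b => (τ a b).1) (Qa Q a : Set (Fin (2 * M))) := by
            simpa [hT] using haT
          have h2 := hd.2.2 h1
          simp only [hDP, h0, if_true]
          exact h2
        · rw [if_neg haT, mul_one]
          by_cases h0 : P a = 0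
          · simp only [hDP, h0, if_true]
            exact hd.2.1
          · simp only [hDP, if_neg h0]
            have h1 : Set.InjOn (fun b => (τ a b).1) (Qa Q a : Set (Fin (2 * M))) := by
              by_contra hc
              exact haT (by simp [hT, hc])
            have h2 := hd.1 h1 (P a)
            have h3 : (1 - ε a) * A a ≤ A a := by
              have := hεpos a
              have := hApos a
              nlinarith
            exact le_trans h3 h2
      have hprod : ∀ P : Pt p m → ZMod p, (∀ a ∈ T, P a = 0) →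
          15 / 16 * (2 * p : ℝ) ^ T.card * ∏ a, A a ≤ ∏ a, ∑ r ∈ S a, DP P a r := by
        intro P hP
        have h1 : ∏ a, ((1 - ε a) * (if a ∈ T then (2 * p : ℝ) else 1) * A a) ≤
            ∏ a, ∑ r ∈ S a, DP P a r := by
          refine Finset.prod_le_prod (fun a _ => ?_) (fun a _ => hfac P hP a)
          have : 0 ≤ 1 - ε a := by have := hε1 a; linarith
          have h2 : (0 : ℝ) ≤ (if a ∈ T then (2 * p : ℝ) else 1) := by
            split_ifs <;> positivity
          exact mul_nonneg (mul_nonneg this h2) (hApos a)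
        refine le_trans ?_ h1
        rw [Finset.prod_mul_distrib, Finset.prod_mul_distrib]
        have h2 : ∏ a, (if a ∈ T then (2 * p : ℝ) else 1) = (2 * p : ℝ) ^ T.card := by
          rw [Finset.prod_ite_mem, Finset.univ_inter, Finset.prod_const]
        rw [h2]
        have h3 : 0 ≤ ∏ a, A a := Finset.prod_nonneg (fun a _ => hApos a)
        have h4 : (0 : ℝ) ≤ (2 * p : ℝ) ^ T.card := by positivity
        gcongr
      -- the number of codewords vanishing on T
      set CT : Finset (Pt p m → ZMod p) := fil CS (fun P => ∀ a ∈ T, P a = 0) with hCT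
      have hcountT : count (fun P : Pt p m → ZMod p => Code k P ∧ ∀ a ∈ T, P a = 0) =
          CT.card + 1 := by
        have : fil univ (fun P : Pt p m → ZMod p => Code k P ∧ ∀ a ∈ T, P a = 0) =
            insert 0 CT := by
          ext P
          simp only [mem_fil, mem_univ, true_and, hCT, hCS, mem_insert]
          constructor
          · intro h
            by_cases hP : P = 0
            · left; exact hP
            · right; exact ⟨⟨h.1, hP⟩, h.2⟩
          · rintro (h | h)
            · rw [h]; exact ⟨hzero, fun _ _ => rfl⟩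
            · exact ⟨h.1.1, h.2⟩
        unfold count
        rw [this, Finset.card_insert_of_notMem]
        simp [hCT, hCS]
      have hres : n + 1 ≤ p ^ T.card * (CT.card + 1) := by
        have := F_restrict (k := k) T
        rw [hcount, hcountT] at this
        exact this
      have hratio : (n : ℝ) ≤ (2 * p : ℝ) ^ T.card * CT.card := by
        rcases Nat.eq_zero_or_pos T.card with h0 | h0
        · rw [h0] at hres ⊢
          simp only [pow_zero, one_mul] at hres ⊢
          exact_mod_cast (by omega : n ≤ CT.card)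
        · have h1 : p ^ T.card ≤ p ^ w := Nat.pow_le_pow_right hp.pos hTw
          have h2 : 2 * p ^ w ≤ n + 1 := by
            calc 2 * p ^ w ≤ p * p ^ w := Nat.mul_le_mul_right _ hp2
              _ = p ^ (w + 1) := by ring
              _ ≤ n + 1 := hbig
          have h3 : (2 : ℕ) ≤ 2 ^ T.card := by
            calc 2 = 2 ^ 1 := by norm_num
              _ ≤ 2 ^ T.card := Nat.pow_le_pow_right (by norm_num) h0
          have h4 : n ≤ 2 ^ T.card * (p ^ T.card * CT.card) := by
            have h5 : n + 1 ≤ p ^ T.card * CT.card + p ^ T.card := by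
              rw [mul_add, mul_one] at hres; exact hres
            have h6 : 2 * (p ^ T.card * CT.card) ≤ 2 ^ T.card * (p ^ T.card * CT.card) :=
              Nat.mul_le_mul_right _ h3
            omega
          have h7 : n ≤ (2 * p) ^ T.card * CT.card := by
            rw [mul_pow, mul_assoc]; exact h4
          exact_mod_cast h7
      have hprodA : 0 ≤ ∏ a, A a := Finset.prod_nonneg (fun a _ => hApos a)
      -- combine
      rw [sum_cyl (fun _ r => D₁ r) Q τ, ← Finset.sum_div, Finset.sum_comm,
        le_div_iff₀ hnpos]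
      have h1 : ∑ P ∈ CT, ∏ a, ∑ r ∈ S a, DP P a r ≤
          ∑ P ∈ CS, ∑ z ∈ cyl Q τ, ∏ a, DP P a (z a) := by
        have h2 : ∀ P ∈ CS, ∑ z ∈ cyl Q τ, ∏ a, DP P a (z a) = ∏ a, ∑ r ∈ S a, DP P a r := by
          intro P _
          exact sum_cyl (fun a r => DP P a r) Q τ
        rw [Finset.sum_congr rfl h2]
        refine Finset.sum_le_sum_of_subset_of_nonneg ?_ ?_
        · intro P hP
          exact (mem_fil.mp hP).1
        · intro P _ _
          exact Finset.prod_nonneg (fun a _ => Finset.sum_nonneg (fun r _ => hDPpos _ _ _))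
      refine le_trans ?_ h1
      have h2 : (CT.card : ℝ) * (15 / 16 * (2 * p : ℝ) ^ T.card * ∏ a, A a) ≤
          ∑ P ∈ CT, ∏ a, ∑ r ∈ S a, DP P a r := by
        rw [← nsmul_eq_mul]
        exact Finset.card_nsmul_le_sum _ _ _ (fun P hP => hprod P (mem_fil.mp hP).2)
      refine le_trans ?_ h2
      calc 15 / 16 * (∏ a, ∑ r ∈ fil univ (fun r : Row p M => ∀ b ∈ Qa Q a, r b = τ a b), D₁ r) * n
          = 15 / 16 * (∏ a, A a) * n := rfl
        _ ≤ 15 / 16 * (∏ a, A a) * ((2 * p : ℝ) ^ T.card * CT.card) := by gcongr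
        _ = _ := by ring
    -- from cylinders to functions
    have hfib : ∀ ν : Inp p m M → ℝ, ∑ z, ν z * h z =
        ∑ t : (Q → Sym p M), ∑ z ∈ univ.filter (fun z : Inp p m M =>
          (fun q : Q => z q.1.1 q.1.2) = t), ν z * h z := by
      intro ν
      exact (Finset.sum_fiberwise univ (fun z : Inp p m M => (fun q : Q => z q.1.1 q.1.2))
        (fun z => ν z * h z)).symm
    rw [hfib, hfib, Finset.mul_sum]
    refine Finset.sum_le_sum (fun t _ => ?_)
    rcases Finset.eq_empty_or_nonempty (univ.filter (fun z : Inp p m M =>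
          (fun q : Q => z q.1.1 q.1.2) = t)) with he | ⟨τ, hτ⟩
    · rw [he]; simp
    · have hset : univ.filter (fun z : Inp p m M => (fun q : Q => z q.1.1 q.1.2) = t) =
          cyl Q τ := by
        simp only [mem_filter, mem_univ, true_and] at hτ
        ext z
        simp only [mem_filter, mem_univ, true_and, cyl, mem_fil]
        rw [← hτ]
        constructor
        · intro hz q hq
          exact congrFun hz ⟨q, hq⟩
        · intro hz
          funext q
          exact hz q.1 q.2
      rw [hset]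
      have hconst : ∀ z ∈ cyl Q τ, h z = h τ := by
        intro z hz
        exact hdep z τ (mem_fil.mp hz).2
      have e1 : ∀ ν : Inp p m M → ℝ, ∑ z ∈ cyl Q τ, ν z * h z = (∑ z ∈ cyl Q τ, ν z) * h τ := by
        intro ν
        rw [Finset.sum_mul]
        exact Finset.sum_congr rfl (fun z hz => by rw [hconst z hz])
      rw [e1, e1, ← mul_assoc]
      exact mul_le_mul_of_nonneg_right (hcyl τ) (hh τ)

end H657R2.MAAM.TaskG
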