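import Pool.Agent.H657R2.MAAM.TaskD
import Pool.Agent.H657R2.MAAM.TaskG

namespace H657R2.MAAM.Core

open Finset

variable {p m k M β : ℕ}

/-- encode an input -/
def encI (enc : Sym p M → Str β) (Z : Inp p m M) : Jt p m M β → Bool :=
  fun j => enc (Z j.1.1 j.1.2) j.2

theorem toInp_encI (enc : Sym p M → Str β) (dec : Str β → Sym p M)
    (hde : ∀ s, dec (enc s) = s) (Z : Inp p m M) : toInp dec (encI enc Z) = Z := by
  funext a b
  exact hde (Z a b)

theorem Fn_true {dec : Str β → Sym p M} {mg : ℕ}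
    (x : Jt p m M β → Fin mg) (y : Jt p m M β → Fin mg → Bool) :
    Fn k dec x y = true ↔ Good k (toInp dec (gad x y)) := by
  simp [Fn]

theorem Fn_false {dec : Str β → Sym p M} {mg : ℕ}
    (x : Jt p m M β → Fin mg) (y : Jt p m M β → Fin mg → Bool) :
    Fn k dec x y = false ↔ ¬ Good k (toInp dec (gad x y)) := by
  simp [Fn]

theorem core_lower (p m k M M' w β c : ℕ) [Fact p.Prime] (hw : 1 ≤ w) (hk : 1 ≤ k) (hkp : k ≤ p)
    (hcode : w + 1 ≤ k ^ m) (hM' : 16 * w ^ 2 ≤ M') (hM : M = 2 * p * M')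
    (enc : Sym p M → Str β) (dec : Str β → Sym p M) (hde : ∀ s, dec (enc s) = s)
    {mg : ℕ} (hmg : mg = (4 * Fintype.card (Jt p m M β) * (64 * Fintype.card (Jt p m M β))) ^ 4)
    (hN : 1 ≤ Fintype.card (Jt p m M β))
    (hc : c + 3 ≤ w) (hc' : c + 3 ≤ 3 * Fintype.card (Jt p m M β)) :
    ¬ SBP (Fn (p := p) (m := m) (M := M) (β := β) k dec (mg := mg)) c := by
  classical
  set N := Fintype.card (Jt p m M β) with hNdef
  obtain ⟨ν₀, ν₁, h0, h1, hs0, hs1, hf1, hf0, hdom⟩ :=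
    TaskG.G_query p m k M M' w hw hk hkp hcode hM' hM
  -- bits
  set b₀ : (Jt p m M β → Bool) → ℝ := fun z => ∑ Z ∈ univ.filter (fun Z => encI enc Z = z), ν₀ Z
    with hb₀
  set b₁ : (Jt p m M β → Bool) → ℝ := fun z => ∑ Z ∈ univ.filter (fun Z => encI enc Z = z), ν₁ Z
    with hb₁
  have hpush : ∀ (ν : Inp p m M → ℝ) (h : (Jt p m M β → Bool) → ℝ),
      ∑ z, (∑ Z ∈ univ.filter (fun Z => encI enc Z = z), ν Z) * h z =
        ∑ Z, ν Z * h (encI enc Z) := by
    intro ν h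
    rw [← Finset.sum_fiberwise univ (fun Z : Inp p m M => encI enc Z)
      (fun Z => ν Z * h (encI enc Z))]
    refine Finset.sum_congr rfl (fun z _ => ?_)
    rw [Finset.sum_mul]
    refine Finset.sum_congr rfl (fun Z hZ => ?_)
    rw [(Finset.mem_filter.mp hZ).2]
  have hb0 : ∀ z, 0 ≤ b₀ z := fun z => Finset.sum_nonneg (fun Z _ => h0 Z)
  have hb1 : ∀ z, 0 ≤ b₁ z := fun z => Finset.sum_nonneg (fun Z _ => h1 Z)
  have hbs0 : ∑ z, b₀ z = 1 := by
    have := hpush ν₀ (fun _ => 1)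
    simpa [hs0] using this
  have hbs1 : ∑ z, b₁ z = 1 := by
    have := hpush ν₁ (fun _ => 1)
    simpa [hs1] using this
  have hbdom : ∀ Q : Finset (Jt p m M β), Q.card ≤ (c + 2) + 1 →
      ∀ h : (Jt p m M β → Bool) → ℝ, (∀ z, 0 ≤ h z) →
      DependsOn' Q h → 15 / 16 * ∑ z, b₁ z * h z ≤ ∑ z, b₀ z * h z := by
    intro Q hQ h hh hdep
    rw [hpush ν₁ h, hpush ν₀ h]
    refine hdom (Q.image Prod.fst) (le_trans Finset.card_image_le (by omega))
      (fun Z => h (encI enc Z)) (fun Z => hh _) ?_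
    intro Z Z' hZ
    apply hdep
    intro j hj
    simp only [encI]
    rw [hZ j.1 (Finset.mem_image_of_mem _ hj)]
  have hlift := TaskD.D_lift (J := Jt p m M β) (m := mg) (c + 2) hN (by omega) hmg b₀ b₁ hb0 hb1
    hbs1 hbdom
  have hmg1 : 1 ≤ mg := by
    rw [hmg]
    exact Nat.one_le_pow _ _ (by positivity)
  set Zc : ℝ := (mg : ℝ) ^ N * 2 ^ ((mg - 1) * N) with hZc
  have hZpos : 0 < Zc := by positivity
  have hmass : ∀ (b : (Jt p m M β → Bool) → ℝ) (A : Finset (Jt p m M β → Fin mg))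
      (B : Finset (Jt p m M β → Fin mg → Bool)),
      ∑ x ∈ A, ∑ y ∈ B, b (gad x y) / Zc = mass b A B := by
    intro b A B
    unfold mass
    rw [Finset.sum_div]
    refine Finset.sum_congr rfl (fun x _ => ?_)
    rw [Finset.sum_div]
  have htot : ∀ b : (Jt p m M β → Bool) → ℝ, ∑ z, b z = 1 →
      ∑ x : Jt p m M β → Fin mg, ∑ y : Jt p m M β → Fin mg → Bool, b (gad x y) / Zc = 1 := by
    intro b hb
    have e1 : ∀ x : Jt p m M β → Fin mg, ∑ y : Jt p m M β → Fin mg → Bool, b (gad x y) / Zc =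
        2 ^ ((mg - 1) * N) / Zc := by
      intro x
      rw [← Finset.sum_div, TaskD.sum_gad, hb, mul_one]
    simp_rw [e1]
    rw [Finset.sum_const, Finset.card_univ, nsmul_eq_mul]
    have e2 : Fintype.card (Jt p m M β → Fin mg) = mg ^ N := by
      rw [Fintype.card_fun, Fintype.card_fin]
    rw [e2, hZc]
    push_cast
    have : (mg : ℝ) ^ N ≠ 0 := by positivity
    field_simp
  refine J_sbp _ c (fun x y => b₀ (gad x y) / Zc) (fun x y => b₁ (gad x y) / Zc)
    (fun x y => div_nonneg (hb0 _) hZpos.le) (fun x y => div_nonneg (hb1 _) hZpos.le)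
    (htot b₀ hbs0) (htot b₁ hbs1) ?_ ?_ ?_
  · intro x y hxy
    have hne : b₀ (gad x y) ≠ 0 := fun h => hxy (by simp [h])
    obtain ⟨Z, hZ, hZne⟩ := Finset.exists_ne_zero_of_sum_ne_zero hne
    rw [Fn_false, ← (Finset.mem_filter.mp hZ).2, toInp_encI enc dec hde]
    exact hf0 Z hZne
  · intro x y hxy
    have hne : b₁ (gad x y) ≠ 0 := fun h => hxy (by simp [h])
    obtain ⟨Z, hZ, hZne⟩ := Finset.exists_ne_zero_of_sum_ne_zero hne
    rw [Fn_true, ← (Finset.mem_filter.mp hZ).2, toInp_encI enc dec hde]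
    exact hf1 Z hZne
  · intro A B
    rw [hmass b₁ A B, hmass b₀ A B]
    exact hlift A B

theorem core_am [Fact p.Prime] (hm : 1 ≤ m) (hk : 1 ≤ k) (hM : 1 ≤ M)
    (hfrac : 6 * (m * (k - 1)) ≤ p) (dec : Str β → Sym p M) {mg : ℕ} [NeZero mg] {e₀ g r : ℕ}
    (he : 3 * (m * p ^ m * (2 * M) ^ (2 * p)) ≤ 2 ^ e₀) (hg : mg ≤ 2 ^ g) (hr : p ^ m ≤ 2 ^ r) :
    AM (Fn (p := p) (m := m) (M := M) (β := β) k dec (mg := mg))
      (r + (e₀ + 2 * p * β * g) + 2) := by
  classical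
  have hcardPt : Fintype.card (Pt p m) = p ^ m := by
    simp [Pt, ZMod.card]
  obtain ⟨φ, -, hφ⟩ := TaskK1.K1_fibre r (Pt p m) (by rw [hcardPt]; exact hr)
  have hV : ∀ a : Pt p m, ∃ V : Str (e₀ + 2 * p * β * g) →
      Prot (Jt p m M β → Fin mg) (Jt p m M β → Fin mg → Bool), (∀ q, (V q).bits ≤ 2) ∧
      ∀ x y, (∃ q, (V q).run x y = true) ↔
        (Viol k (toInp dec (gad x y)) ∨ RowSol (toInp dec (gad x y) a) 0) := by
    intro a
    obtain ⟨E, _, _, C, hcard, hC⟩ := I_zero p m k M hm hM a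
    obtain ⟨V, hb, hV⟩ := I_cert (hcard.trans he) C dec hg
    exact ⟨V, hb, fun x y => (hV x y).trans (hC _)⟩
  choose V hb hV using hV
  refine ⟨r, e₀ + 2 * p * β * g, 2, le_refl _, fun ω q => V (φ ω) q, fun ω q => hb _ _, ?_⟩
  intro x y
  constructor
  · intro hF ω
    rw [Fn_true] at hF
    rw [hV]
    rcases hF with h | h
    · left; exact h
    · right; exact h _
  · intro hF
    rw [Fn_false] at hF
    obtain ⟨hv, hcount⟩ := H_sound hM hk _ hF
    have e1 : (fun ω => ∃ q, (V (φ ω) q).run x y = true) =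
        fun ω => RowSol (toInp dec (gad x y) (φ ω)) 0 := by
      funext ω
      rw [hV]
      exact propext ⟨fun h => h.resolve_left hv, fun h => Or.inr h⟩
    rw [e1]
    have h2 := hφ (fun a => RowSol (toInp dec (gad x y) a) 0)
    rw [hcardPt] at h2
    have hp : 0 < p := (Fact.out : p.Prime).pos
    have hpm : 0 < p ^ m := Nat.pow_pos hp
    set c1 := count (fun ω => RowSol (toInp dec (gad x y) (φ ω)) 0)
    set c2 := count (fun a => RowSol (toInp dec (gad x y) a) 0)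
    have h3 : p * (p ^ m) * (3 * c1) ≤ p * (p ^ m) * 2 ^ r := by
      calc p * (p ^ m) * (3 * c1) = 3 * p * (p ^ m * c1) := by ring
        _ ≤ 3 * p * (2 * 2 ^ r * c2) := Nat.mul_le_mul_left _ h2
        _ = 6 * 2 ^ r * (p * c2) := by ring
        _ ≤ 6 * 2 ^ r * (m * (k - 1) * p ^ m) := Nat.mul_le_mul_left _ hcount
        _ = 2 ^ r * p ^ m * (6 * (m * (k - 1))) := by ring
        _ ≤ 2 ^ r * p ^ m * p := Nat.mul_le_mul_left _ hfrac
        _ = _ := by ring
    exact Nat.le_of_mul_le_mul_left h3 (Nat.mul_pos hp hpm)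

end H657R2.MAAM.Core
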