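import Mathlib

/-!
Two-party communication complexity (AM, MA, SBP, NP) and the total function that separates
AM from MA and from SBP.
-/

namespace H657R2.MAAM

open Finset

/-- Elements of the finite set `s` with the property `P`. -/
noncomputable def fil {α : Type} (s : Finset α) (P : α → Prop) : Finset α :=
  open Classical in s.filter P

@[simp] theorem mem_fil {α : Type} {s : Finset α} {P : α → Prop} {x : α} :
    x ∈ fil s P ↔ x ∈ s ∧ P x := by
  simp [fil]

/-- The number of elements of a finite type with the property `P`. -/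
noncomputable def count {α : Type} [Fintype α] (P : α → Prop) : ℕ := (fil univ P).card

/-- Bit strings of length `n`. -/
abbrev Str (n : ℕ) : Type := Fin n → Bool

/-- Deterministic two-party protocols. -/
inductive Prot (X Y : Type) : Type
  | out : Bool → Prot X Y
  | alice : (X → Bool) → Prot X Y → Prot X Y → Prot X Y
  | bob : (Y → Bool) → Prot X Y → Prot X Y → Prot X Y

namespace Prot

variable {X Y : Type}

/-- The output of a protocol on the inputs `x` (of Alice) and `y` (of Bob). -/
def run : Prot X Y → X → Y → Bool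
  | .out b, _, _ => b
  | .alice q l r, x, y => bif q x then l.run x y else r.run x y
  | .bob q l r, x, y => bif q y then l.run x y else r.run x y

/-- The number of bits exchanged in the worst case. -/
def bits : Prot X Y → ℕ
  | .out _ => 0
  | .alice _ l r => max l.bits r.bits + 1
  | .bob _ l r => max l.bits r.bits + 1

end Prot

section Classes

variable {X Y : Type}

/-- `F` has an Arthur-Merlin protocol (public coins first, then Merlin's message) with perfect
completeness and soundness error at most `1/3`, of total cost `c`: number of coins plus length of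
Merlin's message plus number of bits exchanged. -/
def AM (F : X → Y → Bool) (c : ℕ) : Prop :=
  ∃ r a b : ℕ, r + a + b ≤ c ∧ ∃ V : Str r → Str a → Prot X Y,
    (∀ ω p, (V ω p).bits ≤ b) ∧
    ∀ x y, (F x y = true → ∀ ω, ∃ p, (V ω p).run x y = true) ∧
      (F x y = false → 3 * count (fun ω => ∃ p, (V ω p).run x y = true) ≤ 2 ^ r)

/-- `F` has a Merlin-Arthur protocol of cost `c`: length of Merlin's message (sent first) plus
number of bits exchanged; public coins are free; two-sided error `1/3`. -/
def MA (F : X → Y → Bool) (c : ℕ) : Prop :=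
  ∃ a b : ℕ, a + b ≤ c ∧ ∃ (r : ℕ) (V : Str a → Str r → Prot X Y),
    (∀ p ω, (V p ω).bits ≤ b) ∧
    ∀ x y, (F x y = true → ∃ p, 2 * 2 ^ r ≤ 3 * count (fun ω => (V p ω).run x y = true)) ∧
      (F x y = false → ∀ p, 3 * count (fun ω => (V p ω).run x y = true) ≤ 2 ^ r)

/-- `F` has a small-bounded-error protocol of cost `c`: for some `α ≥ 2 ^ (-t)` every 1-input is
accepted with probability at least `α`, every 0-input with probability at most `α / 2`, and `c`
bounds `t` plus the number of bits exchanged; public coins are free. -/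
def SBP (F : X → Y → Bool) (c : ℕ) : Prop :=
  ∃ t b : ℕ, t + b ≤ c ∧ ∃ (r : ℕ) (V : Str r → Prot X Y) (α : ℝ),
    (∀ ω, (V ω).bits ≤ b) ∧ (1 / 2) ^ t ≤ α ∧
    ∀ x y, (F x y = true → α * 2 ^ r ≤ (count (fun ω => (V ω).run x y = true) : ℝ)) ∧
      (F x y = false → (count (fun ω => (V ω).run x y = true) : ℝ) ≤ α / 2 * 2 ^ r)

/-- `F` has nondeterministic complexity at most `c`: its 1-inputs are covered by `2 ^ c`
rectangles (possibly empty). -/
def NP (F : X → Y → Bool) (c : ℕ) : Prop :=
  ∃ (S : Str c → X → Prop) (T : Str c → Y → Prop),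
    ∀ x y, F x y = true ↔ ∃ p, S p x ∧ T p y

end Classes

/-! ### The query problem -/

section Query

/-- Symbols: a label and an element of `ZMod p`. -/
abbrev Sym (p M : ℕ) : Type := Fin M × ZMod p

/-- A row: `2 * M` items, each with a symbol. -/
abbrev Row (p M : ℕ) : Type := Fin (2 * M) → Sym p M

/-- Points of the grid. -/
abbrev Pt (p m : ℕ) : Type := Fin m → ZMod p

/-- Inputs: one row for every point. -/
abbrev Inp (p m M : ℕ) : Type := Pt p m → Row p M

/-- Two items of the row with the same label have difference `v`. -/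
def RowSol {p M : ℕ} (z : Row p M) (v : ZMod p) : Prop :=
  ∃ b b' : Fin (2 * M), b < b' ∧ (z b).1 = (z b').1 ∧ (z b').2 - (z b).2 = v

/-- Univariate polynomial functions of degree less than `k`. -/
def LowDeg {p : ℕ} (k : ℕ) (u : ZMod p → ZMod p) : Prop :=
  ∃ c : Fin k → ZMod p, ∀ x, u x = ∑ j, c j * x ^ (j : ℕ)

/-- Functions on the grid of degree less than `k` on every axis-parallel line. -/
def Code {p m : ℕ} (k : ℕ) (P : Pt p m → ZMod p) : Prop :=
  ∀ (i : Fin m) (a : Pt p m), LowDeg k (fun c => P (Function.update a i c))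

/-- Some row has two different values, or the values on some line are inconsistent. -/
def Viol {p m M : ℕ} (k : ℕ) (z : Inp p m M) : Prop :=
  (∃ a v v', v ≠ v' ∧ RowSol (z a) v ∧ RowSol (z a) v') ∨
  (∃ (i : Fin m) (a : Pt p m) (u : ZMod p → ZMod p), ¬ LowDeg k u ∧
    ∀ c, RowSol (z (Function.update a i c)) (u c))

/-- The 1-inputs. -/
def Good {p m M : ℕ} (k : ℕ) (z : Inp p m M) : Prop :=
  Viol k z ∨ ∀ a, RowSol (z a) 0

end Query

/-! ### The index gadget -/

section Gadget

variable {J : Type} [Fintype J] [DecidableEq J] {m : ℕ}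

/-- Alice holds a pointer for every `j`, Bob holds an array for every `j`. -/
def gad (x : J → Fin m) (y : J → Fin m → Bool) : J → Bool := fun j => y j (x j)

/-- The mass of the rectangle `X' ×ˢ Y'` under the lift of the weight `ν`. -/
noncomputable def mass (ν : (J → Bool) → ℝ) (X' : Finset (J → Fin m))
    (Y' : Finset (J → Fin m → Bool)) : ℝ :=
  (∑ x ∈ X', ∑ y ∈ Y', ν (gad x y)) /
    ((m : ℝ) ^ Fintype.card J * 2 ^ ((m - 1) * Fintype.card J))

/-- `X` is `D`-dense outside `I`. -/
def Dense (D : ℕ) (I : Finset J) (X : Finset (J → Fin m)) : Prop :=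
  ∀ S : Finset J, Disjoint S I → ∀ s : J → Fin m,
    (fil X (fun x => ∀ j ∈ S, x j = s j)).card * D ^ S.card ≤ X.card

/-- `h` depends only on the coordinates in `Q`. -/
def DependsOn' {β : Type} (Q : Finset J) (h : (J → β) → ℝ) : Prop :=
  ∀ z z' : J → β, (∀ j ∈ Q, z j = z' j) → h z = h z'

/-- The sign of a bit. -/
def sgn (b : Bool) : ℝ := if b then -1 else 1

end Gadget

/-! ### Bits -/

section Bits

variable {p m M β : ℕ}

/-- Index set of the bits of an input. -/
abbrev Jt (p m M β : ℕ) : Type := (Pt p m × Fin (2 * M)) × Fin β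

/-- Decode the bits with the map `dec`. -/
def toInp (dec : Str β → Sym p M) (z : Jt p m M β → Bool) : Inp p m M :=
  fun a b => dec (fun t => z ((a, b), t))

/-- The two-party function. -/
noncomputable def Fn (k : ℕ) (dec : Str β → Sym p M) {mg : ℕ}
    (x : Jt p m M β → Fin mg) (y : Jt p m M β → Fin mg → Bool) : Bool :=
  open Classical in decide (Good k (toInp dec (gad x y)))

/-- A kind of certificate: guess `e`, read `s` symbols, check. -/
structure Cert (p m M s : ℕ) (E : Type) where
  pos : E → Fin s → Pt p m × Fin (2 * M)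
  ok : E → (Fin s → Sym p M) → Prop

/-- Some certificate is valid for the input. -/
def Cert.holds {s : ℕ} {E : Type} (C : Cert p m M s E) (z : Inp p m M) : Prop :=
  ∃ e, C.ok e (fun l => z (C.pos e l).1 (C.pos e l).2)

end Bits

end H657R2.MAAM
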