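import Pool.Agent.H657R2.MAAM.Core

namespace H657R2.MAAM.Final

open Finset

/-- `log k + 1` -/
def lam (k : ℕ) : ℕ := Nat.log 2 k + 1

theorem lt_two_pow_lam (k : ℕ) : k < 2 ^ lam k := Nat.lt_pow_succ_log_self (by norm_num) k

theorem two_pow_le {k : ℕ} (hk : 2 ≤ k) : 2 ^ (lam k - 1) ≤ k := by
  unfold lam
  simpa using Nat.pow_log_le_self 2 (by omega : k ≠ 0)

theorem lam_ge {k : ℕ} (hk : 2 ≤ k) : 2 ≤ lam k := by
  unfold lam
  have : 1 ≤ Nat.log 2 k := Nat.le_log_of_pow_le (by norm_num) (by simpa using hk)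
  omega

theorem lam_le {k : ℕ} (hk : 2 ≤ k) : lam k ≤ k := by
  unfold lam
  have : Nat.log 2 k < k := Nat.log_lt_of_lt_pow (by omega) (Nat.lt_two_pow_self)
  omega

theorem lam_succ (k : ℕ) (hk : 2 ≤ k) : lam (k + 1) ≤ lam k + 1 := by
  unfold lam
  have h : Nat.log 2 (k + 1) ≤ Nat.log 2 (k * 2) := Nat.log_mono_right (by omega)
  rw [Nat.log_mul_base (by norm_num) (by omega)] at h
  omega

/-- logarithm of the size of the inputs -/
def U (k : ℕ) : ℕ := 36 * k * lam k + 36 * k + 36 * lam k + 149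

theorem core (k : ℕ) (hk : 2 ≤ k) :
    ∃ (X Y : Type) (_ : Fintype X) (_ : Fintype Y) (_ : Nonempty X) (_ : Nonempty Y)
      (F G₁ G₂ : X → Y → Bool), Fintype.card X ≤ 2 ^ (2 ^ U k) ∧ Fintype.card Y ≤ 2 ^ (2 ^ U k) ∧
      AM F (110000 * k ^ 6) ∧ NP G₁ (110000 * k ^ 6) ∧ NP G₂ (110000 * k ^ 6) ∧
      (∀ x y, F x y = (G₁ x y || !G₂ x y)) ∧ ∀ c, SBP F c → k ^ k ≤ c + 3 := by
  classical
  obtain ⟨p, hp, hp1, hp2⟩ := Nat.exists_prime_lt_and_le_two_mul (6 * k ^ 2)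
    (by positivity)
  haveI : Fact p.Prime := ⟨hp⟩
  set l := lam k with hl
  have hkl : k < 2 ^ l := lt_two_pow_lam k
  have hl2 : 2 ≤ l := lam_ge hk
  have hlk : l ≤ k := lam_le hk
  set w := k ^ k - 1 with hwdef
  have hkk : 2 ^ 2 ≤ k ^ k := by
    calc 2 ^ 2 ≤ k ^ 2 := Nat.pow_le_pow_left hk 2
      _ ≤ k ^ k := Nat.pow_le_pow_right (by omega) hk
  have hw : 1 ≤ w := by omega
  have hw1 : w + 1 = k ^ k := by omega
  set M' := 16 * w ^ 2 with hM'
  set M := 2 * p * M' with hM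
  have hM1 : 1 ≤ M := by
    have : 1 ≤ M' := by rw [hM']; nlinarith
    have := hp.pos
    rw [hM]; nlinarith
  set β := 2 * k * l + 4 * l + 13 with hβ
  -- bounds by powers of two
  have hpb : p ≤ 2 ^ (2 * l + 4) := by
    have h1 : k ^ 2 ≤ (2 ^ l) ^ 2 := Nat.pow_le_pow_left hkl.le 2
    calc p ≤ 2 * (6 * k ^ 2) := hp2
      _ ≤ 16 * (2 ^ l) ^ 2 := by nlinarith
      _ = 2 ^ (2 * l + 4) := by rw [pow_add, mul_comm 2 l, pow_mul]; ring
  have hwb : w ≤ 2 ^ (k * l) := by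
    calc w ≤ k ^ k := by omega
      _ ≤ (2 ^ l) ^ k := Nat.pow_le_pow_left hkl.le k
      _ = 2 ^ (k * l) := by rw [← pow_mul, mul_comm]
  have hMb : 2 * M ≤ 2 ^ (2 * k * l + 2 * l + 10) := by
    have h1 : w ^ 2 ≤ (2 ^ (k * l)) ^ 2 := Nat.pow_le_pow_left hwb 2
    calc 2 * M = 64 * (p * w ^ 2) := by rw [hM, hM']; ring
      _ ≤ 64 * (2 ^ (2 * l + 4) * (2 ^ (k * l)) ^ 2) := by gcongr
      _ = 2 ^ (2 * k * l + 2 * l + 10) := by
          rw [← pow_mul, ← pow_add, show (64 : ℕ) = 2 ^ 6 by norm_num, ← pow_add]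
          congr 1; ring
  have hppow : p ^ k ≤ 2 ^ (k * (2 * l + 4)) := by
    calc p ^ k ≤ (2 ^ (2 * l + 4)) ^ k := Nat.pow_le_pow_left hpb k
      _ = _ := by rw [← pow_mul, mul_comm]
  have hcardPt : Fintype.card (Pt p k) = p ^ k := by simp [Pt, ZMod.card]
  have hcardSym : Fintype.card (Sym p M) ≤ 2 ^ β := by
    have : Fintype.card (Sym p M) = M * p := by simp [Sym, ZMod.card]
    rw [this]
    have h1 : 2 * (M * p) ≤ 2 * 2 ^ β := by
      calc 2 * (M * p) = (2 * M) * p := by ring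
        _ ≤ 2 ^ (2 * k * l + 2 * l + 10) * 2 ^ (2 * l + 4) := Nat.mul_le_mul hMb hpb
        _ = 2 * 2 ^ β := by rw [← pow_add, ← pow_succ', hβ]; congr 1; ring
    omega
  haveI : NeZero M := ⟨by omega⟩
  haveI : Nonempty (Sym p M) := ⟨(0, 0)⟩
  obtain ⟨dec, hdec⟩ := TaskK1.K1_surj (X := Sym p M) β hcardSym
  obtain ⟨enc, hde⟩ := hdec.hasRightInverse
  set N := Fintype.card (Jt p k M β) with hN
  have hNval : N = p ^ k * (2 * M) * β := by
    rw [hN]
    simp only [Jt, Fintype.card_prod, Fintype.card_fin, hcardPt]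
  have hβb : β ≤ 2 ^ (2 * l + 3) := by
    have h4 : 4 ≤ 2 ^ l := by
      calc 4 = 2 ^ 2 := by norm_num
        _ ≤ 2 ^ l := Nat.pow_le_pow_right (by norm_num) hl2
    have hl3 : l < 2 ^ l := Nat.lt_two_pow_self
    set t := 2 ^ l with ht
    have : 2 ^ (2 * l + 3) = 8 * t ^ 2 := by rw [pow_add, mul_comm 2 l, pow_mul]; ring
    rw [this, hβ]
    nlinarith
  have hNb : N ≤ 2 ^ (4 * k * l + 4 * k + 4 * l + 13) := by
    rw [hNval]
    calc p ^ k * (2 * M) * β ≤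
        2 ^ (k * (2 * l + 4)) * 2 ^ (2 * k * l + 2 * l + 10) * 2 ^ (2 * l + 3) :=
          Nat.mul_le_mul (Nat.mul_le_mul hppow hMb) hβb
      _ = _ := by rw [← pow_add, ← pow_add]; congr 1; ring
  have hkN : k ^ k ≤ N := by
    have h1 : k ≤ p := by nlinarith
    have h2 : k ^ k ≤ p ^ k := Nat.pow_le_pow_left h1 k
    have h3 : 1 ≤ 2 * M * β := by
      have : 1 ≤ β := by omega
      nlinarith
    calc k ^ k ≤ p ^ k * 1 := by rw [mul_one]; exact h2
      _ ≤ p ^ k * (2 * M * β) := Nat.mul_le_mul_left _ h3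
      _ = N := by rw [hNval]; ring
  have hN1 : 1 ≤ N := by omega
  set mg := (4 * N * (64 * N)) ^ 4 with hmg
  have hmg1 : 1 ≤ mg := Nat.one_le_pow _ _ (by positivity)
  haveI : NeZero mg := ⟨by omega⟩
  have hmgN : mg * N ≤ 2 ^ U k := by
    calc mg * N = 2 ^ 32 * N ^ 9 := by rw [hmg]; ring
      _ ≤ 2 ^ 32 * (2 ^ (4 * k * l + 4 * k + 4 * l + 13)) ^ 9 := by gcongr
      _ = 2 ^ U k := by
          rw [← pow_mul, ← pow_add]
          congr 1
          simp only [U, ← hl]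
          ring
  set g := 32 * k * l + 32 * k + 32 * l + 136 with hg
  have hmgg : mg ≤ 2 ^ g := by
    calc mg = 2 ^ 32 * N ^ 8 := by rw [hmg]; ring
      _ ≤ 2 ^ 32 * (2 ^ (4 * k * l + 4 * k + 4 * l + 13)) ^ 8 := by gcongr
      _ = 2 ^ g := by
          rw [← pow_mul, ← pow_add, hg]
          congr 1
          ring
  set r := k * (2 * l + 4) with hr
  set e₀ := 2 + l + r + (2 * k * l + 2 * l + 10) * (2 * p) with he₀
  have hM2p : (2 * M) ^ (2 * p) ≤ 2 ^ ((2 * k * l + 2 * l + 10) * (2 * p)) := by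
    exact (Nat.pow_le_pow_left hMb _).trans_eq (by rw [← pow_mul])
  have he3 : 3 * (k * p ^ k * (2 * M) ^ (2 * p)) ≤ 2 ^ e₀ := by
    calc 3 * (k * p ^ k * (2 * M) ^ (2 * p)) ≤
        2 ^ 2 * (2 ^ l * 2 ^ r * 2 ^ ((2 * k * l + 2 * l + 10) * (2 * p))) := by
          refine Nat.mul_le_mul (by norm_num) ?_
          exact Nat.mul_le_mul (Nat.mul_le_mul hkl.le hppow) hM2p
      _ = 2 ^ e₀ := by rw [← pow_add, ← pow_add, ← pow_add, he₀]; congr 1; ring
  -- total cost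
  have hcost : r + (e₀ + 2 * p * β * g) + 2 ≤ 110000 * k ^ 6 := by
    have hkl2 : k * l ≤ k ^ 2 := by rw [sq]; exact Nat.mul_le_mul_left _ hlk
    have hp3 : 2 * p ≤ 24 * k ^ 2 := by omega
    have b1 : β ≤ 19 * k ^ 2 := by
      rw [hβ]; nlinarith
    have b2 : g ≤ 232 * k ^ 2 := by
      rw [hg]; nlinarith
    have b3 : r ≤ 6 * k ^ 2 := by
      rw [hr]; nlinarith
    have b4 : 2 * k * l + 2 * l + 10 ≤ 14 * k ^ 2 := by nlinarith
    have b5 : e₀ ≤ 2 + k + 6 * k ^ 2 + 14 * k ^ 2 * (24 * k ^ 2) := by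
      rw [he₀]
      have : (2 * k * l + 2 * l + 10) * (2 * p) ≤ 14 * k ^ 2 * (24 * k ^ 2) :=
        Nat.mul_le_mul b4 hp3
      omega
    have b6 : 2 * p * β * g ≤ 24 * k ^ 2 * (19 * k ^ 2) * (232 * k ^ 2) :=
      Nat.mul_le_mul (Nat.mul_le_mul hp3 b1) b2
    have q1 : 1 ≤ k ^ 6 := Nat.one_le_pow _ _ (by omega)
    have q2 : k ≤ k ^ 6 := by
      calc k = k ^ 1 := by ring
        _ ≤ k ^ 6 := Nat.pow_le_pow_right (by omega) (by norm_num)
    have q3 : k ^ 2 ≤ k ^ 6 := Nat.pow_le_pow_right (by omega) (by norm_num)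
    have q4 : k ^ 4 ≤ k ^ 6 := Nat.pow_le_pow_right (by omega) (by norm_num)
    have e1 : 14 * k ^ 2 * (24 * k ^ 2) = 336 * k ^ 4 := by ring
    have e2 : 24 * k ^ 2 * (19 * k ^ 2) * (232 * k ^ 2) = 105792 * k ^ 6 := by ring
    rw [e1] at b5
    rw [e2] at b6
    omega
  -- the function
  refine ⟨Jt p k M β → Fin mg, Jt p k M β → Fin mg → Bool, inferInstance, inferInstance,
    inferInstance, inferInstance, Fn (p := p) (m := k) (M := M) (β := β) k dec (mg := mg),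
    fun x y => decide (Viol k (toInp dec (gad x y))),
    fun x y => decide (∃ a v, v ≠ 0 ∧ RowSol (toInp dec (gad x y) a) v), ?_, ?_, ?_, ?_, ?_, ?_, ?_⟩
  · have : Fintype.card (Jt p k M β → Fin mg) = mg ^ N := by
      rw [Fintype.card_fun, Fintype.card_fin]
    rw [this]
    calc mg ^ N ≤ (2 ^ mg) ^ N := Nat.pow_le_pow_left (Nat.lt_two_pow_self).le N
      _ = 2 ^ (mg * N) := by rw [← pow_mul]
      _ ≤ 2 ^ (2 ^ U k) := Nat.pow_le_pow_right (by norm_num) hmgN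
  · have : Fintype.card (Jt p k M β → Fin mg → Bool) = (2 ^ mg) ^ N := by
      rw [Fintype.card_fun, Fintype.card_fun, Fintype.card_fin, Fintype.card_bool]
    rw [this, ← pow_mul]
    exact Nat.pow_le_pow_right (by norm_num) hmgN
  · refine TaskK1.K1_am_mono _ ?_ hcost
    refine Core.core_am (by omega) (by omega) hM1 ?_ dec he3 hmgg hppow
    calc 6 * (k * (k - 1)) ≤ 6 * (k * k) := by
          refine Nat.mul_le_mul_left _ (Nat.mul_le_mul_left _ (Nat.sub_le _ _))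
      _ = 6 * k ^ 2 := by ring
      _ ≤ p := hp1.le
  · obtain ⟨E, _, _, C, hcard, hC⟩ := I_viol p k k M (by omega) hM1
    refine TaskK1.K1_np_mono _ (I_np (g := g) (e₀ := e₀) (hcard.trans ?_) C dec hmgg _ ?_) ?_
    · calc 2 * (k * p ^ k * (2 * M) ^ (2 * p)) ≤ 3 * (k * p ^ k * (2 * M) ^ (2 * p)) :=
          Nat.mul_le_mul_right _ (by norm_num)
        _ ≤ _ := he3
    · intro x y
      rw [hC, decide_eq_true_iff]
    · omega
  · obtain ⟨E, _, _, C, hcard, hC⟩ := I_nonzero p k M hM1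
    refine TaskK1.K1_np_mono _ (I_np (g := g) (e₀ := e₀) (hcard.trans ?_) C dec hmgg _ ?_) ?_
    · calc p ^ k * (2 * M) ^ (2 * p) = 1 * (1 * p ^ k * (2 * M) ^ (2 * p)) := by ring
        _ ≤ 3 * (k * p ^ k * (2 * M) ^ (2 * p)) := by
            refine Nat.mul_le_mul (by norm_num) ?_
            refine Nat.mul_le_mul_right _ (Nat.mul_le_mul_right _ (by omega))
        _ ≤ _ := he3
    · intro x y
      rw [hC, decide_eq_true_iff]
    · omega
  · intro x y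
    have h1 := H_dp (k := k) hM1 (toInp dec (gad x y))
    rw [Bool.eq_iff_iff, Core.Fn_true, h1]
    simp
  · intro c hc
    by_contra hlt
    push Not at hlt
    have h1 : c + 3 ≤ w := by omega
    refine Core.core_lower p k k M M' w β c hw (by omega) (by nlinarith) (by omega)
      (le_refl _) hM enc dec hde hmg hN1 h1 ?_ hc
    omega

theorem choose_k (n : ℕ) (hn : 2 ^ U 2 ≤ n) : ∃ k, 2 ≤ k ∧ 2 ^ U k ≤ n ∧ n < 2 ^ U (k + 1) := by
  by_contra hcon
  push Not at hcon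
  have h : ∀ k, 2 ≤ k → 2 ^ U k ≤ n := by
    intro k hk
    induction k, hk using Nat.le_induction with
    | base => exact hn
    | succ k hk ih => exact hcon k hk ih
  have h1 := h (n + 2) (by omega)
  have h2 : n < 2 ^ U (n + 2) := by
    calc n < 2 ^ n := Nat.lt_two_pow_self
      _ ≤ 2 ^ U (n + 2) := Nat.pow_le_pow_right (by norm_num) (by unfold U; nlinarith)
  omega

theorem U_succ (k : ℕ) (hk : 2 ≤ k) : 2 ^ U (k + 1) ≤ (k ^ k) ^ 346 := by
  have hl2 := lam_ge hk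
  have hls := lam_succ k hk
  have h1 : U (k + 1) ≤ 173 * (k * lam k) := by
    unfold U
    obtain ⟨a, ha⟩ : ∃ a, k = a + 2 := ⟨k - 2, by omega⟩
    obtain ⟨b, hb⟩ : ∃ b, lam k = b + 2 := ⟨lam k - 2, by omega⟩
    have hls' : lam (k + 1) ≤ b + 3 := by omega
    rw [hb, ha]
    rw [ha] at hls'
    calc 36 * (a + 2 + 1) * lam (a + 2 + 1) + 36 * (a + 2 + 1) + 36 * lam (a + 2 + 1) + 149
        ≤ 36 * (a + 2 + 1) * (b + 3) + 36 * (a + 2 + 1) + 36 * (b + 3) + 149 := by gcongr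
      _ ≤ 173 * ((a + 2) * (b + 2)) := by nlinarith
  have h2 : 2 ^ (k * lam k) ≤ k ^ (2 * k) := by
    have e1 : k * lam k = k * (lam k - 1) + k := by
      obtain ⟨b, hb⟩ : ∃ b, lam k = b + 1 := ⟨lam k - 1, by omega⟩
      rw [hb]; simp; ring
    rw [e1, pow_add, two_mul, pow_add]
    refine Nat.mul_le_mul ?_ (Nat.pow_le_pow_left hk k)
    rw [mul_comm, pow_mul]
    exact Nat.pow_le_pow_left (two_pow_le hk) k
  calc 2 ^ U (k + 1) ≤ 2 ^ (173 * (k * lam k)) := Nat.pow_le_pow_right (by norm_num) h1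
    _ = (2 ^ (k * lam k)) ^ 173 := by rw [← pow_mul]; congr 1; ring
    _ ≤ (k ^ (2 * k)) ^ 173 := Nat.pow_le_pow_left h2 _
    _ = (k ^ k) ^ 346 := by rw [← pow_mul, ← pow_mul]; congr 1; ring

theorem U2 : U 2 = 437 := by
  have : lam 2 = 2 := by
    unfold lam
    have : Nat.log 2 2 = 1 := Nat.log_eq_of_pow_le_of_lt_pow (by norm_num) (by norm_num)
    omega
  unfold U
  rw [this]

theorem main : ∃ C : ℕ, ∀ n : ℕ, 2 ≤ n → ∃ F G₁ G₂ : Str n → Str n → Bool,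
    AM F (C * Nat.log 2 n ^ C) ∧
    NP G₁ (C * Nat.log 2 n ^ C) ∧ NP G₂ (C * Nat.log 2 n ^ C) ∧
    (∀ x y, F x y = (G₁ x y || !G₂ x y)) ∧
    ∀ c, (MA F c ∨ SBP F c) → n ≤ C * (c + 1) ^ C := by
  obtain ⟨C, hC1, hC2, hC3, hC4⟩ : ∃ C : ℕ, 110000 ≤ C ∧ 2 ^ 437 ≤ C ∧ 7 ^ 346 ≤ C ∧ 692 ≤ C :=
    ⟨110000 + 2 ^ 437 + 7 ^ 346 + 692, by omega, by omega, by omega, by omega⟩
  refine ⟨C, fun n hn => ?_⟩
  have hlog : 1 ≤ Nat.log 2 n := Nat.le_log_of_pow_le (by norm_num) (by simpa using hn)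
  rcases lt_or_ge n (2 ^ U 2) with hsmall | hlarge
  · rw [U2] at hsmall
    refine ⟨fun _ _ => true, fun _ _ => true, fun _ _ => true, ?_, ?_, ?_, ?_, ?_⟩
    · refine ⟨0, 0, 0, Nat.zero_le _, fun _ _ => Prot.out true, fun _ _ => le_refl _, ?_⟩
      intro x y
      exact ⟨fun _ _ => ⟨fun _ => true, rfl⟩, fun h => absurd h (by simp)⟩
    · exact ⟨fun _ _ => True, fun _ _ => True, fun x y => by simp⟩
    · exact ⟨fun _ _ => True, fun _ _ => True, fun x y => by simp⟩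
    · intro x y; rfl
    · intro c _
      calc n ≤ C := by omega
        _ = C * 1 := (mul_one C).symm
        _ ≤ C * (c + 1) ^ C := Nat.mul_le_mul_left _ (Nat.one_le_pow _ _ (by omega))
  · obtain ⟨k, hk, hkn, hnk⟩ := choose_k n hlarge
    obtain ⟨X, Y, _, _, _, _, F, G₁, G₂, hX, hY, hAM, hN1, hN2, hF, hS⟩ := core k hk
    have hn2 : 2 ^ (2 ^ U k) ≤ 2 ^ n := Nat.pow_le_pow_right (by norm_num) hkn
    obtain ⟨σ, hσ⟩ := TaskK1.K1_surj (X := X) n (hX.trans hn2)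
    obtain ⟨τ, hτ⟩ := TaskK1.K1_surj (X := Y) n (hY.trans hn2)
    have hkU : k ≤ U k := by unfold U; nlinarith
    have hklog : k ≤ Nat.log 2 n :=
      hkU.trans (Nat.le_log_of_pow_le (by norm_num) hkn)
    have hcost : 110000 * k ^ 6 ≤ C * Nat.log 2 n ^ C := by
      calc 110000 * k ^ 6 ≤ C * Nat.log 2 n ^ 6 :=
            Nat.mul_le_mul hC1 (Nat.pow_le_pow_left hklog 6)
        _ ≤ C * Nat.log 2 n ^ C :=
            Nat.mul_le_mul_left _ (Nat.pow_le_pow_right hlog (by omega))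
    refine ⟨fun x y => F (σ x) (τ y), fun x y => G₁ (σ x) (τ y), fun x y => G₂ (σ x) (τ y),
      ?_, ?_, ?_, ?_, ?_⟩
    · exact TaskK1.K1_am_mono _ (TaskK1.K1_am F σ τ _ hAM) hcost
    · exact TaskK1.K1_np_mono _ (TaskK1.K1_np G₁ σ τ _ hN1) hcost
    · exact TaskK1.K1_np_mono _ (TaskK1.K1_np G₂ σ τ _ hN2) hcost
    · intro x y; exact hF _ _
    · intro c hc
      have hsbp : SBP (fun x y => F (σ x) (τ y)) ((c + 2) ^ 2) := by
        rcases hc with h | h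
        · exact J_ma _ c h
        · exact TaskK1.K1_sbp_mono _ h (by nlinarith)
      have h1 := hS _ (TaskK1.K1_sbp F σ τ hσ hτ _ hsbp)
      have h2 : k ^ k ≤ 7 * (c + 1) ^ 2 := by
        refine h1.trans ?_
        have e1 : (c + 2) ^ 2 + 3 = c ^ 2 + 4 * c + 7 := by ring
        have e2 : 7 * (c + 1) ^ 2 = 7 * c ^ 2 + 14 * c + 7 := by ring
        rw [e1, e2]
        omega
      calc n ≤ 2 ^ U (k + 1) := hnk.le
        _ ≤ (k ^ k) ^ 346 := U_succ k hk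
        _ ≤ (7 * (c + 1) ^ 2) ^ 346 := Nat.pow_le_pow_left h2 _
        _ = 7 ^ 346 * (c + 1) ^ 692 := by rw [mul_pow, ← pow_mul]
        _ ≤ C * (c + 1) ^ C :=
            Nat.mul_le_mul hC3 (Nat.pow_le_pow_right (by omega) hC4)

end H657R2.MAAM.Final
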