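import Pool.Agent.H657R2.MAAM.Defs

set_option autoImplicit false

namespace H657R2.MAAM.TaskB

open Finset

set_option linter.unusedSectionVars false

variable {J : Type} [Fintype J] [DecidableEq J] {m : ℕ}

theorem sgn_abs (b : Bool) : |sgn b| = 1 := by cases b <;> simp [sgn]

theorem sgn_not (b : Bool) : sgn (!b) = - sgn b := by cases b <;> simp [sgn]

/-- constrained tuples -/
noncomputable def RT (X : Finset (J → Fin m)) (S : Finset J) (f : J → ℕ → ℕ) (n : ℕ) :
    Finset (Fin n → J → Fin m) :=
  fil (Fintype.piFinset fun _ => X)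
    (fun t => ∀ i i' : Fin n, i' < i → ∀ j ∈ S, f j i = i' → t i j = t i' j)

theorem RT_succ (D : ℕ) (I : Finset J) (X : Finset (J → Fin m)) (hX : Dense D I X)
    (S : Finset J) (hS : Disjoint S I) (f : J → ℕ → ℕ) (n : ℕ) :
    (RT X S f (n + 1)).card * D ^ (S.filter (fun j => f j n < n)).card ≤
      (RT X S f n).card * X.card := by
  classical
  set U := S.filter (fun j => f j n < n) with hU
  have hmaps : ∀ t ∈ RT X S f (n + 1), (fun i : Fin n => t i.castSucc) ∈ RT X S f n := by
    intro t ht
    rw [RT, mem_fil, Fintype.mem_piFinset] at ht ⊢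
    refine ⟨fun i => ht.1 _, fun i i' hii j hj hf => ?_⟩
    exact ht.2 i.castSucc i'.castSucc (by simpa using hii) j hj (by simpa using hf)
  rw [Finset.card_eq_sum_card_fiberwise hmaps, Finset.sum_mul,
    Finset.card_eq_sum_ones (RT X S f n), Finset.sum_mul]
  refine Finset.sum_le_sum fun b _ => ?_
  rw [one_mul]
  rcases ((RT X S f (n + 1)).filter
    (fun t => (fun i : Fin n => t i.castSucc) = b)).eq_empty_or_nonempty with he | ⟨t0, ht0⟩
  · rw [he]
    simp
  have hle : ((RT X S f (n + 1)).filter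
      (fun t => (fun i : Fin n => t i.castSucc) = b)).card ≤
      (fil X (fun x => ∀ j ∈ U, x j = t0 (Fin.last n) j)).card := by
    refine Finset.card_le_card_of_injOn (fun t => t (Fin.last n)) ?_ ?_
    · intro t ht
      simp only [Finset.coe_filter, Set.mem_ofPred_eq] at ht
      simp only [Finset.mem_coe]
      rw [Finset.mem_filter] at ht0
      obtain ⟨h1, h2⟩ := ht
      obtain ⟨h3, h4⟩ := ht0
      rw [RT, mem_fil, Fintype.mem_piFinset] at h1 h3
      rw [mem_fil]
      refine ⟨h1.1 _, fun j hj => ?_⟩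
      rw [hU, Finset.mem_filter] at hj
      have e1 := h1.2 (Fin.last n) (⟨f j n, hj.2⟩ : Fin n).castSucc
        (Fin.castSucc_lt_last _) j hj.1 (by simp)
      have e2 := h3.2 (Fin.last n) (⟨f j n, hj.2⟩ : Fin n).castSucc
        (Fin.castSucc_lt_last _) j hj.1 (by simp)
      rw [e1, e2]
      have e3 : t (⟨f j n, hj.2⟩ : Fin n).castSucc = t0 (⟨f j n, hj.2⟩ : Fin n).castSucc :=
        congrFun (h2.trans h4.symm) ⟨f j n, hj.2⟩
      rw [e3]
    · intro t ht t' ht' htt
      simp only [Finset.coe_filter, Set.mem_ofPred_eq] at ht ht'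
      funext i
      rcases Fin.eq_castSucc_or_eq_last i with ⟨i', rfl⟩ | rfl
      · exact congrFun (ht.2.trans ht'.2.symm) i'
      · exact htt
  have hUI : Disjoint U I := Disjoint.mono_left (Finset.filter_subset _ _) hS
  calc _ ≤ (fil X (fun x => ∀ j ∈ U, x j = t0 (Fin.last n) j)).card * D ^ U.card :=
        Nat.mul_le_mul_right _ hle
    _ ≤ X.card := hX U hUI _

theorem RT_bound (D : ℕ) (I : Finset J) (X : Finset (J → Fin m)) (hX : Dense D I X)
    (S : Finset J) (hS : Disjoint S I) (f : J → ℕ → ℕ) (n : ℕ) :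
    (RT X S f n).card * D ^ (∑ i ∈ range n, (S.filter (fun j => f j i < i)).card) ≤
      X.card ^ n := by
  induction n with
  | zero =>
    rw [Finset.range_zero, Finset.sum_empty, pow_zero, pow_zero, mul_one]
    exact Finset.card_le_one_of_subsingleton _
  | succ n ih =>
    rw [Finset.sum_range_succ, pow_add, pow_succ]
    calc (RT X S f (n + 1)).card * (D ^ (∑ i ∈ range n, (S.filter (fun j => f j i < i)).card) *
          D ^ (S.filter (fun j => f j n < n)).card)
        = ((RT X S f (n + 1)).card * D ^ (S.filter (fun j => f j n < n)).card) *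
          D ^ (∑ i ∈ range n, (S.filter (fun j => f j i < i)).card) := by ring
      _ ≤ ((RT X S f n).card * X.card) *
          D ^ (∑ i ∈ range n, (S.filter (fun j => f j i < i)).card) :=
          Nat.mul_le_mul_right _ (RT_succ D I X hX S hS f n)
      _ = ((RT X S f n).card * D ^ (∑ i ∈ range n, (S.filter (fun j => f j i < i)).card)) *
          X.card := by ring
      _ ≤ X.card ^ n * X.card := Nat.mul_le_mul_right _ ih

theorem sum_filter_swap (S : Finset J) (f : J → ℕ → ℕ) (n : ℕ) :
    ∑ i ∈ range n, (S.filter (fun j => f j i < i)).card =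
      ∑ j ∈ S, ((range n).filter (fun i => f j i < i)).card := by
  simp only [Finset.card_filter]
  exact Finset.sum_comm

theorem RT_good (D : ℕ) (hD : 1 ≤ D) (I : Finset J) (X : Finset (J → Fin m)) (hX : Dense D I X)
    (S : Finset J) (hS : Disjoint S I) (f : J → ℕ → ℕ) (n k : ℕ)
    (hf : ∀ j ∈ S, k ≤ ((range n).filter (fun i => f j i < i)).card) :
    (RT X S f n).card * D ^ (k * S.card) ≤ X.card ^ n := by
  refine le_trans (Nat.mul_le_mul_left _ (Nat.pow_le_pow_right hD ?_)) (RT_bound D I X hX S hS f n)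
  rw [sum_filter_swap]
  calc k * S.card = ∑ _j ∈ S, k := by rw [Finset.sum_const, smul_eq_mul, mul_comm]
    _ ≤ _ := Finset.sum_le_sum hf

/-- even tuples -/
noncomputable def EV (X : Finset (J → Fin m)) (S : Finset J) (q : ℕ) :
    Finset (Fin q → J → Fin m) :=
  fil (Fintype.piFinset fun _ => X)
    (fun t => ∀ j ∈ S, ∀ v : Fin m, Even (univ.filter (fun i => t i j = v)).card)

/-- extension of a family of functions -/
noncomputable def ext {S : Finset J} {q : ℕ} (G : {j // j ∈ S} → Fin q → Fin q) : J → ℕ → ℕ :=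
  fun j i => if h : j ∈ S ∧ i < q then ((G ⟨j, h.1⟩ ⟨i, h.2⟩ : Fin q) : ℕ) else i

/-- least index with the same value -/
noncomputable def lst {q : ℕ} (t : Fin q → J → Fin m) (j : J) (i : Fin q) : Fin q :=
  (univ.filter (fun i' => t i' j = t i j)).min' ⟨i, by simp⟩

theorem lst_spec {q : ℕ} (t : Fin q → J → Fin m) (j : J) (i : Fin q) :
    t (lst t j i) j = t i j := by
  have := Finset.min'_mem (univ.filter (fun i' => t i' j = t i j)) ⟨i, by simp⟩
  rw [Finset.mem_filter] at this
  exact this.2

theorem lst_le {q : ℕ} (t : Fin q → J → Fin m) (j : J) (i i' : Fin q) (h : t i' j = t i j) :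
    lst t j i ≤ i' :=
  Finset.min'_le _ _ (by simpa using h)

theorem lst_congr {q : ℕ} (t : Fin q → J → Fin m) (j : J) (i i' : Fin q) (h : t i' j = t i j) :
    lst t j i' = lst t j i := by
  apply le_antisymm
  · exact lst_le t j i' _ ((lst_spec t j i).trans h.symm)
  · exact lst_le t j i _ ((lst_spec t j i').trans h)

theorem half (k : ℕ) (t : Fin (2 * k) → J → Fin m) (j : J)
    (h : ∀ v : Fin m, Even (univ.filter (fun i => t i j = v)).card) :
    k ≤ (univ.filter (fun i => lst t j i < i)).card := by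
  classical
  -- a partner for every index
  have hp : ∀ i : Fin (2 * k), ∃ i', i' ≠ i ∧ t i' j = t i j := by
    intro i
    by_contra hc
    push Not at hc
    have h1 : univ.filter (fun i' => t i' j = t i j) = {i} := by
      ext i'
      rw [Finset.mem_filter, Finset.mem_singleton]
      constructor
      · rintro ⟨-, h2⟩
        by_contra h3
        exact hc i' h3 h2
      · rintro rfl
        exact ⟨Finset.mem_univ _, rfl⟩
    have h2 := h (t i j)
    rw [h1, Finset.card_singleton] at h2
    exact absurd h2 (by decide)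
  choose g hg1 hg2 using hp
  have h1 : (univ.filter (fun i => ¬ lst t j i < i)).card ≤
      (univ.filter (fun i => lst t j i < i)).card := by
    refine Finset.card_le_card_of_injOn g ?_ ?_
    · intro i hi
      simp only [Finset.coe_filter, Finset.mem_univ, true_and, Set.mem_ofPred_eq] at hi ⊢
      have h3 : lst t j i = i := le_antisymm (lst_le t j i i rfl) (not_lt.1 hi)
      have h4 : lst t j (g i) = i := (lst_congr t j i (g i) (hg2 i)).trans h3
      rw [h4]
      have h5 := lst_le t j (g i) (g i) rfl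
      rw [h4] at h5
      exact lt_of_le_of_ne h5 (hg1 i).symm
    · intro i hi i' hi' hii
      simp only [Finset.coe_filter, Finset.mem_univ, true_and, Set.mem_ofPred_eq] at hi hi'
      have h3 : lst t j i = i := le_antisymm (lst_le t j i i rfl) (not_lt.1 hi)
      have h3' : lst t j i' = i' := le_antisymm (lst_le t j i' i' rfl) (not_lt.1 hi')
      have h4 : lst t j (g i) = i := (lst_congr t j i (g i) (hg2 i)).trans h3
      have h4' : lst t j (g i') = i' := (lst_congr t j i' (g i') (hg2 i')).trans h3'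
      rw [← h4, ← h4', hii]
  have h2 := Finset.card_filter_add_card_filter_not (s := (univ : Finset (Fin (2 * k))))
    (fun i => lst t j i < i)
  rw [Finset.card_univ, Fintype.card_fin] at h2
  omega

/-- admissible families -/
noncomputable def GG (S : Finset J) (k : ℕ) :
    Finset ({j // j ∈ S} → Fin (2 * k) → Fin (2 * k)) :=
  fil univ (fun G => ∀ j ∈ S, k ≤ ((range (2 * k)).filter (fun i => ext G j i < i)).card)

theorem EV_subset (X : Finset (J → Fin m)) (S : Finset J) (k : ℕ) :
    EV X S (2 * k) ⊆ (GG S k).biUnion (fun G => RT X S (ext G) (2 * k)) := by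
  classical
  intro t ht
  rw [EV, mem_fil] at ht
  rw [Finset.mem_biUnion]
  refine ⟨fun j => lst t j, ?_, ?_⟩
  · rw [GG, mem_fil]
    refine ⟨Finset.mem_univ _, fun j hj => ?_⟩
    refine (half k t j (ht.2 j hj)).trans ?_
    refine Finset.card_le_card_of_injOn (fun i => (i : ℕ)) ?_ ?_
    · intro i hi
      simp only [Finset.coe_filter, Finset.mem_univ, true_and, Set.mem_ofPred_eq,
        Finset.mem_range] at hi ⊢
      refine ⟨i.2, ?_⟩
      rw [ext, dif_pos ⟨hj, i.2⟩]
      exact hi
    · intro i _ i' _ h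
      exact Fin.ext h
  · rw [RT, mem_fil]
    refine ⟨ht.1, fun i i' _ j hj hf => ?_⟩
    rw [ext, dif_pos ⟨hj, i.2⟩] at hf
    have h1 : lst t j i = i' := Fin.ext hf
    rw [← h1]
    exact (lst_spec t j i).symm

theorem EV_card (D : ℕ) (hD : 1 ≤ D) (I : Finset J) (X : Finset (J → Fin m)) (hX : Dense D I X)
    (S : Finset J) (hS : Disjoint S I) (k : ℕ) :
    D ^ (k * S.card) * (EV X S (2 * k)).card ≤
      (2 * k) ^ (2 * k * S.card) * X.card ^ (2 * k) := by
  classical
  have h1 := (Finset.card_le_card (EV_subset X S k)).trans Finset.card_biUnion_le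
  calc D ^ (k * S.card) * (EV X S (2 * k)).card
      ≤ D ^ (k * S.card) * ∑ G ∈ GG S k,
        (RT X S (ext G) (2 * k)).card := Nat.mul_le_mul_left _ h1
    _ = ∑ G ∈ GG S k,
        (RT X S (ext G) (2 * k)).card * D ^ (k * S.card) := by
        rw [Finset.mul_sum]
        exact Finset.sum_congr rfl fun _ _ => mul_comm _ _
    _ ≤ ∑ G ∈ GG S k,
        X.card ^ (2 * k) := by
        refine Finset.sum_le_sum fun G hG => ?_
        rw [GG, mem_fil] at hG
        exact RT_good D hD I X hX S hS (ext G) (2 * k) k hG.2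
    _ ≤ ∑ G : {j // j ∈ S} → Fin (2 * k) → Fin (2 * k), X.card ^ (2 * k) :=
        Finset.sum_le_sum_of_subset_of_nonneg (Finset.subset_univ _) fun _ _ _ => Nat.zero_le _
    _ = _ := by
        rw [Finset.sum_const, Finset.card_univ, smul_eq_mul, Fintype.card_fun, Fintype.card_fun,
          Fintype.card_fin, Fintype.card_coe, ← pow_mul]

/-- flipping one bit -/
def flip (j0 : J) (v0 : Fin m) (y : J → Fin m → Bool) : J → Fin m → Bool :=
  fun j v => if j = j0 ∧ v = v0 then !(y j v) else y j v

theorem flip_flip (j0 : J) (v0 : Fin m) (y : J → Fin m → Bool) :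
    flip j0 v0 (flip j0 v0 y) = y := by
  funext j v
  unfold flip
  split_ifs <;> simp

theorem term_zero (S : Finset J) (q : ℕ) (t : Fin q → J → Fin m) (j0 : J) (hj : j0 ∈ S)
    (v0 : Fin m) (h : ¬ Even (univ.filter (fun i => t i j0 = v0)).card) :
    ∑ y : J → Fin m → Bool, ∏ i, ∏ j ∈ S, sgn (y j (t i j)) = 0 := by
  classical
  have hflip : ∀ y : J → Fin m → Bool, ∏ i, ∏ j ∈ S, sgn (flip j0 v0 y j (t i j)) =
      - ∏ i, ∏ j ∈ S, sgn (y j (t i j)) := by
    intro y
    have h1 : ∀ i j, sgn (flip j0 v0 y j (t i j)) =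
        (if j = j0 then (if t i j0 = v0 then (-1 : ℝ) else 1) else 1) * sgn (y j (t i j)) := by
      intro i j
      unfold flip
      by_cases hj0 : j = j0
      · subst hj0
        by_cases hv : t i j = v0
        · simp [hv, sgn_not]
        · simp [hv]
      · simp [hj0]
    simp only [h1, Finset.prod_mul_distrib]
    rw [Finset.prod_congr rfl (g := fun i => if t i j0 = v0 then (-1 : ℝ) else 1)]
    · rw [Finset.prod_ite, Finset.prod_const_one, Finset.prod_const, mul_one,
        (Nat.not_even_iff_odd.1 h).neg_one_pow]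
      ring
    · intro i _
      rw [Finset.prod_ite_eq' S j0]
      simp [hj]
  have h2 : ∑ y : J → Fin m → Bool, ∏ i, ∏ j ∈ S, sgn (y j (t i j)) =
      ∑ y : J → Fin m → Bool, ∏ i, ∏ j ∈ S, sgn (flip j0 v0 y j (t i j)) := by
    symm
    exact Finset.sum_equiv ⟨flip j0 v0, flip j0 v0, flip_flip j0 v0, flip_flip j0 v0⟩
      (fun _ => by simp) (fun _ _ => rfl)
  simp only [hflip, Finset.sum_neg_distrib] at h2
  linarith

theorem term_le (S : Finset J) (q : ℕ) (t : Fin q → J → Fin m) :
    ∑ y : J → Fin m → Bool, ∏ i, ∏ j ∈ S, sgn (y j (t i j)) ≤ 2 ^ (m * Fintype.card J) := by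
  calc ∑ y : J → Fin m → Bool, ∏ i, ∏ j ∈ S, sgn (y j (t i j))
      ≤ ∑ _y : J → Fin m → Bool, (1 : ℝ) := by
        refine Finset.sum_le_sum fun y _ => ?_
        refine (le_abs_self _).trans ?_
        rw [Finset.abs_prod]
        refine le_of_eq (Finset.prod_eq_one fun i _ => ?_)
        rw [Finset.abs_prod]
        exact Finset.prod_eq_one fun j _ => sgn_abs _
    _ = _ := by
        rw [Finset.sum_const, Finset.card_univ, Fintype.card_fun, Fintype.card_fun,
          Fintype.card_bool, Fintype.card_fin, nsmul_eq_mul, mul_one, ← pow_mul]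
        push_cast
        ring

theorem sum_le_EV (X : Finset (J → Fin m)) (S : Finset J) (q : ℕ) :
    ∑ y : J → Fin m → Bool, (∑ x ∈ X, ∏ j ∈ S, sgn (y j (x j))) ^ q ≤
      (EV X S q).card * 2 ^ (m * Fintype.card J) := by
  classical
  have h1 : ∀ y : J → Fin m → Bool, (∑ x ∈ X, ∏ j ∈ S, sgn (y j (x j))) ^ q =
      ∑ t ∈ Fintype.piFinset (fun _ : Fin q => X), ∏ i, ∏ j ∈ S, sgn (y j (t i j)) := by
    intro y
    rw [← Finset.prod_univ_sum (fun _ : Fin q => X) (fun _ x => ∏ j ∈ S, sgn (y j (x j))),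
      Finset.prod_const, Finset.card_univ, Fintype.card_fin]
  simp only [h1]
  rw [Finset.sum_comm]
  have h2 : (EV X S q) ⊆ Fintype.piFinset (fun _ : Fin q => X) := by
    intro t ht
    rw [EV, mem_fil] at ht
    exact ht.1
  rw [← Finset.sum_subset h2]
  · calc _ ≤ ∑ _t ∈ EV X S q, (2 : ℝ) ^ (m * Fintype.card J) :=
          Finset.sum_le_sum fun t _ => term_le S q t
      _ = _ := by rw [Finset.sum_const, nsmul_eq_mul]
  · intro t ht hn
    have h3 : ¬ ∀ j ∈ S, ∀ v : Fin m, Even (univ.filter (fun i => t i j = v)).card := by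
      intro h
      apply hn
      rw [EV, mem_fil]
      exact ⟨ht, h⟩
    push Not at h3
    obtain ⟨j0, hj0, v0, hv0⟩ := h3
    exact term_zero S q t j0 hj0 v0 hv0

theorem B_moment (D k : ℕ) (I : Finset J) (X : Finset (J → Fin m)) (hX : Dense D I X)
    (S : Finset J) (hS : Disjoint S I) :
    (D : ℝ) ^ (k * S.card) *
        ∑ y : J → Fin m → Bool, (∑ x ∈ X, ∏ j ∈ S, sgn (y j (x j))) ^ (2 * k) ≤
      ((2 * k : ℕ) : ℝ) ^ (2 * k * S.card) * (X.card : ℝ) ^ (2 * k) *
        2 ^ (m * Fintype.card J) := by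
  classical
  have hX' : Dense (max D 1) I X := by
    rcases Nat.eq_zero_or_pos D with rfl | hD
    · intro T _ s
      rw [show max 0 1 = 1 from rfl, one_pow, mul_one]
      refine Finset.card_le_card fun x hx => ?_
      rw [mem_fil] at hx
      exact hx.1
    · rw [max_eq_left hD]
      exact hX
  have h1 := EV_card (max D 1) (le_max_right _ _) I X hX' S hS k
  have h2 : D ^ (k * S.card) ≤ (max D 1) ^ (k * S.card) :=
    Nat.pow_le_pow_left (le_max_left _ _) _
  have h3 : ((D ^ (k * S.card) * (EV X S (2 * k)).card : ℕ) : ℝ) ≤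
      (((2 * k) ^ (2 * k * S.card) * X.card ^ (2 * k) : ℕ) : ℝ) :=
    Nat.cast_le.2 ((Nat.mul_le_mul_right _ h2).trans h1)
  rw [Nat.cast_mul, Nat.cast_mul, Nat.cast_pow, Nat.cast_pow, Nat.cast_pow] at h3
  calc _ ≤ (D : ℝ) ^ (k * S.card) * ((EV X S (2 * k)).card * 2 ^ (m * Fintype.card J)) :=
        mul_le_mul_of_nonneg_left (sum_le_EV X S (2 * k)) (by positivity)
    _ = ((D : ℝ) ^ (k * S.card) * (EV X S (2 * k)).card) * 2 ^ (m * Fintype.card J) := by ring
    _ ≤ _ := mul_le_mul_of_nonneg_right h3 (by positivity)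

end H657R2.MAAM.TaskB
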