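import Pool.Agent.H657R2.MAAM.Defs

/-!
Task C: the piece estimate.
-/

namespace H657R2.MAAM.TaskC

open Finset

variable {J : Type} [Fintype J] [DecidableEq J] {m : ℕ}

/-- `1 + product of two signs` is twice the indicator of equality. -/
theorem one_add_sgn (a b : Bool) : 1 + sgn a * sgn b = if b = a then (2 : ℝ) else 0 := by
  cases a <;> cases b <;> simp [sgn] <;> norm_num

theorem abs_sgn (a : Bool) : |sgn a| = 1 := by
  cases a <;> simp [sgn]

/-- Expansion of the indicator. -/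
theorem expand (W : Finset J) (x : J → Fin m) (y : J → Fin m → Bool) (z : J → Bool) :
    (2 : ℝ) ^ W.card * (if ∀ j ∈ W, y j (x j) = z j then 1 else 0) =
      ∑ S ∈ W.powerset, (∏ j ∈ S, sgn (z j)) * ∏ j ∈ S, sgn (y j (x j)) := by
  have h1 : (2 : ℝ) ^ W.card * (if ∀ j ∈ W, y j (x j) = z j then 1 else 0) =
      ∏ j ∈ W, (1 + sgn (z j) * sgn (y j (x j))) := by
    split_ifs with h
    · rw [mul_one, ← Finset.prod_const]
      refine Finset.prod_congr rfl fun j hj => ?_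
      rw [one_add_sgn, if_pos (h j hj)]
    · rw [mul_zero]
      push Not at h
      obtain ⟨j, hj, hne⟩ := h
      refine (Finset.prod_eq_zero hj ?_).symm
      rw [one_add_sgn, if_neg hne]
  rw [h1, Finset.prod_one_add]
  refine Finset.sum_congr rfl fun S _ => ?_
  rw [Finset.prod_mul_distrib]

/-- The character sum. -/
noncomputable def aS (X : Finset (J → Fin m)) (S : Finset J) (y : J → Fin m → Bool) : ℝ :=
  ∑ x ∈ X, ∏ j ∈ S, sgn (y j (x j))

theorem main_identity (I : Finset J) (X : Finset (J → Fin m))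
    (Y : Finset (J → Fin m → Bool)) (z : J → Bool) :
    (2 : ℝ) ^ (Fintype.card J - I.card) *
        ∑ x ∈ X, ((fil Y (fun y => ∀ j, j ∉ I → y j (x j) = z j)).card : ℝ) =
      ∑ S ∈ (univ \ I).powerset, (∏ j ∈ S, sgn (z j)) * ∑ y ∈ Y, aS X S y := by
  classical
  have hc : Fintype.card J - I.card = (univ \ I : Finset J).card := by
    rw [Finset.card_sdiff_of_subset (Finset.subset_univ I), Finset.card_univ]
  have h2 : ∀ x : J → Fin m,
      (2 : ℝ) ^ (Fintype.card J - I.card) *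
        ((fil Y (fun y => ∀ j, j ∉ I → y j (x j) = z j)).card : ℝ) =
      ∑ y ∈ Y, ∑ S ∈ (univ \ I).powerset,
        (∏ j ∈ S, sgn (z j)) * ∏ j ∈ S, sgn (y j (x j)) := by
    intro x
    have h3 : ((fil Y (fun y => ∀ j, j ∉ I → y j (x j) = z j)).card : ℝ) =
        ∑ y ∈ Y, (if ∀ j ∈ (univ \ I : Finset J), y j (x j) = z j then (1 : ℝ) else 0) := by
      rw [Finset.sum_ite, Finset.sum_const_zero, add_zero, Finset.sum_const, nsmul_eq_mul,
        mul_one]
      congr 2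
      ext y
      simp [fil]
    rw [h3, Finset.mul_sum, hc]
    exact Finset.sum_congr rfl fun y _ => expand _ x y z
  rw [Finset.mul_sum, Finset.sum_congr rfl fun x _ => h2 x]
  have h4 : ∀ x ∈ X, ∑ y ∈ Y, ∑ S ∈ (univ \ I).powerset,
        (∏ j ∈ S, sgn (z j)) * ∏ j ∈ S, sgn (y j (x j)) =
      ∑ S ∈ (univ \ I).powerset, ∑ y ∈ Y,
        (∏ j ∈ S, sgn (z j)) * ∏ j ∈ S, sgn (y j (x j)) := fun x _ => Finset.sum_comm
  rw [Finset.sum_congr rfl h4, Finset.sum_comm]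
  refine Finset.sum_congr rfl fun S _ => ?_
  rw [Finset.sum_comm, Finset.mul_sum]
  refine Finset.sum_congr rfl fun y _ => ?_
  rw [aS, Finset.mul_sum]

/-- Statement of the moment bound (task B). -/
def Moment (J : Type) [Fintype J] [DecidableEq J] (m : ℕ) : Prop :=
  ∀ (D k : ℕ) (I : Finset J) (X : Finset (J → Fin m)) (_ : Dense D I X)
    (S : Finset J) (_ : Disjoint S I),
    (D : ℝ) ^ (k * S.card) *
        ∑ y : J → Fin m → Bool, (∑ x ∈ X, ∏ j ∈ S, sgn (y j (x j))) ^ (2 * k) ≤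
      ((2 * k : ℕ) : ℝ) ^ (2 * k * S.card) * (X.card : ℝ) ^ (2 * k) *
        2 ^ (m * Fintype.card J)

theorem bias (hB : Moment J m) (hJ : 1 ≤ Fintype.card J)
    (I : Finset J) (X : Finset (J → Fin m))
    (hX : Dense ((4 * Fintype.card J * (64 * Fintype.card J)) ^ 2) I X)
    (Y : Finset (J → Fin m → Bool))
    (hY : 2 ^ (m * Fintype.card J) ≤ Y.card * 2 ^ (4 * Fintype.card J))
    (S : Finset J) (hS : Disjoint S I) :
    (64 * (Fintype.card J : ℝ)) ^ S.card * ∑ y ∈ Y, |aS X S y| ≤ 2 * ((X.card : ℝ) * Y.card) := by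
  classical
  set N := Fintype.card J with hN
  set T : ℝ := 64 * (N : ℝ) with hT
  have hNpos : (0 : ℝ) < N := by exact_mod_cast hJ
  have hTpos : 0 < T := by positivity
  have hb := hB ((4 * N * (64 * N)) ^ 2) (2 * N) I X hX S hS
  -- simplify the moment bound
  have e1 : (((4 * N * (64 * N)) ^ 2 : ℕ) : ℝ) ^ (2 * N * S.card) =
      ((2 * (2 * N) : ℕ) : ℝ) ^ (2 * (2 * N) * S.card) * T ^ (2 * (2 * N) * S.card) := by
    rw [← mul_pow]
    have : (((4 * N * (64 * N)) ^ 2 : ℕ) : ℝ) = (((2 * (2 * N) : ℕ) : ℝ) * T) ^ 2 := by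
      rw [hT]; push_cast; ring
    rw [this, ← pow_mul]
    congr 1
    ring
  rw [e1] at hb
  have hpos : (0 : ℝ) < ((2 * (2 * N) : ℕ) : ℝ) ^ (2 * (2 * N) * S.card) := by
    apply pow_pos
    push_cast
    positivity
  have hb' : ((2 * (2 * N) : ℕ) : ℝ) ^ (2 * (2 * N) * S.card) *
      (T ^ (2 * (2 * N) * S.card) *
        ∑ y : J → Fin m → Bool, (∑ x ∈ X, ∏ j ∈ S, sgn (y j (x j))) ^ (2 * (2 * N))) ≤
      ((2 * (2 * N) : ℕ) : ℝ) ^ (2 * (2 * N) * S.card) *
        ((X.card : ℝ) ^ (2 * (2 * N)) * 2 ^ (m * N)) := by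
    have h1 := mul_assoc (((2 * (2 * N) : ℕ) : ℝ) ^ (2 * (2 * N) * S.card))
      (T ^ (2 * (2 * N) * S.card))
      (∑ y : J → Fin m → Bool, (∑ x ∈ X, ∏ j ∈ S, sgn (y j (x j))) ^ (2 * (2 * N)))
    have h2 := mul_assoc (((2 * (2 * N) : ℕ) : ℝ) ^ (2 * (2 * N) * S.card))
      ((X.card : ℝ) ^ (2 * (2 * N))) ((2 : ℝ) ^ (m * N))
    rw [← h1, ← h2]
    exact hb
  have hb2 := le_of_mul_le_mul_left hb' hpos
  -- restrict to `Y`
  have hsub : ∑ y ∈ Y, |aS X S y| ^ (2 * (2 * N)) ≤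
      ∑ y : J → Fin m → Bool, (∑ x ∈ X, ∏ j ∈ S, sgn (y j (x j))) ^ (2 * (2 * N)) := by
    calc ∑ y ∈ Y, |aS X S y| ^ (2 * (2 * N))
        ≤ ∑ y : J → Fin m → Bool, |aS X S y| ^ (2 * (2 * N)) :=
          Finset.sum_le_sum_of_subset_of_nonneg (Finset.subset_univ _)
            (fun y _ _ => by positivity)
      _ = _ := by
          refine Finset.sum_congr rfl fun y _ => ?_
          rw [aS]
          exact (even_two_mul _).pow_abs _
  have hYr : (2 : ℝ) ^ (m * N) ≤ Y.card * 2 ^ (2 * (2 * N)) := by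
    have : ((2 ^ (m * N) : ℕ) : ℝ) ≤ ((Y.card * 2 ^ (4 * N) : ℕ) : ℝ) := by exact_mod_cast hY
    push_cast at this
    have e : 4 * N = 2 * (2 * N) := by ring
    rwa [e] at this
  have hpm : (∑ y ∈ Y, |aS X S y|) ^ (2 * (2 * N)) ≤
      (Y.card : ℝ) ^ (2 * (2 * N) - 1) * ∑ y ∈ Y, |aS X S y| ^ (2 * (2 * N)) := by
    have h5 := pow_sum_le_card_mul_sum_pow (s := Y) (f := fun y => |aS X S y|)
      (fun y _ => abs_nonneg _) (2 * (2 * N) - 1)
    have hk : 2 * (2 * N) - 1 + 1 = 2 * (2 * N) := by omega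
    rw [hk] at h5
    exact h5
  have key : (T ^ S.card * ∑ y ∈ Y, |aS X S y|) ^ (2 * (2 * N)) ≤
      (2 * ((X.card : ℝ) * Y.card)) ^ (2 * (2 * N)) := by
    rw [mul_pow, ← pow_mul]
    calc T ^ (S.card * (2 * (2 * N))) * (∑ y ∈ Y, |aS X S y|) ^ (2 * (2 * N))
        ≤ T ^ (S.card * (2 * (2 * N))) * ((Y.card : ℝ) ^ (2 * (2 * N) - 1) *
            ∑ y ∈ Y, |aS X S y| ^ (2 * (2 * N))) := by
          apply mul_le_mul_of_nonneg_left hpm (by positivity)
      _ = (Y.card : ℝ) ^ (2 * (2 * N) - 1) * (T ^ (2 * (2 * N) * S.card) *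
            ∑ y ∈ Y, |aS X S y| ^ (2 * (2 * N))) := by
          rw [mul_comm S.card]; ring
      _ ≤ (Y.card : ℝ) ^ (2 * (2 * N) - 1) * ((X.card : ℝ) ^ (2 * (2 * N)) *
            (Y.card * 2 ^ (2 * (2 * N)))) := by
          apply mul_le_mul_of_nonneg_left _ (by positivity)
          calc T ^ (2 * (2 * N) * S.card) * ∑ y ∈ Y, |aS X S y| ^ (2 * (2 * N))
              ≤ T ^ (2 * (2 * N) * S.card) *
                ∑ y : J → Fin m → Bool, (∑ x ∈ X, ∏ j ∈ S, sgn (y j (x j))) ^ (2 * (2 * N)) :=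
                mul_le_mul_of_nonneg_left hsub (by positivity)
            _ ≤ (X.card : ℝ) ^ (2 * (2 * N)) * 2 ^ (m * N) := hb2
            _ ≤ _ := mul_le_mul_of_nonneg_left hYr (by positivity)
      _ = (2 * ((X.card : ℝ) * Y.card)) ^ (2 * (2 * N)) := by
          have hk : 2 * (2 * N) = (2 * (2 * N) - 1) + 1 := by omega
          have : (Y.card : ℝ) ^ (2 * (2 * N)) = (Y.card : ℝ) ^ (2 * (2 * N) - 1) * Y.card := by
            conv_lhs => rw [hk]
            rw [pow_succ]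
          rw [mul_pow, mul_pow, this]
          ring
  exact (pow_le_pow_iff_left₀ (by positivity) (by positivity) (by omega)).1 key

theorem pow_bound (N w : ℕ) (hN : 1 ≤ N) (hw : w ≤ N) :
    (1 + (64 * (N : ℝ))⁻¹) ^ w ≤ 1 + 1 / 32 := by
  have hNpos : (0 : ℝ) < N := by exact_mod_cast hN
  have hu : 0 < (64 * (N : ℝ))⁻¹ := by positivity
  calc (1 + (64 * (N : ℝ))⁻¹) ^ w ≤ (1 + (64 * (N : ℝ))⁻¹) ^ N :=
        pow_le_pow_right₀ (by linarith) hw
    _ ≤ (Real.exp ((64 * (N : ℝ))⁻¹)) ^ N := by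
        apply pow_le_pow_left₀ (by linarith)
        linarith [Real.add_one_le_exp ((64 * (N : ℝ))⁻¹)]
    _ = Real.exp (1 / 64) := by
        rw [← Real.exp_nat_mul]
        congr 1
        field_simp
    _ ≤ 1 + 1 / 32 := by
        have h1 := Real.add_one_le_exp (-(1 / 64 : ℝ))
        have h2 : Real.exp (1 / 64) * Real.exp (-(1 / 64)) = 1 := by
          rw [← Real.exp_add]; simp
        have h3 : 0 < Real.exp (1 / 64) := Real.exp_pos _
        nlinarith

theorem C_piece' (hB : Moment J m) (hJ : 1 ≤ Fintype.card J)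
    (I : Finset J) (X : Finset (J → Fin m))
    (hX : Dense ((4 * Fintype.card J * (64 * Fintype.card J)) ^ 2) I X)
    (Y : Finset (J → Fin m → Bool))
    (hY : 2 ^ (m * Fintype.card J) ≤ Y.card * 2 ^ (4 * Fintype.card J)) (z : J → Bool) :
    |(2 : ℝ) ^ (Fintype.card J - I.card) *
        ∑ x ∈ X, ((fil Y (fun y => ∀ j, j ∉ I → y j (x j) = z j)).card : ℝ) -
      (X.card : ℝ) * Y.card| ≤ 1 / 16 * ((X.card : ℝ) * Y.card) := by
  classical
  set N := Fintype.card J with hN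
  have hNpos : (0 : ℝ) < N := by exact_mod_cast hJ
  rw [main_identity]
  set W : Finset J := univ \ I with hW
  have hempty : (∅ : Finset J) ∈ W.powerset := Finset.empty_mem_powerset W
  rw [← Finset.add_sum_erase _ _ hempty]
  have h0 : (∏ j ∈ (∅ : Finset J), sgn (z j)) * ∑ y ∈ Y, aS X ∅ y = (X.card : ℝ) * Y.card := by
    simp [aS, mul_comm]
  rw [h0, add_sub_cancel_left]
  have hsum : ∑ S ∈ W.powerset, ((64 * (N : ℝ))⁻¹) ^ S.card = (1 + (64 * (N : ℝ))⁻¹) ^ W.card := by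
    have := Finset.prod_one_add (f := fun _ : J => (64 * (N : ℝ))⁻¹) W
    simpa [Finset.prod_const] using this.symm
  have hsum' : ∑ S ∈ W.powerset.erase ∅, ((64 * (N : ℝ))⁻¹) ^ S.card =
      (1 + (64 * (N : ℝ))⁻¹) ^ W.card - 1 := by
    rw [← hsum, ← Finset.add_sum_erase _ _ hempty]
    simp
  have hterm : ∀ S ∈ W.powerset.erase ∅, |(∏ j ∈ S, sgn (z j)) * ∑ y ∈ Y, aS X S y| ≤
      2 * ((X.card : ℝ) * Y.card) * ((64 * (N : ℝ))⁻¹) ^ S.card := by
    intro S hS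
    have hSW : S ⊆ W := Finset.mem_powerset.1 (Finset.mem_of_mem_erase hS)
    have hdisj : Disjoint S I := by
      rw [Finset.disjoint_left]
      intro j hj
      exact (Finset.mem_sdiff.1 (hSW hj)).2
    have hb := bias hB hJ I X hX Y hY S hdisj
    have h1 : |(∏ j ∈ S, sgn (z j))| = 1 := by
      rw [Finset.abs_prod]
      exact Finset.prod_eq_one fun j _ => abs_sgn _
    rw [abs_mul, h1, one_mul]
    have h2 : |∑ y ∈ Y, aS X S y| ≤ ∑ y ∈ Y, |aS X S y| := Finset.abs_sum_le_sum_abs _ _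
    refine h2.trans ?_
    rw [inv_pow, ← div_eq_mul_inv, le_div_iff₀ (by positivity), mul_comm]
    exact hb
  calc |∑ S ∈ W.powerset.erase ∅, (∏ j ∈ S, sgn (z j)) * ∑ y ∈ Y, aS X S y|
      ≤ ∑ S ∈ W.powerset.erase ∅, |(∏ j ∈ S, sgn (z j)) * ∑ y ∈ Y, aS X S y| :=
        Finset.abs_sum_le_sum_abs _ _
    _ ≤ ∑ S ∈ W.powerset.erase ∅, 2 * ((X.card : ℝ) * Y.card) * ((64 * (N : ℝ))⁻¹) ^ S.card :=
        Finset.sum_le_sum hterm
    _ = 2 * ((X.card : ℝ) * Y.card) * ((1 + (64 * (N : ℝ))⁻¹) ^ W.card - 1) := by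
        rw [← Finset.mul_sum, hsum']
    _ ≤ 2 * ((X.card : ℝ) * Y.card) * (1 / 32) := by
        apply mul_le_mul_of_nonneg_left _ (by positivity)
        have := pow_bound N W.card hJ (by rw [hN]; exact Finset.card_le_univ W)
        linarith
    _ = 1 / 16 * ((X.card : ℝ) * Y.card) := by ring

end H657R2.MAAM.TaskC
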