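import Pool.Agent.H657R2.MAAM.Defs

/-! # Task E: three distributions on rows -/

namespace H657R2.MAAM.TaskE

open Finset H657R2.MAAM

section PF

variable {O O' Z : Type} [Fintype O] [Fintype O']

/-- Push-forward of the uniform distribution. -/
noncomputable def pf (Φ : O → Z) (z : Z) : ℝ := (count (fun o => Φ o = z) : ℝ) / Fintype.card O

theorem pf_nonneg (Φ : O → Z) (z : Z) : 0 ≤ pf Φ z := by
  unfold pf; positivity

theorem pf_sum [Fintype Z] (Φ : O → Z) (P : Z → Prop) :
    ∑ z ∈ fil univ P, pf Φ z = (count (fun o => P (Φ o)) : ℝ) / Fintype.card O := by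
  unfold pf
  rw [← Finset.sum_div]
  congr 1
  rw [← Nat.cast_sum]
  congr 1
  classical
  unfold count
  symm
  rw [Finset.card_eq_sum_card_fiberwise (f := Φ) (t := fil univ P)]
  · apply Finset.sum_congr rfl
    intro z hz
    congr 1
    ext o
    simp only [mem_fil, mem_univ, true_and, mem_filter] at hz ⊢
    constructor
    · exact fun h => h.2
    · exact fun h => ⟨h ▸ hz, h⟩
  · intro o ho
    simpa using ho

theorem count_true : count (fun _ : O => True) = Fintype.card O := by
  unfold count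
  rw [Fintype.card]
  congr 1
  ext o
  simp

theorem pf_total [Fintype Z] [Nonempty O] (Φ : O → Z) : ∑ z, pf Φ z = 1 := by
  have h := pf_sum Φ (fun _ => True)
  have h2 : fil (univ : Finset Z) (fun _ => True) = univ := by ext; simp
  rw [h2, count_true] at h
  rw [h]
  apply div_self
  have : Fintype.card O ≠ 0 := Fintype.card_ne_zero
  exact_mod_cast this

theorem exists_of_pf_ne_zero (Φ : O → Z) (z : Z) (h : pf Φ z ≠ 0) : ∃ o, Φ o = z := by
  by_contra hne
  push Not at hne
  apply h
  unfold pf count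
  have : fil (univ : Finset O) (fun o => Φ o = z) = ∅ := by
    ext o
    simp [hne o]
  rw [this]
  simp

theorem count_eq_sum (P : O → Prop) [DecidablePred P] : count P = ∑ o, if P o then 1 else 0 := by
  classical
  unfold count fil
  rw [Finset.card_filter]
  apply Finset.sum_congr rfl
  intro o _
  by_cases h : P o <;> simp [h]

theorem count_prod (A : O → Prop) (B : O → O' → Prop) (R : ℕ)
    (h : ∀ o, A o → count (B o) = R) :
    count (fun x : O × O' => A x.1 ∧ B x.1 x.2) = count A * R := by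
  classical
  rw [count_eq_sum, Fintype.sum_prod_type, count_eq_sum A, Finset.sum_mul]
  apply Finset.sum_congr rfl
  intro o _
  by_cases ha : A o
  · rw [← h o ha, count_eq_sum]
    simp [ha]
  · simp [ha]

theorem count_prod_free (A : O → Prop) :
    count (fun x : O × O' => A x.1) = count A * Fintype.card O' := by
  have h := count_prod (O := O) (O' := O') A (fun _ _ => True) (Fintype.card O')
    (fun _ _ => count_true)
  simpa using h

theorem count_le_of_inj (P : O → Prop) (P' : O' → Prop) (f : O → O')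
    (h : ∀ o, P o → P' (f o)) (hinj : ∀ o o', P o → P o' → f o = f o' → o = o') :
    count P ≤ count P' := by
  unfold count
  apply Finset.card_le_card_of_injOn f
  · intro o ho
    simp only [mem_coe, mem_fil, mem_univ, true_and] at ho ⊢
    exact h o ho
  · intro o ho o' ho' hoo
    simp only [mem_coe, mem_fil, mem_univ, true_and] at ho ho'
    exact hinj o o' ho ho' hoo

theorem count_congr (P P' : O → Prop) (h : ∀ o, P o ↔ P' o) : count P = count P' := by
  have : P = P' := by
    funext o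
    exact propext (h o)
  rw [this]

end PF

section Counts

variable {A L L' : Type} [Fintype A] [DecidableEq A] [Fintype L] [DecidableEq L] [Fintype L']
  [DecidableEq L']

theorem c1 (ℓ : A → L) (Q : Finset A) :
    count (fun g : A → L => ∀ b ∈ Q, g b = ℓ b) * Fintype.card L ^ Q.card ≤
      Fintype.card (A → L) := by
  induction Q using Finset.induction_on with
  | empty =>
    have : count (fun g : A → L => ∀ b ∈ (∅ : Finset A), g b = ℓ b) = count (fun _ : A → L => True) :=
      count_congr _ _ (by simp)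
    rw [this, count_true]
    simp
  | insert b₀ Q hb ih =>
    refine le_trans ?_ ih
    rw [Finset.card_insert_of_notMem hb, pow_succ, mul_comm (_ ^ _) (Fintype.card L), ← mul_assoc]
    apply Nat.mul_le_mul_right
    rw [← count_prod_free (O' := L)]
    apply count_le_of_inj _ _ (fun x => Function.update x.1 b₀ x.2)
    · rintro ⟨g, c⟩ hg b hbQ
      have hne : b ≠ b₀ := by rintro rfl; exact hb hbQ
      simp only [Function.update_of_ne hne]
      exact hg b (Finset.mem_insert_of_mem hbQ)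
    · rintro ⟨g, c⟩ ⟨g', c'⟩ hg hg' h
      simp only at hg hg' h
      have e0 := congrFun h b₀
      simp only [Function.update_self] at e0
      subst e0
      have : g = g' := by
        funext b
        by_cases hbb : b = b₀
        · subst hbb
          rw [hg b (Finset.mem_insert_self _ _), hg' b (Finset.mem_insert_self _ _)]
        · have := congrFun h b
          simpa [Function.update_of_ne hbb] using this
      rw [this]

theorem c3 (ℓ : A → L) (Q : Finset A) (hQ : Set.InjOn ℓ (Q : Set A)) :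
    Fintype.card (A ≃ L × Bool) ≤
      count (fun σ : A ≃ L × Bool => ∀ b ∈ Q, (σ b).1 = ℓ b) * Fintype.card L ^ Q.card := by
  induction Q using Finset.induction_on with
  | empty =>
    have : count (fun σ : A ≃ L × Bool => ∀ b ∈ (∅ : Finset A), (σ b).1 = ℓ b) =
      count (fun _ : A ≃ L × Bool => True) := count_congr _ _ (by simp)
    rw [this, count_true]
    simp
  | insert b₀ Q hb ih =>
    refine le_trans (ih (hQ.mono (by simp))) ?_
    rw [Finset.card_insert_of_notMem hb, pow_succ, mul_comm (_ ^ _) (Fintype.card L), ← mul_assoc]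
    apply Nat.mul_le_mul_right
    rw [← count_prod_free (O' := L)]
    apply count_le_of_inj _ _ (fun σ => (σ.trans (Equiv.swap (σ b₀) (ℓ b₀, (σ b₀).2)), (σ b₀).1))
    · intro σ hσ b hbQ
      simp only [Equiv.trans_apply]
      rcases Finset.mem_insert.1 hbQ with hbb | hbQ'
      · rw [hbb, Equiv.swap_apply_left]
      · have hne : b ≠ b₀ := fun h => hb (h ▸ hbQ')
        have h1 : σ b ≠ σ b₀ := fun h => hne (σ.injective h)
        have h2 : σ b ≠ (ℓ b₀, (σ b₀).2) := by
          intro h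
          have h3 : (σ b).1 = ℓ b₀ := by rw [h]
          rw [hσ b hbQ'] at h3
          exact hne (hQ (by simp [hbQ']) (by simp) h3)
        rw [Equiv.swap_apply_of_ne_of_ne h1 h2]
        exact hσ b hbQ'
    · intro σ σ' hσ hσ' h
      simp only [Prod.mk.injEq] at h
      obtain ⟨h1, h2⟩ := h
      have e0 := congrArg (fun τ : A ≃ L × Bool => τ b₀) h1
      simp only [Equiv.trans_apply, Equiv.swap_apply_left, Prod.mk.injEq, true_and] at e0
      have e1 : σ b₀ = σ' b₀ := Prod.ext h2 e0
      rw [e1] at h1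
      ext1 b
      have e2 := congrArg (fun τ : A ≃ L × Bool => τ b) h1
      simp only [Equiv.trans_apply] at e2
      exact (Equiv.swap _ _).injective e2

/-- Configurations for `c2`. -/
def C2 (ℓ : A → L) (Q : Finset A) (x : (A → L') × (L' → L)) : Prop := ∀ b ∈ Q, x.2 (x.1 b) = ℓ b

theorem c2_old (ℓ : A → L) (Q : Finset A) (b₀ : A) (hb : b₀ ∉ Q) (b₁ : A) (hb1 : b₁ ∈ Q)
    (hℓ : ℓ b₁ = ℓ b₀) :
    count (C2 (L' := L') ℓ Q) ≤ count (C2 (L' := L') ℓ (insert b₀ Q)) * Fintype.card L' := by
  rw [← count_prod_free (O' := L')]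
  apply count_le_of_inj _ _ (fun x => ((Function.update x.1 b₀ (x.1 b₁), x.2), x.1 b₀))
  · rintro ⟨h, π⟩ hx b hbQ
    simp only
    rcases Finset.mem_insert.1 hbQ with hbb | hbQ'
    · rw [hbb, Function.update_self]
      rw [← hℓ]
      exact hx b₁ hb1
    · have hne : b ≠ b₀ := fun h => hb (h ▸ hbQ')
      rw [Function.update_of_ne hne]
      exact hx b hbQ'
  · rintro ⟨h, π⟩ ⟨h', π'⟩ _ _ he
    simp only [Prod.mk.injEq] at he
    obtain ⟨⟨h1, h2⟩, h3⟩ := he
    subst h2
    have : h = h' := by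
      funext b
      by_cases hbb : b = b₀
      · rw [hbb]; exact h3
      · have := congrFun h1 b
        simpa [Function.update_of_ne hbb] using this
    rw [this]

theorem count_exists_le {O : Type} [Fintype O] (P : O → Prop) (R : A → O → Prop) (Q : Finset A) :
    count (fun x => P x ∧ ∃ b ∈ Q, R b x) ≤ ∑ b ∈ Q, count (fun x => P x ∧ R b x) := by
  classical
  unfold count
  refine le_trans (Finset.card_le_card ?_) Finset.card_biUnion_le
  intro x hx
  simp only [mem_fil, mem_univ, true_and, Finset.mem_biUnion] at hx ⊢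
  obtain ⟨h1, b, hb, h2⟩ := hx
  exact ⟨b, hb, h1, h2⟩

theorem count_or {O : Type} [Fintype O] (P R : O → Prop) :
    count P = count (fun x => P x ∧ R x) + count (fun x => P x ∧ ¬ R x) := by
  classical
  rw [count_eq_sum, count_eq_sum, count_eq_sum, ← Finset.sum_add_distrib]
  apply Finset.sum_congr rfl
  intro x _
  by_cases h : P x <;> by_cases h' : R x <;> simp [h, h']

theorem c2_bad1 (ℓ : A → L) (Q : Finset A) (b₀ : A) (hb : b₀ ∉ Q) (b : A) (hbQ : b ∈ Q) :
    count (fun x : (A → L') × (L' → L) => C2 ℓ Q x ∧ x.1 b₀ = x.1 b) *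
      Fintype.card L' ≤ count (C2 (L' := L') ℓ Q) := by
  rw [← count_prod_free (O' := L')]
  apply count_le_of_inj _ _ (fun x => (Function.update x.1.1 b₀ x.2, x.1.2))
  · rintro ⟨⟨h, π⟩, c⟩ ⟨hx, _⟩ b' hb'
    have hne : b' ≠ b₀ := fun h => hb (h ▸ hb')
    simp only
    rw [Function.update_of_ne hne]
    exact hx b' hb'
  · rintro ⟨⟨h, π⟩, c⟩ ⟨⟨h', π'⟩, c'⟩ ⟨_, hx⟩ ⟨_, hx'⟩ he
    simp only [Prod.mk.injEq] at he hx hx'
    obtain ⟨h1, h2⟩ := he
    subst h2
    have hc := congrFun h1 b₀
    simp only [Function.update_self] at hc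
    subst hc
    have hoff : ∀ b', b' ≠ b₀ → h b' = h' b' := by
      intro b' hbb
      have := congrFun h1 b'
      simpa [Function.update_of_ne hbb] using this
    have : h = h' := by
      funext b'
      by_cases hbb : b' = b₀
      · rw [hbb, hx, hx']
        exact hoff b (fun h => hb (h ▸ hbQ))
      · exact hoff b' hbb
    rw [this]

theorem c2_bad (ℓ : A → L) (Q : Finset A) (b₀ : A) (hb : b₀ ∉ Q) :
    count (fun x : (A → L') × (L' → L) => C2 ℓ Q x ∧ ∃ b ∈ Q, x.1 b₀ = x.1 b) *
      Fintype.card L' ≤ Q.card * count (C2 (L' := L') ℓ Q) := by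
  refine le_trans (Nat.mul_le_mul_right _ (count_exists_le _
    (fun b (x : (A → L') × (L' → L)) => x.1 b₀ = x.1 b) Q)) ?_
  rw [Finset.sum_mul]
  refine le_trans (Finset.sum_le_sum fun b hbQ => c2_bad1 ℓ Q b₀ hb b hbQ) ?_
  simp

theorem c2_good (ℓ : A → L) (Q : Finset A) (b₀ : A) :
    count (fun x : (A → L') × (L' → L) => C2 ℓ Q x ∧ ¬ ∃ b ∈ Q, x.1 b₀ = x.1 b) ≤
      count (C2 (L' := L') ℓ (insert b₀ Q)) * Fintype.card L := by
  rw [← count_prod_free (O' := L)]
  apply count_le_of_inj _ _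
    (fun x => ((x.1, Function.update x.2 (x.1 b₀) (ℓ b₀)), x.2 (x.1 b₀)))
  · rintro ⟨h, π⟩ ⟨hx, hn⟩ b hbQ
    simp only at hn ⊢
    rcases Finset.mem_insert.1 hbQ with hbb | hbQ'
    · rw [hbb, Function.update_self]
    · have hne : h b ≠ h b₀ := fun hh => hn ⟨b, hbQ', hh.symm⟩
      rw [Function.update_of_ne hne]
      exact hx b hbQ'
  · rintro ⟨h, π⟩ ⟨h', π'⟩ _ _ he
    simp only [Prod.mk.injEq] at he
    obtain ⟨⟨h1, h2⟩, h3⟩ := he
    subst h1
    have : π = π' := by
      funext c
      by_cases hc : c = h b₀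
      · rw [hc]; exact h3
      · have := congrFun h2 c
        simpa [Function.update_of_ne hc] using this
    rw [this]

theorem c2 [Nonempty L'] (ℓ : A → L) (Q : Finset A) :
    (1 - (Q.card : ℝ) ^ 2 / Fintype.card L') * Fintype.card ((A → L') × (L' → L)) ≤
      count (C2 (L' := L') ℓ Q) * (Fintype.card L : ℝ) ^ (Q.image ℓ).card *
        (Fintype.card L' : ℝ) ^ (Q.card - (Q.image ℓ).card) := by
  have hM : (0 : ℝ) < Fintype.card L' := by exact_mod_cast Fintype.card_pos
  induction Q using Finset.induction_on with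
  | empty =>
    have : count (C2 (L' := L') ℓ ∅) = count (fun _ : (A → L') × (L' → L) => True) :=
      count_congr _ _ (by simp [C2])
    rw [this, count_true]
    simp
  | insert b₀ Q hb ih =>
    have hT : (0 : ℝ) ≤ Fintype.card ((A → L') × (L' → L)) := by positivity
    have hle : (Q.image ℓ).card ≤ Q.card := Finset.card_image_le
    rw [Finset.card_insert_of_notMem hb, Finset.image_insert]
    by_cases hmem : ℓ b₀ ∈ Q.image ℓ
    · rw [Finset.insert_eq_of_mem hmem]
      obtain ⟨b₁, hb1, hℓ⟩ := Finset.mem_image.1 hmem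
      have h1 := c2_old (L' := L') ℓ Q b₀ hb b₁ hb1 hℓ
      have h1' : (count (C2 (L' := L') ℓ Q) : ℝ) ≤
        count (C2 (L' := L') ℓ (insert b₀ Q)) * Fintype.card L' := by exact_mod_cast h1
      have e : Q.card + 1 - (Q.image ℓ).card = (Q.card - (Q.image ℓ).card) + 1 := by omega
      rw [e, pow_succ]
      calc (1 - ((Q.card + 1 : ℕ) : ℝ) ^ 2 / Fintype.card L') *
            Fintype.card ((A → L') × (L' → L))
          ≤ (1 - (Q.card : ℝ) ^ 2 / Fintype.card L') *
            Fintype.card ((A → L') × (L' → L)) := by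
            apply mul_le_mul_of_nonneg_right _ hT
            have : (Q.card : ℝ) ^ 2 / Fintype.card L' ≤
                ((Q.card + 1 : ℕ) : ℝ) ^ 2 / Fintype.card L' := by
              apply div_le_div_of_nonneg_right _ hM.le
              push_cast
              have : (0 : ℝ) ≤ Q.card := by positivity
              nlinarith
            linarith
        _ ≤ count (C2 (L' := L') ℓ Q) * (Fintype.card L : ℝ) ^ (Q.image ℓ).card *
            (Fintype.card L' : ℝ) ^ (Q.card - (Q.image ℓ).card) := ih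
        _ ≤ (count (C2 (L' := L') ℓ (insert b₀ Q)) * Fintype.card L') *
            (Fintype.card L : ℝ) ^ (Q.image ℓ).card *
            (Fintype.card L' : ℝ) ^ (Q.card - (Q.image ℓ).card) := by gcongr
        _ = _ := by ring
    · rw [Finset.card_insert_of_notMem hmem]
      have e : Q.card + 1 - ((Q.image ℓ).card + 1) = Q.card - (Q.image ℓ).card := by omega
      rw [e]
      have h1 := c2_bad (L' := L') ℓ Q b₀ hb
      have h2 := c2_good (L' := L') ℓ Q b₀
      have h3 := count_or (C2 (L' := L') ℓ Q)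
        (fun x : (A → L') × (L' → L) => ∃ b ∈ Q, x.1 b₀ = x.1 b)
      set a := count (C2 (L' := L') ℓ Q) with ha
      set bad := count (fun x : (A → L') × (L' → L) => C2 ℓ Q x ∧ ∃ b ∈ Q, x.1 b₀ = x.1 b)
        with hbad
      set good := count (fun x : (A → L') × (L' → L) => C2 ℓ Q x ∧ ¬ ∃ b ∈ Q, x.1 b₀ = x.1 b)
        with hgood
      set a' := count (C2 (L' := L') ℓ (insert b₀ Q)) with ha'
      have h1' : (bad : ℝ) * Fintype.card L' ≤ Q.card * a := by exact_mod_cast h1
      have h2' : (good : ℝ) ≤ a' * Fintype.card L := by exact_mod_cast h2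
      have h3' : (a : ℝ) = bad + good := by exact_mod_cast h3
      have hw : (0 : ℝ) ≤ Q.card := by positivity
      have h4 : (1 - (Q.card : ℝ) / Fintype.card L') * a ≤ a' * Fintype.card L := by
        have : (bad : ℝ) ≤ (Q.card : ℝ) / Fintype.card L' * a := by
          rw [div_mul_eq_mul_div, le_div_iff₀ hM]
          exact h1'
        nlinarith
      set W := (Fintype.card L : ℝ) ^ (Q.image ℓ).card *
            (Fintype.card L' : ℝ) ^ (Q.card - (Q.image ℓ).card) with hW
      have hW0 : 0 ≤ W := by positivity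
      have hgoal : (a' : ℝ) * (Fintype.card L : ℝ) ^ ((Q.image ℓ).card + 1) *
          (Fintype.card L' : ℝ) ^ (Q.card - (Q.image ℓ).card) = (a' * Fintype.card L) * W := by
        rw [hW]; ring
      rw [hgoal]
      have hRHS : 0 ≤ ((a' : ℝ) * Fintype.card L) * W := by positivity
      by_cases hneg : 1 - (Q.card : ℝ) / Fintype.card L' < 0
      · refine le_trans ?_ hRHS
        apply mul_nonpos_of_nonpos_of_nonneg _ hT
        have h5 : (Q.card : ℝ) / Fintype.card L' ≤
            ((Q.card + 1 : ℕ) : ℝ) ^ 2 / Fintype.card L' := by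
          apply div_le_div_of_nonneg_right _ hM.le
          push_cast
          nlinarith
        linarith
      · push Not at hneg
        have h6 : (1 - (Q.card : ℝ) / Fintype.card L') * (a * W) ≤
            (a' * Fintype.card L) * W := by
          rw [← mul_assoc]
          exact mul_le_mul_of_nonneg_right h4 hW0
        refine le_trans ?_ h6
        have ih' : (1 - (Q.card : ℝ) ^ 2 / Fintype.card L') *
            Fintype.card ((A → L') × (L' → L)) ≤ a * W := by
          rw [hW, ← mul_assoc]; exact ih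
        refine le_trans ?_ (mul_le_mul_of_nonneg_left ih' hneg)
        rw [← mul_assoc]
        apply mul_le_mul_of_nonneg_right _ hT
        have h7 : (1 - (Q.card : ℝ) / Fintype.card L') * (1 - (Q.card : ℝ) ^ 2 / Fintype.card L')
            = 1 - ((Q.card : ℝ) + (Q.card : ℝ) ^ 2) / Fintype.card L' +
              (Q.card : ℝ) ^ 3 / (Fintype.card L') ^ 2 := by
          field_simp
          ring
        rw [h7]
        have h8 : (0 : ℝ) ≤ (Q.card : ℝ) ^ 3 / (Fintype.card L') ^ 2 := by positivity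
        have h9 : ((Q.card : ℝ) + (Q.card : ℝ) ^ 2) / Fintype.card L' ≤
            ((Q.card + 1 : ℕ) : ℝ) ^ 2 / Fintype.card L' := by
          apply div_le_div_of_nonneg_right _ hM.le
          push_cast
          nlinarith
        linarith

end Counts

section Main

variable {p M M' : ℕ}

/-- First row distribution. -/
def Phi1 (x : (Fin (2 * M) → Fin M) × (Fin M → ZMod p)) : Row p M :=
  fun b => (x.1 b, x.2 (x.1 b))

/-- Second row distribution. -/
def Phi2 (x : ((Fin (2 * M) → Fin M') × (Fin M' → Fin M)) × (Fin M → ZMod p)) : Row p M :=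
  fun b => (x.1.2 (x.1.1 b), x.2 (x.1.2 (x.1.1 b)))

/-- The shift of the third distribution. -/
noncomputable def shift (v : ZMod p) (σ : Fin (2 * M) ≃ Fin M × Bool) (b : Fin (2 * M)) : ZMod p :=
  open Classical in if ∃ b' < b, (σ b').1 = (σ b).1 then v else 0

/-- Third row distribution. -/
noncomputable def Phi3 (v : ZMod p)
    (x : (Fin (2 * M) ≃ Fin M × Bool) × (Fin M → ZMod p)) : Row p M :=
  fun b => ((x.1 b).1, x.2 (x.1 b).1 + shift v x.1 b)

theorem supp1 (x : (Fin (2 * M) → Fin M) × (Fin M → ZMod p)) (u : ZMod p)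
    (h : RowSol (Phi1 x) u) : u = 0 := by
  obtain ⟨b, b', _, h1, h2⟩ := h
  simp only [Phi1] at h1 h2
  rw [← h2, h1, sub_self]

theorem supp2 (x : ((Fin (2 * M) → Fin M') × (Fin M' → Fin M)) × (Fin M → ZMod p)) (u : ZMod p)
    (h : RowSol (Phi2 x) u) : u = 0 := by
  obtain ⟨b, b', _, h1, h2⟩ := h
  simp only [Phi2] at h1 h2
  rw [← h2, h1, sub_self]

theorem supp3 (v : ZMod p) (x : (Fin (2 * M) ≃ Fin M × Bool) × (Fin M → ZMod p)) (u : ZMod p)
    (h : RowSol (Phi3 v x) u) : u = v := by
  obtain ⟨b, b', hlt, h1, h2⟩ := h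
  simp only [Phi3] at h1 h2
  have e1 : shift v x.1 b' = v := by
    unfold shift
    rw [if_pos ⟨b, hlt, h1⟩]
  have e2 : shift v x.1 b = 0 := by
    unfold shift
    rw [if_neg]
    rintro ⟨c, hc, h3⟩
    have n1 : (x.1 b).2 ≠ (x.1 b').2 := fun h => (ne_of_lt hlt) (x.1.injective (Prod.ext h1 h))
    have n2 : (x.1 c).2 ≠ (x.1 b).2 := fun h => (ne_of_lt hc) (x.1.injective (Prod.ext h3 h))
    have n3 : (x.1 c).2 ≠ (x.1 b').2 :=
      fun h => (ne_of_lt (lt_trans hc hlt)) (x.1.injective (Prod.ext (h3.trans h1) h))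
    revert n1 n2 n3
    generalize (x.1 b).2 = A
    generalize (x.1 b').2 = B
    generalize (x.1 c).2 = C
    cases A <;> cases B <;> cases C <;> simp
  rw [← h2, e1, e2, h1]
  ring

variable [Fact p.Prime]

/-- The number of admissible value functions. -/
noncomputable def RR (Q : Finset (Fin (2 * M))) (τ : Row p M) : ℕ :=
  count (fun ρ : Fin M → ZMod p => ∀ b ∈ Q, ρ (τ b).1 = (τ b).2)

theorem cnt1 (Q : Finset (Fin (2 * M))) (τ : Row p M) :
    count (fun x : (Fin (2 * M) → Fin M) × (Fin M → ZMod p) => ∀ b ∈ Q, Phi1 x b = τ b) =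
      count (fun g : Fin (2 * M) → Fin M => ∀ b ∈ Q, g b = (τ b).1) * RR Q τ := by
  rw [← count_prod (O' := Fin M → ZMod p) (fun g : Fin (2 * M) → Fin M => ∀ b ∈ Q, g b = (τ b).1)
    (fun g ρ => ∀ b ∈ Q, ρ (τ b).1 = (τ b).2) (RR Q τ) (fun _ _ => rfl)]
  apply count_congr
  rintro ⟨g, ρ⟩
  simp only [Phi1, Prod.ext_iff]
  constructor
  · intro h
    refine ⟨fun b hb => (h b hb).1, fun b hb => ?_⟩
    rw [← (h b hb).2, (h b hb).1]
  · rintro ⟨h1, h2⟩ b hb
    exact ⟨h1 b hb, by rw [h1 b hb]; exact h2 b hb⟩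

theorem cnt2 (Q : Finset (Fin (2 * M))) (τ : Row p M) :
    count (fun x : ((Fin (2 * M) → Fin M') × (Fin M' → Fin M)) × (Fin M → ZMod p) =>
        ∀ b ∈ Q, Phi2 x b = τ b) =
      count (C2 (L' := Fin M') (fun b => (τ b).1) Q) * RR Q τ := by
  rw [← count_prod (O' := Fin M → ZMod p) (C2 (L' := Fin M') (fun b => (τ b).1) Q)
    (fun g ρ => ∀ b ∈ Q, ρ (τ b).1 = (τ b).2) (RR Q τ) (fun _ _ => rfl)]
  apply count_congr
  rintro ⟨⟨h, π⟩, ρ⟩
  simp only [Phi2, Prod.ext_iff, C2]
  constructor
  · intro h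
    refine ⟨fun b hb => (h b hb).1, fun b hb => ?_⟩
    rw [← (h b hb).2, (h b hb).1]
  · rintro ⟨h1, h2⟩ b hb
    exact ⟨h1 b hb, by rw [h1 b hb]; exact h2 b hb⟩

theorem cnt3 (v : ZMod p) (Q : Finset (Fin (2 * M))) (τ : Row p M)
    (hQ : Set.InjOn (fun b => (τ b).1) (Q : Set (Fin (2 * M)))) :
    count (fun x : (Fin (2 * M) ≃ Fin M × Bool) × (Fin M → ZMod p) =>
        ∀ b ∈ Q, Phi3 v x b = τ b) =
      count (fun σ : Fin (2 * M) ≃ Fin M × Bool => ∀ b ∈ Q, (σ b).1 = (τ b).1) * RR Q τ := by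
  classical
  rw [← count_prod (O' := Fin M → ZMod p)
    (fun σ : Fin (2 * M) ≃ Fin M × Bool => ∀ b ∈ Q, (σ b).1 = (τ b).1)
    (fun σ ρ => ∀ b ∈ Q, ρ (τ b).1 + shift v σ b = (τ b).2) (RR Q τ)]
  · apply count_congr
    rintro ⟨σ, ρ⟩
    simp only [Phi3, Prod.ext_iff]
    constructor
    · intro h
      refine ⟨fun b hb => (h b hb).1, fun b hb => ?_⟩
      rw [← (h b hb).2, (h b hb).1]
    · rintro ⟨h1, h2⟩ b hb
      exact ⟨h1 b hb, by rw [h1 b hb]; exact h2 b hb⟩
  · intro σ hσ
    -- a function with prescribed values at the labels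
    obtain ⟨s, hs⟩ : ∃ s : Fin M → ZMod p, ∀ b ∈ Q, s (τ b).1 = shift v σ b := by
      refine ⟨fun u => if h : ∃ b ∈ Q, (τ b).1 = u then shift v σ h.choose else 0, ?_⟩
      intro b hb
      have hex : ∃ b' ∈ Q, (τ b').1 = (τ b).1 := ⟨b, hb, rfl⟩
      simp only [dif_pos hex]
      have := hQ (Finset.mem_coe.2 hex.choose_spec.1) (Finset.mem_coe.2 hb) hex.choose_spec.2
      rw [this]
    unfold RR
    apply le_antisymm
    · apply count_le_of_inj _ _ (fun ρ => ρ + s)
      · intro ρ h b hb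
        simp only [Pi.add_apply]
        rw [hs b hb]
        exact h b hb
      · intro ρ ρ' _ _ h
        exact add_right_cancel h
    · apply count_le_of_inj _ _ (fun ρ => ρ - s)
      · intro ρ h b hb
        simp only [Pi.sub_apply]
        rw [hs b hb, h b hb]
        ring
      · intro ρ ρ' _ _ h
        exact sub_left_injective h

theorem E_rows (p M M' : ℕ) [Fact p.Prime] (hM' : 1 ≤ M') (hM : M = 2 * p * M') :
    ∃ (D₁ D₂ : Row p M → ℝ) (D₃ : ZMod p → Row p M → ℝ),
      (∀ z, 0 ≤ D₁ z) ∧ (∀ z, 0 ≤ D₂ z) ∧ (∀ v z, 0 ≤ D₃ v z) ∧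
      ∑ z, D₁ z = 1 ∧ ∑ z, D₂ z = 1 ∧ (∀ v, ∑ z, D₃ v z = 1) ∧
      (∀ z, D₁ z ≠ 0 → ∀ u, RowSol z u → u = 0) ∧
      (∀ z, D₂ z ≠ 0 → ∀ u, RowSol z u → u = 0) ∧
      (∀ v z, D₃ v z ≠ 0 → ∀ u, RowSol z u → u = v) ∧
      ∀ (Q : Finset (Fin (2 * M))) (τ : Row p M),
        (Set.InjOn (fun b => (τ b).1) (Q : Set (Fin (2 * M))) → ∀ v,
          ∑ z ∈ fil univ (fun z => ∀ b ∈ Q, z b = τ b), D₁ z ≤
            ∑ z ∈ fil univ (fun z => ∀ b ∈ Q, z b = τ b), D₃ v z) ∧
        (1 - (Q.card : ℝ) ^ 2 / M') * ∑ z ∈ fil univ (fun z => ∀ b ∈ Q, z b = τ b), D₁ z ≤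
            ∑ z ∈ fil univ (fun z => ∀ b ∈ Q, z b = τ b), D₂ z ∧
        (¬ Set.InjOn (fun b => (τ b).1) (Q : Set (Fin (2 * M))) →
          (1 - (Q.card : ℝ) ^ 2 / M') * (2 * p) *
            ∑ z ∈ fil univ (fun z => ∀ b ∈ Q, z b = τ b), D₁ z ≤
            ∑ z ∈ fil univ (fun z => ∀ b ∈ Q, z b = τ b), D₂ z) := by
  classical
  have hp : 1 ≤ p := (Fact.out : p.Prime).one_lt.le
  have hMpos : 1 ≤ M := by
    rw [hM]
    exact Nat.mul_pos (Nat.mul_pos (by norm_num) hp) hM'
  have ne1 : Nonempty (Fin M) := ⟨⟨0, hMpos⟩⟩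
  have ne2 : Nonempty (Fin M') := ⟨⟨0, hM'⟩⟩
  have ne3 : Nonempty (Fin (2 * M) ≃ Fin M × Bool) := by
    apply Fintype.card_eq.1
    simp [mul_comm]
  refine ⟨pf Phi1, pf (Phi2 (M' := M')), fun v => pf (Phi3 v), pf_nonneg _, pf_nonneg _,
    fun v => pf_nonneg _, pf_total _, pf_total _, fun v => pf_total _, ?_, ?_, ?_, ?_⟩
  · intro z hz u hu
    obtain ⟨o, rfl⟩ := exists_of_pf_ne_zero _ _ hz
    exact supp1 o u hu
  · intro z hz u hu
    obtain ⟨o, rfl⟩ := exists_of_pf_ne_zero _ _ hz
    exact supp2 o u hu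
  · intro v z hz u hu
    obtain ⟨o, rfl⟩ := exists_of_pf_ne_zero _ _ hz
    exact supp3 v o u hu
  · intro Q τ
    have hM0 : (0 : ℝ) < M := by exact_mod_cast hMpos
    have hM'0 : (0 : ℝ) < M' := by exact_mod_cast hM'
    have hp0 : (0 : ℝ) < p := by exact_mod_cast hp
    -- the mass of the first distribution
    have m1 : ∑ z ∈ fil univ (fun z => ∀ b ∈ Q, z b = τ b), pf Phi1 z ≤
        (RR Q τ : ℝ) / ((M : ℝ) ^ Q.card * Fintype.card (Fin M → ZMod p)) := by
      rw [pf_sum, cnt1, Fintype.card_prod]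
      have h := c1 (fun b => (τ b).1) Q
      rw [Fintype.card_fin] at h
      have h' : (count (fun g : Fin (2 * M) → Fin M => ∀ b ∈ Q, g b = (τ b).1) : ℝ) *
        (M : ℝ) ^ Q.card ≤ Fintype.card (Fin (2 * M) → Fin M) := by exact_mod_cast h
      have hT : (0 : ℝ) < Fintype.card (Fin (2 * M) → Fin M) := by
        exact_mod_cast Fintype.card_pos
      have hR : (0 : ℝ) < Fintype.card (Fin M → ZMod p) := by
        exact_mod_cast Fintype.card_pos
      push_cast
      rw [div_le_div_iff₀ (by positivity) (by positivity)]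
      calc (count (fun g : Fin (2 * M) → Fin M => ∀ b ∈ Q, g b = (τ b).1) : ℝ) * (RR Q τ : ℝ) *
            ((M : ℝ) ^ Q.card * Fintype.card (Fin M → ZMod p))
          = (RR Q τ : ℝ) * Fintype.card (Fin M → ZMod p) *
            ((count (fun g : Fin (2 * M) → Fin M => ∀ b ∈ Q, g b = (τ b).1) : ℝ) *
              (M : ℝ) ^ Q.card) := by ring
        _ ≤ (RR Q τ : ℝ) * Fintype.card (Fin M → ZMod p) *
            Fintype.card (Fin (2 * M) → Fin M) := by gcongr
        _ = _ := by ring
    have m1n : 0 ≤ ∑ z ∈ fil univ (fun z => ∀ b ∈ Q, z b = τ b), pf Phi1 z :=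
      Finset.sum_nonneg fun _ _ => pf_nonneg _ _
    have m2n : 0 ≤ ∑ z ∈ fil univ (fun z => ∀ b ∈ Q, z b = τ b), pf (Phi2 (M' := M')) z :=
      Finset.sum_nonneg fun _ _ => pf_nonneg _ _
    have hR : (0 : ℝ) < Fintype.card (Fin M → ZMod p) := by
      exact_mod_cast Fintype.card_pos
    -- the mass of the third distribution
    have m3 : Set.InjOn (fun b => (τ b).1) (Q : Set (Fin (2 * M))) → ∀ v,
        (RR Q τ : ℝ) / ((M : ℝ) ^ Q.card * Fintype.card (Fin M → ZMod p)) ≤
        ∑ z ∈ fil univ (fun z => ∀ b ∈ Q, z b = τ b), pf (Phi3 v) z := by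
      intro hinj v
      rw [pf_sum, cnt3 v Q τ hinj, Fintype.card_prod]
      have h := c3 (fun b => (τ b).1) Q hinj
      rw [Fintype.card_fin] at h
      have h' : (Fintype.card (Fin (2 * M) ≃ Fin M × Bool) : ℝ) ≤
        (count (fun σ : Fin (2 * M) ≃ Fin M × Bool => ∀ b ∈ Q, (σ b).1 = (τ b).1) : ℝ) *
        (M : ℝ) ^ Q.card := by exact_mod_cast h
      have hT : (0 : ℝ) < Fintype.card (Fin (2 * M) ≃ Fin M × Bool) := by
        exact_mod_cast Fintype.card_pos
      push_cast
      rw [div_le_div_iff₀ (by positivity) (by positivity)]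
      calc (RR Q τ : ℝ) * (Fintype.card (Fin (2 * M) ≃ Fin M × Bool) *
              Fintype.card (Fin M → ZMod p))
          = (RR Q τ : ℝ) * Fintype.card (Fin M → ZMod p) *
              Fintype.card (Fin (2 * M) ≃ Fin M × Bool) := by ring
        _ ≤ (RR Q τ : ℝ) * Fintype.card (Fin M → ZMod p) *
            ((count (fun σ : Fin (2 * M) ≃ Fin M × Bool => ∀ b ∈ Q, (σ b).1 = (τ b).1) : ℝ) *
              (M : ℝ) ^ Q.card) := by gcongr
        _ = _ := by ring
    -- the mass of the second distribution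
    obtain ⟨r, hr⟩ : ∃ r, r = (Q.image (fun b => (τ b).1)).card := ⟨_, rfl⟩
    have hrw : r ≤ Q.card := by rw [hr]; exact Finset.card_image_le
    obtain ⟨ε, hε⟩ : ∃ ε : ℝ, ε = 1 - (Q.card : ℝ) ^ 2 / M' := ⟨_, rfl⟩
    have m2 : ε * (2 * p) ^ (Q.card - r) *
        ((RR Q τ : ℝ) / ((M : ℝ) ^ Q.card * Fintype.card (Fin M → ZMod p))) ≤
        ∑ z ∈ fil univ (fun z => ∀ b ∈ Q, z b = τ b), pf (Phi2 (M' := M')) z := by
      rw [pf_sum, cnt2, Fintype.card_prod]
      have h := c2 (L' := Fin M') (fun b => (τ b).1) Q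
      rw [Fintype.card_fin, Fintype.card_fin, ← hr, ← hε] at h
      have hT : (0 : ℝ) < Fintype.card ((Fin (2 * M) → Fin M') × (Fin M' → Fin M)) := by
        exact_mod_cast Fintype.card_pos
      have hMw : (M : ℝ) ^ Q.card = (M : ℝ) ^ r * ((2 * p) ^ (Q.card - r) *
          (M' : ℝ) ^ (Q.card - r)) := by
        rw [← mul_pow]
        have : (M : ℝ) = 2 * p * M' := by rw [hM]; push_cast; ring
        rw [← this, ← pow_add]
        congr 1
        omega
      push_cast
      rw [hMw, mul_div_assoc', div_le_div_iff₀ (by positivity) (by positivity)]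
      calc ε * (2 * (p : ℝ)) ^ (Q.card - r) * (RR Q τ : ℝ) *
            (Fintype.card ((Fin (2 * M) → Fin M') × (Fin M' → Fin M)) *
              Fintype.card (Fin M → ZMod p))
          = ((2 * (p : ℝ)) ^ (Q.card - r) * (RR Q τ : ℝ) * Fintype.card (Fin M → ZMod p)) *
            (ε * Fintype.card ((Fin (2 * M) → Fin M') × (Fin M' → Fin M))) := by ring
        _ ≤ ((2 * (p : ℝ)) ^ (Q.card - r) * (RR Q τ : ℝ) * Fintype.card (Fin M → ZMod p)) *
            (count (C2 (L' := Fin M') (fun b => (τ b).1) Q) * (M : ℝ) ^ r *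
              (M' : ℝ) ^ (Q.card - r)) := by
            apply mul_le_mul_of_nonneg_left h
            positivity
        _ = _ := by ring
    refine ⟨fun hinj v => le_trans m1 (m3 hinj v), ?_, ?_⟩
    · rw [← hε]
      rcases lt_or_ge ε 0 with hneg | hpos
      · exact le_trans (mul_nonpos_of_nonpos_of_nonneg hneg.le m1n) m2n
      · refine le_trans ?_ m2
        refine le_trans (mul_le_mul_of_nonneg_left m1 hpos) ?_
        apply mul_le_mul_of_nonneg_right _ (by positivity)
        have h1 : (1 : ℝ) ≤ (2 * p) ^ (Q.card - r) := by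
          apply one_le_pow₀
          have : (1 : ℝ) ≤ p := by exact_mod_cast hp
          linarith
        nlinarith
    · intro hni
      rw [← hε]
      have hlt : r < Q.card := by
        rcases lt_or_eq_of_le hrw with h | h
        · exact h
        · exfalso
          apply hni
          rw [hr] at h
          exact Finset.card_image_iff.1 h
      rcases lt_or_ge ε 0 with hneg | hpos
      · refine le_trans (mul_nonpos_of_nonpos_of_nonneg ?_ m1n) m2n
        exact mul_nonpos_of_nonpos_of_nonneg hneg.le (by positivity)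
      · refine le_trans ?_ m2
        refine le_trans (mul_le_mul_of_nonneg_left m1 (by positivity)) ?_
        apply mul_le_mul_of_nonneg_right _ (by positivity)
        apply mul_le_mul_of_nonneg_left _ hpos
        apply le_self_pow₀
        · have : (1 : ℝ) ≤ p := by exact_mod_cast hp
          linarith
        · omega

/-- Pigeonhole. -/
theorem E_total {p M : ℕ} (hM : 1 ≤ M) (z : Row p M) : ∃ v, RowSol z v := by
  obtain ⟨b, b', hne, h⟩ := Fintype.exists_ne_map_eq_of_card_lt (fun b => (z b).1)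
    (by simp; omega)
  rcases lt_or_gt_of_ne hne with hlt | hlt
  · exact ⟨_, b, b', hlt, h, rfl⟩
  · exact ⟨_, b', b, hlt, h.symm, rfl⟩

end Main

end H657R2.MAAM.TaskE
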