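import Pool.Agent.H657R2.MAAM.Defs

/-! Task F: the code of functions of degree less than `k` on every axis-parallel line. -/

namespace H657R2.MAAM.TaskF

open Finset

theorem lowDeg_zero {p k : ℕ} : LowDeg k (fun _ : ZMod p => (0 : ZMod p)) :=
  ⟨0, fun x => by simp⟩

theorem lowDeg_add {p k : ℕ} {u v : ZMod p → ZMod p} (hu : LowDeg k u) (hv : LowDeg k v) :
    LowDeg k (fun x => u x + v x) := by
  obtain ⟨c, hc⟩ := hu
  obtain ⟨d, hd⟩ := hv
  refine ⟨fun j => c j + d j, fun x => ?_⟩
  simp only [hc, hd, ← sum_add_distrib, add_mul]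

theorem lowDeg_smul {p k : ℕ} {u : ZMod p → ZMod p} (hu : LowDeg k u) (b : ZMod p) :
    LowDeg k (fun x => b * u x) := by
  obtain ⟨c, hc⟩ := hu
  refine ⟨fun j => b * c j, fun x => ?_⟩
  simp only [hc, mul_sum, mul_assoc]

theorem lowDeg_sub {p k : ℕ} {u v : ZMod p → ZMod p} (hu : LowDeg k u) (hv : LowDeg k v) :
    LowDeg k (fun x => u x - v x) := by
  have := lowDeg_add hu (lowDeg_smul hv (-1))
  simpa [sub_eq_add_neg] using this

theorem lowDeg_sum {p k : ℕ} {ι : Type} (s : Finset ι) {u : ι → ZMod p → ZMod p}
    (hu : ∀ i ∈ s, LowDeg k (u i)) : LowDeg k (fun x => ∑ i ∈ s, u i x) := by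
  classical
  induction s using Finset.induction_on with
  | empty => simpa using lowDeg_zero
  | insert a s ha ih =>
    simp only [sum_insert ha]
    exact lowDeg_add (hu a (mem_insert_self _ _)) (ih fun i hi => hu i (mem_insert_of_mem hi))

open Polynomial in
/-- A nonzero function of degree less than `k` has at most `k - 1` zeros. -/
theorem lowDeg_zeros {p k : ℕ} [Fact p.Prime] (hk : 1 ≤ k) {u : ZMod p → ZMod p}
    (hu : LowDeg k u) (hne : ∃ x, u x ≠ 0) : count (fun x => u x = 0) ≤ k - 1 := by
  classical
  obtain ⟨c, hc⟩ := hu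
  set q : (ZMod p)[X] := ∑ j : Fin k, C (c j) * X ^ (j : ℕ) with hq
  have he : ∀ x, q.eval x = u x := by
    intro x
    rw [hq, eval_finsetSum, hc]
    simp
  have hq0 : q ≠ 0 := by
    rintro h0
    obtain ⟨x, hx⟩ := hne
    apply hx
    rw [← he, h0, eval_zero]
  have hd : q.natDegree ≤ k - 1 := by
    rw [hq]
    refine natDegree_sum_le_of_forall_le _ _ fun j _ => ?_
    refine (natDegree_C_mul_X_pow_le _ _).trans ?_
    have := j.2
    omega
  calc count (fun x => u x = 0) ≤ q.roots.toFinset.card := by
        apply card_le_card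
        intro x hx
        rw [mem_fil] at hx
        rw [Multiset.mem_toFinset, mem_roots hq0, IsRoot, he]
        exact hx.2
    _ ≤ q.roots.card := Multiset.toFinset_card_le _
    _ ≤ q.natDegree := card_roots' q
    _ ≤ k - 1 := hd

theorem code_slice {p m k : ℕ} {P : Pt p (m + 1) → ZMod p} (hP : Code k P) (c₀ : ZMod p) :
    Code k (fun a' : Pt p m => P (Fin.cons c₀ a' : Pt p (m + 1))) := by
  intro i a
  have := hP i.succ (Fin.cons c₀ a : Pt p (m + 1))
  simpa only [← Fin.cons_update] using this

theorem code_line {p m k : ℕ} {P : Pt p (m + 1) → ZMod p} (hP : Code k P) (a' : Pt p m) :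
    LowDeg k (fun c => P (Fin.cons c a' : Pt p (m + 1))) := by
  have := hP 0 (Fin.cons 0 a' : Pt p (m + 1))
  simpa only [Fin.update_cons_zero] using this

theorem F_zeros {p m k : ℕ} [Fact p.Prime] (hk : 1 ≤ k) (P : Pt p m → ZMod p) (hP : Code k P)
    (hne : P ≠ 0) : p * count (fun a => P a = 0) ≤ m * (k - 1) * p ^ m := by
  classical
  induction m with
  | zero =>
    have h0 : count (fun a => P a = 0) = 0 := by
      unfold count
      rw [card_eq_zero, eq_empty_iff_forall_notMem]
      intro a ha
      rw [mem_fil] at ha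
      apply hne
      funext b
      rw [Subsingleton.elim b a]
      exact ha.2
    rw [h0]
    simp
  | succ m ih =>
    obtain ⟨a₀, ha₀⟩ : ∃ a, P a ≠ 0 := Function.ne_iff.mp hne
    set c₀ := a₀ 0 with hc₀
    set B : Finset (Pt p m) := univ.filter fun a' => ∀ c, P (Fin.cons c a' : Pt p (m + 1)) = 0
      with hB
    have hBle : p * B.card ≤ m * (k - 1) * p ^ m := by
      refine le_trans (Nat.mul_le_mul_left _ ?_)
        (ih (fun a' : Pt p m => P (Fin.cons c₀ a' : Pt p (m + 1))) (code_slice hP c₀) ?_)
      · apply card_le_card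
        intro a' ha'
        rw [hB, mem_filter] at ha'
        rw [mem_fil]
        exact ⟨mem_univ _, ha'.2 c₀⟩
      · intro h
        apply ha₀
        have := congrFun h (Fin.tail a₀)
        rw [← Fin.cons_self_tail a₀]
        exact this
    have hsum : count (fun a => P a = 0) =
        ∑ a' : Pt p m, count (fun c => P (Fin.cons c a' : Pt p (m + 1)) = 0) := by
      unfold count fil
      have e : ∀ (Q : Pt p (m + 1) → Prop) [DecidablePred Q], (univ.filter Q).card =
          ∑ a' : Pt p m, (univ.filter fun c : ZMod p => Q (Fin.cons c a' : Pt p (m + 1))).card := by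
        intro Q _
        simp only [card_filter]
        rw [← (Fin.consEquiv (fun _ : Fin (m + 1) => ZMod p)).sum_comp, Fintype.sum_prod_type_right]
        rfl
      exact @e (fun a => P a = 0) (fun a => Classical.propDecidable _)
    have hle : ∀ a' : Pt p m, count (fun c => P (Fin.cons c a' : Pt p (m + 1)) = 0) ≤
        (if a' ∈ B then p else 0) + (k - 1) := by
      intro a'
      by_cases h : a' ∈ B
      · rw [if_pos h]
        refine le_trans (card_le_univ _) ?_
        rw [ZMod.card]
        omega
      · rw [if_neg h, zero_add]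
        apply lowDeg_zeros hk (code_line hP a')
        by_contra hcon
        push Not at hcon
        exact h (by rw [hB, mem_filter]; exact ⟨mem_univ _, hcon⟩)
    have h2 : count (fun a => P a = 0) ≤ p * B.card + (k - 1) * p ^ m := by
      rw [hsum]
      refine (sum_le_sum fun a' _ => hle a').trans ?_
      rw [sum_add_distrib, sum_ite_mem, univ_inter, sum_const, sum_const, card_univ]
      simp only [Fintype.card_pi, ZMod.card, prod_const, card_univ, Fintype.card_fin, smul_eq_mul]
      apply le_of_eq
      ring
    calc p * count (fun a => P a = 0) ≤ p * (p * B.card + (k - 1) * p ^ m) :=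
          Nat.mul_le_mul_left _ h2
      _ ≤ p * (m * (k - 1) * p ^ m + (k - 1) * p ^ m) := by gcongr
      _ = (m + 1) * (k - 1) * p ^ (m + 1) := by ring

theorem F_card {p m k : ℕ} [Fact p.Prime] (hk : 1 ≤ k) (hkp : k ≤ p) :
    p ^ (k ^ m) ≤ count (fun P : Pt p m → ZMod p => Code k P) := by
  classical
  have hcount : ∀ m : ℕ, count (fun P : Pt p m → ZMod p => Code k P) =
      Fintype.card {P : Pt p m → ZMod p // Code k P} := by
    intro m
    rw [Fintype.card_subtype]
    unfold count fil
    congr
  induction m with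
  | zero =>
    rw [hcount, Fintype.card_subtype, filter_true_of_mem]
    · rw [card_univ]
      simp only [Fintype.card_pi, ZMod.card, prod_const, card_univ, Fintype.card_fin, pow_zero,
        pow_one]
      exact le_rfl
    · intro P _ i
      exact i.elim0
  | succ m ih =>
    rw [hcount] at ih ⊢
    let G : (Fin k → {P : Pt p m → ZMod p // Code k P}) →
        {P : Pt p (m + 1) → ZMod p // Code k P} := fun g =>
      ⟨fun a => ∑ j : Fin k, (a 0) ^ (j : ℕ) * (g j).1 (Fin.tail a), by
        intro i a
        refine Fin.cases ?_ (fun i' => ?_) i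
        · refine ⟨fun j => (g j).1 (Fin.tail a), fun x => ?_⟩
          simp only [Function.update_self, Fin.tail_update_zero]
          exact sum_congr rfl fun j _ => mul_comm _ _
        · have : ∀ c, (Function.update a i'.succ c) 0 = a 0 := fun c =>
            Function.update_of_ne (Fin.succ_ne_zero i').symm _ _
          simp only [this, Fin.tail_update_succ]
          exact lowDeg_sum _ fun j _ => lowDeg_smul ((g j).2 i' (Fin.tail a)) _⟩
    have hG : Function.Injective G := by
      intro g h hgh
      have h1 : ∀ a : Pt p (m + 1), ∑ j : Fin k, (a 0) ^ (j : ℕ) * (g j).1 (Fin.tail a) =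
          ∑ j : Fin k, (a 0) ^ (j : ℕ) * (h j).1 (Fin.tail a) := fun a =>
        congrFun (congrArg Subtype.val hgh) a
      have h2 : ∀ a' : Pt p m, (fun j => (g j).1 a' - (h j).1 a') = 0 := by
        intro a'
        have hinj : Function.Injective (fun j : Fin k => ((j : ℕ) : ZMod p)) := by
          intro x y hxy
          have hx : (x : ℕ) < p := x.2.trans_le hkp
          have hy : (y : ℕ) < p := y.2.trans_le hkp
          have h3 := (ZMod.natCast_eq_natCast_iff _ _ _).mp hxy
          exact Fin.ext (Nat.ModEq.eq_of_lt_of_lt h3 hx hy)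
        refine Matrix.eq_zero_of_forall_index_sum_pow_mul_eq_zero hinj fun i => ?_
        have h3 := h1 (Fin.cons ((i : ℕ) : ZMod p) a')
        simp only [Fin.cons_zero, Fin.tail_cons] at h3
        simp only [mul_sub, sum_sub_distrib]
        rw [h3, sub_self]
      funext j
      apply Subtype.ext
      funext a'
      have := congrFun (h2 a') j
      exact sub_eq_zero.mp this
    have h3 := Fintype.card_le_of_injective G hG
    rw [Fintype.card_pi, prod_const, card_univ, Fintype.card_fin] at h3
    refine le_trans ?_ h3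
    rw [pow_succ, pow_mul]
    exact Nat.pow_le_pow_left ih k

theorem code_sub {p m k : ℕ} {P Q : Pt p m → ZMod p} (hP : Code k P) (hQ : Code k Q) :
    Code k (P - Q) := fun i a => lowDeg_sub (hP i a) (hQ i a)

theorem F_restrict {p m k : ℕ} [Fact p.Prime] (T : Finset (Pt p m)) :
    count (fun P : Pt p m → ZMod p => Code k P) ≤
      p ^ T.card * count (fun P : Pt p m → ZMod p => Code k P ∧ ∀ a ∈ T, P a = 0) := by
  classical
  let f : (Pt p m → ZMod p) → (T → ZMod p) := fun P t => P t.1
  set s := fil univ (fun P : Pt p m → ZMod p => Code k P) with hs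
  set K := count (fun P : Pt p m → ZMod p => Code k P ∧ ∀ a ∈ T, P a = 0) with hK
  have h1 : s.card ≤ K * (s.image f).card := by
    apply card_le_mul_card_image
    intro v hv
    obtain ⟨P₀, hP₀, rfl⟩ := mem_image.mp hv
    rw [hs, mem_fil] at hP₀
    refine card_le_card_of_injOn (fun P => P - P₀) ?_ ?_
    · intro P hP
      rw [mem_coe, mem_filter, hs, mem_fil] at hP
      rw [mem_coe, mem_fil]
      refine ⟨mem_univ _, code_sub hP.1.2 hP₀.2, fun a ha => ?_⟩
      have := congrFun hP.2 ⟨a, ha⟩
      simp only [f] at this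
      change P a - P₀ a = 0
      rw [this, sub_self]
    · intro P _ Q _ h
      exact sub_left_injective h
  have h2 : (s.image f).card ≤ p ^ T.card := by
    refine (card_le_univ _).trans ?_
    simp [ZMod.card]
  calc s.card ≤ K * (s.image f).card := h1
    _ ≤ K * p ^ T.card := Nat.mul_le_mul_left _ h2
    _ = p ^ T.card * K := mul_comm _ _

end H657R2.MAAM.TaskF
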