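import Pool.Agent.H657R2.MAAM.Defs

/-!
Task H: structure of the inputs without violation.
-/

namespace H657R2.MAAM.TaskH

open Finset H657R2.MAAM

/-- Pigeonhole. -/
theorem E_total {p M : ℕ} (hM : 1 ≤ M) (z : Row p M) : ∃ v, RowSol z v := by
  have hcard : Fintype.card (Fin M) < Fintype.card (Fin (2 * M)) := by
    simp only [Fintype.card_fin]; omega
  obtain ⟨b, b', hne, heq⟩ :=
    Fintype.exists_ne_map_eq_of_card_lt (fun b : Fin (2 * M) => (z b).1) hcard
  rcases lt_or_gt_of_ne hne with h | h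
  · exact ⟨(z b').2 - (z b).2, b, b', h, heq, rfl⟩
  · exact ⟨(z b).2 - (z b').2, b', b, h, heq.symm, rfl⟩

theorem H_struct {p m k M : ℕ} (hM : 1 ≤ M) (z : Inp p m M) (hz : ¬ Viol k z) :
    ∃ P : Pt p m → ZMod p, Code k P ∧ ∀ a v, RowSol (z a) v ↔ v = P a := by
  choose P hP using fun a => E_total hM (z a)
  have hu : ∀ a v, RowSol (z a) v ↔ v = P a := by
    intro a v
    constructor
    · intro h
      by_contra hne
      exact hz (Or.inl ⟨a, v, P a, hne, h, hP a⟩)
    · rintro rfl
      exact hP a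
  refine ⟨P, ?_, hu⟩
  intro i a
  by_contra hl
  exact hz (Or.inr ⟨i, a, fun c => P (Function.update a i c), hl, fun c => hP _⟩)

/-- The statement of `H_sound` with `F_zeros` as a hypothesis. -/
theorem H_sound' {p m k M : ℕ} [Fact p.Prime] (hM : 1 ≤ M)
    (hF : ∀ P : Pt p m → ZMod p, Code k P → P ≠ 0 →
      p * count (fun a => P a = 0) ≤ m * (k - 1) * p ^ m)
    (z : Inp p m M) (hz : ¬ Good k z) :
    ¬ Viol k z ∧ p * count (fun a => RowSol (z a) 0) ≤ m * (k - 1) * p ^ m := by
  have hz' : ¬ Viol k z ∧ ¬ ∀ a, RowSol (z a) 0 := not_or.mp hz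
  obtain ⟨hv, ha⟩ := hz'
  refine ⟨hv, ?_⟩
  obtain ⟨P, hP, hu⟩ := H_struct hM z hv
  push Not at ha
  obtain ⟨a, ha⟩ := ha
  have hne : P ≠ 0 := by
    intro h0
    apply ha
    rw [hu]
    simp [h0]
  have hfun : (fun a => RowSol (z a) 0) = fun a => P a = 0 := by
    funext a
    rw [hu]
    exact propext ⟨fun h => h.symm, fun h => h.symm⟩
  rw [hfun]
  exact hF P hP hne

/-- `Good` is the disjunction of an NP predicate and the negation of an NP predicate. -/
theorem H_dp {p m k M : ℕ} (hM : 1 ≤ M) (z : Inp p m M) :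
    Good k z ↔ (Viol k z ∨ ¬ ∃ a v, v ≠ 0 ∧ RowSol (z a) v) := by
  by_cases hv : Viol k z
  · exact ⟨fun _ => Or.inl hv, fun _ => Or.inl hv⟩
  · obtain ⟨P, -, hu⟩ := H_struct hM z hv
    constructor
    · rintro (h | h)
      · exact absurd h hv
      · right
        rintro ⟨a, v, hne, hs⟩
        have h0 := (hu a 0).mp (h a)
        have h1 := (hu a v).mp hs
        exact hne (h1.trans h0.symm)
    · rintro (h | h)
      · exact absurd h hv
      · right
        intro a
        rw [hu]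
        by_contra hne
        exact h ⟨a, P a, fun h' => hne h'.symm, (hu a (P a)).mpr rfl⟩

end H657R2.MAAM.TaskH
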