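import Pool.Agent.H657R2.MAAM.Defs

/-! Task I: the upper bound, certificates. -/

namespace H657R2.MAAM.TaskI

open Finset

/-! ### Certificates are checked with two bits -/

theorem exists_surj {α β : Type} [Fintype α] [Fintype β] [Nonempty β]
    (h : Fintype.card β ≤ Fintype.card α) : ∃ f : α → β, Function.Surjective f := by
  obtain ⟨g⟩ := Function.Embedding.nonempty_of_card_le h
  exact ⟨Function.invFun g, Function.invFun_surjective g.injective⟩

theorem exists_decode {β s e₀ g : ℕ} {E : Type} [Fintype E] [Nonempty E]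
    (hE : Fintype.card E ≤ 2 ^ e₀) {mg : ℕ} [NeZero mg] (hg : mg ≤ 2 ^ g) :
    ∃ D : Str (e₀ + s * β * g) → E × (Fin s → Fin β → Fin mg), Function.Surjective D := by
  classical
  apply exists_surj
  simp only [Fintype.card_prod, Fintype.card_pi, Fintype.card_fin, prod_const, card_univ,
    Fintype.card_bool]
  calc Fintype.card E * (mg ^ β) ^ s ≤ 2 ^ e₀ * ((2 ^ g) ^ β) ^ s := by gcongr
    _ = 2 ^ (e₀ + s * β * g) := by
      rw [← pow_mul, ← pow_mul, ← pow_add]
      congr 2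
      ring

/-- Certificates are verified by Alice and Bob with two bits. -/
theorem I_cert {p m M β s e₀ g : ℕ} {E : Type} [Fintype E] [Nonempty E]
    (hE : Fintype.card E ≤ 2 ^ e₀)
    (C : Cert p m M s E) (dec : Str β → Sym p M) {mg : ℕ} [NeZero mg] (hg : mg ≤ 2 ^ g) :
    ∃ V : Str (e₀ + s * β * g) → Prot (Jt p m M β → Fin mg) (Jt p m M β → Fin mg → Bool),
      (∀ q, (V q).bits ≤ 2) ∧
      ∀ x y, (∃ q, (V q).run x y = true) ↔ C.holds (toInp dec (gad x y)) := by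
  classical
  obtain ⟨D, hD⟩ := exists_decode (β := β) (s := s) hE hg
  refine ⟨fun q => .alice (fun x => decide (∀ l t, x (C.pos (D q).1 l, t) = (D q).2 l t))
    (.bob (fun y => decide (C.ok (D q).1
      (fun l => dec (fun t => y (C.pos (D q).1 l, t) ((D q).2 l t))))) (.out true) (.out false))
    (.out false), fun q => by simp [Prot.bits], fun x y => ?_⟩
  have key : ∀ q, ((Prot.alice (fun x => decide (∀ l t, x (C.pos (D q).1 l, t) = (D q).2 l t))
    (.bob (fun y => decide (C.ok (D q).1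
      (fun l => dec (fun t => y (C.pos (D q).1 l, t) ((D q).2 l t))))) (.out true) (.out false))
    (.out false)).run x y = true) ↔ (∀ l t, x (C.pos (D q).1 l, t) = (D q).2 l t) ∧
      C.ok (D q).1 (fun l => dec (fun t => y (C.pos (D q).1 l, t) ((D q).2 l t))) := by
    intro q
    simp only [Prot.run]
    by_cases h1 : ∀ l t, x (C.pos (D q).1 l, t) = (D q).2 l t
    · by_cases h2 : C.ok (D q).1 (fun l => dec (fun t => y (C.pos (D q).1 l, t) ((D q).2 l t)))
      · simp [h1, h2]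
      · simp [h1, h2]
    · simp [h1]
  simp only [key]
  constructor
  · rintro ⟨q, h1, h2⟩
    refine ⟨(D q).1, ?_⟩
    have e : (fun l => toInp dec (gad x y) (C.pos (D q).1 l).1 (C.pos (D q).1 l).2) =
        fun l => dec (fun t => y (C.pos (D q).1 l, t) ((D q).2 l t)) := by
      funext l
      change dec (fun t => y (C.pos (D q).1 l, t) (x (C.pos (D q).1 l, t))) = _
      congr 1
      funext t
      rw [h1]
    rw [e]
    exact h2
  · rintro ⟨e, he⟩
    obtain ⟨q, hq⟩ := hD (e, fun l t => x (C.pos e l, t))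
    refine ⟨q, ?_, ?_⟩
    · intro l t
      rw [hq]
    · change C.ok (D q).1 (fun l => dec (fun t => y (C.pos (D q).1 l, t) ((D q).2 l t)))
      rw [hq]
      exact he

/-- The same as a cover by rectangles. -/
theorem I_np {p m M β s e₀ g : ℕ} {E : Type} [Fintype E] [Nonempty E]
    (hE : Fintype.card E ≤ 2 ^ e₀)
    (C : Cert p m M s E) (dec : Str β → Sym p M) {mg : ℕ} [NeZero mg] (hg : mg ≤ 2 ^ g)
    (G : (Jt p m M β → Fin mg) → (Jt p m M β → Fin mg → Bool) → Bool)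
    (hG : ∀ x y, G x y = true ↔ C.holds (toInp dec (gad x y))) :
    NP G (e₀ + s * β * g) := by
  obtain ⟨D, hD⟩ := exists_decode (β := β) (s := s) hE hg
  refine ⟨fun q x => ∀ l t, x (C.pos (D q).1 l, t) = (D q).2 l t,
    fun q y => C.ok (D q).1 (fun l => dec (fun t => y (C.pos (D q).1 l, t) ((D q).2 l t))),
    fun x y => ?_⟩
  rw [hG]
  constructor
  · rintro ⟨e, he⟩
    obtain ⟨q, hq⟩ := hD (e, fun l t => x (C.pos e l, t))
    refine ⟨q, ?_, ?_⟩
    · intro l t
      rw [hq]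
    · change C.ok (D q).1 (fun l => dec (fun t => y (C.pos (D q).1 l, t) ((D q).2 l t)))
      rw [hq]
      exact he
  · rintro ⟨q, h1, h2⟩
    refine ⟨(D q).1, ?_⟩
    have e : (fun l => toInp dec (gad x y) (C.pos (D q).1 l).1 (C.pos (D q).1 l).2) =
        fun l => dec (fun t => y (C.pos (D q).1 l, t) ((D q).2 l t)) := by
      funext l
      change dec (fun t => y (C.pos (D q).1 l, t) (x (C.pos (D q).1 l, t))) = _
      congr 1
      funext t
      rw [h1]
    rw [e]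
    exact h2

/-! ### The certificates -/

section certs

variable {p m M : ℕ}

/-- A pair of items for every element of `ZMod p`. -/
abbrev Prs (p M : ℕ) : Type := ZMod p → Fin (2 * M) × Fin (2 * M)

/-- The symbols read. -/
abbrev Rd (p M : ℕ) : Type := ZMod p → Sym p M × Sym p M

/-- The symbols read in the rows `f c`. -/
def rd (z : Inp p m M) (f : ZMod p → Pt p m) (B : Prs p M) : Rd p M :=
  fun c => (z (f c) (B c).1, z (f c) (B c).2)

/-- The pair `c` is a collision. -/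
def okp (B : Prs p M) (y : Rd p M) (c : ZMod p) : Prop :=
  (B c).1 < (B c).2 ∧ (y c).1.1 = (y c).2.1

/-- The difference. -/
def dif (y : Rd p M) (c : ZMod p) : ZMod p := (y c).2.2 - (y c).1.2

def ok1 (B : Prs p M) (y : Rd p M) : Prop := okp B y 0 ∧ okp B y 1 ∧ dif y 0 ≠ dif y 1
def ok2 (k : ℕ) (B : Prs p M) (y : Rd p M) : Prop := (∀ c, okp B y c) ∧ ¬ LowDeg k (dif y)
def ok3 (B : Prs p M) (y : Rd p M) : Prop := okp B y 0 ∧ dif y 0 = 0
def ok4 (B : Prs p M) (y : Rd p M) : Prop := okp B y 0 ∧ dif y 0 ≠ 0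

theorem mkCert [Fact p.Prime] {E : Type} (rowf : E → ZMod p → Pt p m) (prs : E → Prs p M)
    (okf : E → Rd p M → Prop) : ∃ C : Cert p m M (2 * p) E,
      ∀ z, C.holds z ↔ ∃ e, okf e (rd z (rowf e) (prs e)) := by
  have hc : Fintype.card (ZMod p × Bool) = 2 * p := by
    simp [ZMod.card, mul_comm]
  let φ : ZMod p × Bool ≃ Fin (2 * p) := Fintype.equivFinOfCardEq hc
  refine ⟨⟨fun e l => (rowf e (φ.symm l).1,
    bif (φ.symm l).2 then (prs e (φ.symm l).1).2 else (prs e (φ.symm l).1).1),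
    fun e y => okf e (fun c => (y (φ (c, false)), y (φ (c, true))))⟩, fun z => ?_⟩
  unfold Cert.holds rd
  simp

theorem viol1 [Fact p.Prime] (hm : 1 ≤ m) (z : Inp p m M) :
    (∃ a v v', v ≠ v' ∧ RowSol (z a) v ∧ RowSol (z a) v') ↔
      ∃ (_ : Fin m) (a : Pt p m) (B : Prs p M), ok1 B (rd z (fun _ => a) B) := by
  constructor
  · rintro ⟨a, v, v', hv, ⟨b, b', h1, h2, h3⟩, ⟨c, c', g1, g2, g3⟩⟩
    refine ⟨⟨0, hm⟩, a, fun x => if x = 0 then (b, b') else (c, c'), ?_⟩
    unfold ok1 okp dif rd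
    simp only [if_true, one_ne_zero, if_false]
    exact ⟨⟨h1, h2⟩, ⟨g1, g2⟩, by rw [h3, g3]; exact hv⟩
  · rintro ⟨-, a, B, h0, h1, h2⟩
    exact ⟨a, _, _, h2, ⟨_, _, h0.1, h0.2, rfl⟩, ⟨_, _, h1.1, h1.2, rfl⟩⟩

theorem viol2 (k : ℕ) (z : Inp p m M) :
    (∃ (i : Fin m) (a : Pt p m) (u : ZMod p → ZMod p), ¬ LowDeg k u ∧
      ∀ c, RowSol (z (Function.update a i c)) (u c)) ↔
      ∃ (i : Fin m) (a : Pt p m) (B : Prs p M),
        ok2 k B (rd z (fun c => Function.update a i c) B) := by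
  constructor
  · rintro ⟨i, a, u, hu, h⟩
    choose b b' h1 h2 h3 using h
    refine ⟨i, a, fun c => (b c, b' c), fun c => ⟨h1 c, h2 c⟩, ?_⟩
    have : dif (rd z (fun c => Function.update a i c) fun c => (b c, b' c)) = u := by
      ext1 c
      exact h3 c
    rwa [this]
  · rintro ⟨i, a, B, h1, h2⟩
    exact ⟨i, a, _, h2, fun c => ⟨_, _, (h1 c).1, (h1 c).2, rfl⟩⟩

theorem zero3 (hm : 1 ≤ m) (a₀ : Pt p m) (z : Inp p m M) :
    RowSol (z a₀) 0 ↔ ∃ (_ : Fin m) (_ : Pt p m) (B : Prs p M), ok3 B (rd z (fun _ => a₀) B) := by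
  constructor
  · rintro ⟨b, b', h1, h2, h3⟩
    exact ⟨⟨0, hm⟩, a₀, fun _ => (b, b'), ⟨h1, h2⟩, h3⟩
  · rintro ⟨-, -, B, h0, h1⟩
    exact ⟨_, _, h0.1, h0.2, h1⟩

theorem card_prs [Fact p.Prime] : Fintype.card (Prs p M) = (2 * M) ^ (2 * p) := by
  simp only [Fintype.card_pi, Fintype.card_prod, Fintype.card_fin, prod_const, card_univ,
    ZMod.card]
  rw [pow_mul, sq]

theorem card_pt [Fact p.Prime] : Fintype.card (Pt p m) = p ^ m := by
  simp [ZMod.card]

/-- Certificates for violations. -/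
theorem I_viol (p m k M : ℕ) [Fact p.Prime] (hm : 1 ≤ m) (hM : 1 ≤ M) :
    ∃ (E : Type) (_ : Fintype E) (_ : Nonempty E) (C : Cert p m M (2 * p) E),
      Fintype.card E ≤ 2 * (m * p ^ m * (2 * M) ^ (2 * p)) ∧
      ∀ z : Inp p m M, C.holds z ↔ Viol k z := by
  have : NeZero m := ⟨by omega⟩
  have : NeZero (2 * M) := ⟨by omega⟩
  obtain ⟨C, hC⟩ := mkCert (p := p) (m := m) (M := M)
    (E := Fin 2 × (Fin m × Pt p m × Prs p M))
    (fun e c => if e.1 = 0 then e.2.2.1 else Function.update e.2.2.1 e.2.1 c)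
    (fun e => e.2.2.2) (fun e => if e.1 = 0 then ok1 e.2.2.2 else ok2 k e.2.2.2)
  refine ⟨_, inferInstance, inferInstance, C, ?_, fun z => ?_⟩
  · rw [Fintype.card_prod, Fintype.card_prod, Fintype.card_prod, card_prs, card_pt,
      Fintype.card_fin, Fintype.card_fin, mul_assoc]
  · rw [hC, Viol, viol1 hm, viol2]
    constructor
    · rintro ⟨⟨e, i, a, B⟩, h⟩
      fin_cases e
      · exact Or.inl ⟨i, a, B, h⟩
      · exact Or.inr ⟨i, a, B, h⟩
    · rintro (⟨i, a, B, h⟩ | ⟨i, a, B, h⟩)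
      · exact ⟨(0, i, a, B), h⟩
      · exact ⟨(1, i, a, B), h⟩

/-- Certificates for violations or a zero in row `a`. -/
theorem I_zero (p m k M : ℕ) [Fact p.Prime] (hm : 1 ≤ m) (hM : 1 ≤ M) (a : Pt p m) :
    ∃ (E : Type) (_ : Fintype E) (_ : Nonempty E) (C : Cert p m M (2 * p) E),
      Fintype.card E ≤ 3 * (m * p ^ m * (2 * M) ^ (2 * p)) ∧
      ∀ z : Inp p m M, C.holds z ↔ (Viol k z ∨ RowSol (z a) 0) := by
  have : NeZero m := ⟨by omega⟩
  have : NeZero (2 * M) := ⟨by omega⟩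
  obtain ⟨C, hC⟩ := mkCert (p := p) (m := m) (M := M)
    (E := Fin 3 × (Fin m × Pt p m × Prs p M))
    (fun e c => if e.1 = 0 then e.2.2.1 else if e.1 = 1 then Function.update e.2.2.1 e.2.1 c
      else a)
    (fun e => e.2.2.2)
    (fun e => if e.1 = 0 then ok1 e.2.2.2 else if e.1 = 1 then ok2 k e.2.2.2 else ok3 e.2.2.2)
  refine ⟨_, inferInstance, inferInstance, C, ?_, fun z => ?_⟩
  · rw [Fintype.card_prod, Fintype.card_prod, Fintype.card_prod, card_prs, card_pt,
      Fintype.card_fin, Fintype.card_fin, mul_assoc]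
  · rw [hC, Viol, viol1 hm, viol2, zero3 hm]
    constructor
    · rintro ⟨⟨e, i, a', B⟩, h⟩
      fin_cases e
      · exact Or.inl (Or.inl ⟨i, a', B, h⟩)
      · exact Or.inl (Or.inr ⟨i, a', B, h⟩)
      · exact Or.inr ⟨i, a', B, h⟩
    · rintro ((⟨i, a', B, h⟩ | ⟨i, a', B, h⟩) | ⟨i, a', B, h⟩)
      · exact ⟨(0, i, a', B), h⟩
      · exact ⟨(1, i, a', B), h⟩
      · exact ⟨(2, i, a', B), h⟩

/-- Certificates for a nonzero value. -/
theorem I_nonzero (p m M : ℕ) [Fact p.Prime] (hM : 1 ≤ M) :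
    ∃ (E : Type) (_ : Fintype E) (_ : Nonempty E) (C : Cert p m M (2 * p) E),
      Fintype.card E ≤ p ^ m * (2 * M) ^ (2 * p) ∧
      ∀ z : Inp p m M, C.holds z ↔ ∃ a v, v ≠ 0 ∧ RowSol (z a) v := by
  have : NeZero (2 * M) := ⟨by omega⟩
  obtain ⟨C, hC⟩ := mkCert (p := p) (m := m) (M := M)
    (E := Pt p m × Prs p M) (fun e _ => e.1) (fun e => e.2) (fun e => ok4 e.2)
  refine ⟨_, inferInstance, inferInstance, C, ?_, fun z => ?_⟩
  · rw [Fintype.card_prod, card_prs, card_pt]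
  · rw [hC]
    constructor
    · rintro ⟨⟨a, B⟩, h0, h1⟩
      exact ⟨a, _, h1, _, _, h0.1, h0.2, rfl⟩
    · rintro ⟨a, v, hv, b, b', h1, h2, h3⟩
      refine ⟨(a, fun _ => (b, b')), ⟨h1, h2⟩, ?_⟩
      change (z a b').2 - (z a b).2 ≠ 0
      rwa [h3]

end certs

end H657R2.MAAM.TaskI
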