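import Pool.Agent.H657R2.MAAM.Defs

/-!
Task J: rectangles, small-bounded-error protocols, Merlin-Arthur protocols.
-/

namespace H657R2.MAAM.TaskJ

open Finset

theorem rect_pt {X Y : Type} [Fintype X] [Fintype Y] (π : Prot X Y) :
    ∃ (ι : Type) (_ : Fintype ι) (A : ι → Finset X) (B : ι → Finset Y),
      Fintype.card ι ≤ 2 ^ π.bits ∧
      ∀ x y, (if π.run x y = true then (1 : ℝ) else 0) =
        ∑ i, (open Classical in if x ∈ A i ∧ y ∈ B i then (1 : ℝ) else 0) := by
  classical
  induction π with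
  | out b =>
    cases b
    · exact ⟨Empty, inferInstance, fun e => e.elim, fun e => e.elim, by simp [Prot.bits],
        fun x y => by simp [Prot.run]⟩
    · exact ⟨Unit, inferInstance, fun _ => univ, fun _ => univ, by simp [Prot.bits],
        fun x y => by simp [Prot.run]⟩
  | alice q l r ihl ihr =>
    obtain ⟨ι₁, f₁, A₁, B₁, c₁, h₁⟩ := ihl
    obtain ⟨ι₂, f₂, A₂, B₂, c₂, h₂⟩ := ihr
    refine ⟨ι₁ ⊕ ι₂, inferInstance,
      Sum.elim (fun i => (A₁ i).filter (fun x => q x = true))
        (fun i => (A₂ i).filter (fun x => q x = false)), Sum.elim B₁ B₂, ?_, ?_⟩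
    · have e1 : 2 ^ l.bits ≤ 2 ^ max l.bits r.bits := Nat.pow_le_pow_right (by norm_num) (le_max_left _ _)
      have e2 : 2 ^ r.bits ≤ 2 ^ max l.bits r.bits := Nat.pow_le_pow_right (by norm_num) (le_max_right _ _)
      simp only [Fintype.card_sum, Prot.bits, pow_succ]
      omega
    · intro x y
      rw [Fintype.sum_sum_type]
      simp only [Sum.elim_inl, Sum.elim_inr, Finset.mem_filter, Prot.run]
      rcases Bool.eq_false_or_eq_true (q x) with hq | hq
      · simp only [hq, cond_true]
        simpa using h₁ x y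
      · simp only [hq, cond_false]
        simpa using h₂ x y
  | bob q l r ihl ihr =>
    obtain ⟨ι₁, f₁, A₁, B₁, c₁, h₁⟩ := ihl
    obtain ⟨ι₂, f₂, A₂, B₂, c₂, h₂⟩ := ihr
    refine ⟨ι₁ ⊕ ι₂, inferInstance, Sum.elim A₁ A₂,
      Sum.elim (fun i => (B₁ i).filter (fun x => q x = true))
        (fun i => (B₂ i).filter (fun x => q x = false)), ?_, ?_⟩
    · have e1 : 2 ^ l.bits ≤ 2 ^ max l.bits r.bits := Nat.pow_le_pow_right (by norm_num) (le_max_left _ _)
      have e2 : 2 ^ r.bits ≤ 2 ^ max l.bits r.bits := Nat.pow_le_pow_right (by norm_num) (le_max_right _ _)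
      simp only [Fintype.card_sum, Prot.bits, pow_succ]
      omega
    · intro x y
      rw [Fintype.sum_sum_type]
      simp only [Sum.elim_inl, Sum.elim_inr, Finset.mem_filter, Prot.run]
      rcases Bool.eq_false_or_eq_true (q y) with hq | hq
      · simp only [hq, cond_true]
        simpa using h₁ x y
      · simp only [hq, cond_false]
        simpa using h₂ x y

theorem J_rect {X Y : Type} [Fintype X] [Fintype Y] (π : Prot X Y) :
    ∃ (ι : Type) (_ : Fintype ι) (A : ι → Finset X) (B : ι → Finset Y),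
      Fintype.card ι ≤ 2 ^ π.bits ∧
      ∀ μ : X → Y → ℝ, (∑ x, ∑ y, if π.run x y = true then μ x y else 0) =
        ∑ i, ∑ x ∈ A i, ∑ y ∈ B i, μ x y := by
  classical
  obtain ⟨ι, fι, A, B, hc, h⟩ := rect_pt π
  refine ⟨ι, fι, A, B, hc, fun μ => ?_⟩
  have e1 : ∀ x y, (if π.run x y = true then μ x y else 0) =
      ∑ i, (if x ∈ A i then (if y ∈ B i then μ x y else 0) else 0) := by
    intro x y
    have := congrArg (fun t => μ x y * t) (h x y)
    simp only [mul_ite, mul_one, mul_zero, Finset.mul_sum] at this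
    rw [this]
    refine Finset.sum_congr rfl fun i _ => ?_
    by_cases hx : x ∈ A i <;> by_cases hy : y ∈ B i <;> simp [hx, hy]
  calc (∑ x, ∑ y, if π.run x y = true then μ x y else 0)
      = ∑ x, ∑ y, ∑ i, (if x ∈ A i then (if y ∈ B i then μ x y else 0) else 0) :=
        Finset.sum_congr rfl fun x _ => Finset.sum_congr rfl fun y _ => e1 x y
    _ = ∑ x, ∑ i, ∑ y, (if x ∈ A i then (if y ∈ B i then μ x y else 0) else 0) :=
        Finset.sum_congr rfl fun x _ => Finset.sum_comm
    _ = ∑ i, ∑ x, ∑ y, (if x ∈ A i then (if y ∈ B i then μ x y else 0) else 0) :=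
        Finset.sum_comm
    _ = ∑ i, ∑ x ∈ A i, ∑ y ∈ B i, μ x y := by
        refine Finset.sum_congr rfl fun i _ => ?_
        rw [← Finset.sum_filter_add_sum_filter_not univ (fun x => x ∈ A i)]
        have z1 : ∑ x ∈ univ.filter (fun x => ¬ x ∈ A i),
            ∑ y, (if x ∈ A i then (if y ∈ B i then μ x y else 0) else 0) = 0 := by
          refine Finset.sum_eq_zero fun x hx => ?_
          have hx' : x ∉ A i := (Finset.mem_filter.1 hx).2
          simp [hx']
        rw [z1, add_zero]
        have z2 : univ.filter (fun x => x ∈ A i) = A i := by ext; simp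
        rw [z2]
        refine Finset.sum_congr rfl fun x hx => ?_
        simp only [hx, if_true]
        rw [← Finset.sum_filter]
        congr 1
        ext; simp

theorem count_eq_sum {α : Type} [Fintype α] (P : α → Prop) :
    (count P : ℝ) = ∑ a, (open Classical in if P a then (1 : ℝ) else 0) := by
  classical
  rw [count, fil, Finset.sum_ite, Finset.sum_const_zero, add_zero, Finset.sum_const,
    nsmul_eq_mul, mul_one]

theorem J_sbp {X Y : Type} [Fintype X] [Fintype Y] (F : X → Y → Bool) (c : ℕ)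
    (μ₀ μ₁ : X → Y → ℝ) (h0 : ∀ x y, 0 ≤ μ₀ x y) (h1 : ∀ x y, 0 ≤ μ₁ x y)
    (hs0 : ∑ x, ∑ y, μ₀ x y = 1) (hs1 : ∑ x, ∑ y, μ₁ x y = 1)
    (hf0 : ∀ x y, μ₀ x y ≠ 0 → F x y = false) (hf1 : ∀ x y, μ₁ x y ≠ 0 → F x y = true)
    (hdom : ∀ (A : Finset X) (B : Finset Y),
      4 / 5 * ∑ x ∈ A, ∑ y ∈ B, μ₁ x y - (1 / 2) ^ (c + 2) ≤ ∑ x ∈ A, ∑ y ∈ B, μ₀ x y) :
    ¬ SBP F c := by
  classical
  rintro ⟨t, b, htb, r, V, α, hV, hα, hF⟩
  have hαpos : 0 < α := lt_of_lt_of_le (by positivity) hα
  -- acceptance masses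
  have hacc : ∀ μ : X → Y → ℝ,
      ∑ ω, ∑ x, ∑ y, (if (V ω).run x y = true then μ x y else 0) =
      ∑ x, ∑ y, μ x y * (count (fun ω => (V ω).run x y = true) : ℝ) := by
    intro μ
    rw [Finset.sum_comm]
    refine Finset.sum_congr rfl fun x _ => ?_
    rw [Finset.sum_comm]
    refine Finset.sum_congr rfl fun y _ => ?_
    rw [count_eq_sum, Finset.mul_sum]
    refine Finset.sum_congr rfl fun ω _ => ?_
    by_cases h : (V ω).run x y = true <;> simp [h]
  have hrect : ∀ ω, 4 / 5 * (∑ x, ∑ y, (if (V ω).run x y = true then μ₁ x y else 0)) -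
      2 ^ b * (1 / 2) ^ (c + 2) ≤ ∑ x, ∑ y, (if (V ω).run x y = true then μ₀ x y else 0) := by
    intro ω
    obtain ⟨ι, fι, A, B, hc, h⟩ := J_rect (V ω)
    rw [h μ₁, h μ₀]
    have hsum : ∑ i : ι, (4 / 5 * ∑ x ∈ A i, ∑ y ∈ B i, μ₁ x y - (1 / 2) ^ (c + 2)) ≤
        ∑ i : ι, ∑ x ∈ A i, ∑ y ∈ B i, μ₀ x y :=
      Finset.sum_le_sum fun i _ => hdom (A i) (B i)
    rw [Finset.sum_sub_distrib, ← Finset.mul_sum, Finset.sum_const, Finset.card_univ,
      nsmul_eq_mul] at hsum
    have hcard : (Fintype.card ι : ℝ) ≤ 2 ^ b := by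
      have h2 : Fintype.card ι ≤ 2 ^ b := hc.trans (Nat.pow_le_pow_right (by norm_num) (hV ω))
      exact_mod_cast h2
    have : (Fintype.card ι : ℝ) * (1 / 2) ^ (c + 2) ≤ 2 ^ b * (1 / 2) ^ (c + 2) :=
      mul_le_mul_of_nonneg_right hcard (by positivity)
    linarith
  have htot := Finset.sum_le_sum (s := (univ : Finset (Str r))) fun ω _ => hrect ω
  rw [Finset.sum_sub_distrib, ← Finset.mul_sum, hacc, hacc, Finset.sum_const, Finset.card_univ,
    nsmul_eq_mul] at htot
  have hcardr : (Fintype.card (Str r) : ℝ) = 2 ^ r := by simp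
  rw [hcardr] at htot
  have hup : ∑ x, ∑ y, μ₀ x y * (count (fun ω => (V ω).run x y = true) : ℝ) ≤
      α / 2 * 2 ^ r := by
    calc _ ≤ ∑ x, ∑ y, μ₀ x y * (α / 2 * 2 ^ r) := by
          refine Finset.sum_le_sum fun x _ => Finset.sum_le_sum fun y _ => ?_
          by_cases hz : μ₀ x y = 0
          · simp [hz]
          · exact mul_le_mul_of_nonneg_left ((hF x y).2 (hf0 x y hz)) (h0 x y)
      _ = (∑ x, ∑ y, μ₀ x y) * (α / 2 * 2 ^ r) := by
          rw [Finset.sum_mul]
          exact Finset.sum_congr rfl fun x _ => (Finset.sum_mul _ _ _).symm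
      _ = _ := by rw [hs0, one_mul]
  have hlo : α * 2 ^ r ≤ ∑ x, ∑ y, μ₁ x y * (count (fun ω => (V ω).run x y = true) : ℝ) := by
    calc α * 2 ^ r = (∑ x, ∑ y, μ₁ x y) * (α * 2 ^ r) := by rw [hs1, one_mul]
      _ = ∑ x, ∑ y, μ₁ x y * (α * 2 ^ r) := by
          rw [Finset.sum_mul]
          exact Finset.sum_congr rfl fun x _ => Finset.sum_mul _ _ _
      _ ≤ _ := by
          refine Finset.sum_le_sum fun x _ => Finset.sum_le_sum fun y _ => ?_
          by_cases hz : μ₁ x y = 0
          · simp [hz]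
          · exact mul_le_mul_of_nonneg_left ((hF x y).1 (hf1 x y hz)) (h1 x y)
  have hdelta : (2 : ℝ) ^ b * (1 / 2) ^ (c + 2) ≤ α / 4 := by
    have e1 : (1 / 2 : ℝ) ^ (c + 2) ≤ (1 / 2) ^ (t + b + 2) :=
      pow_le_pow_of_le_one (by norm_num) (by norm_num) (by omega)
    calc (2 : ℝ) ^ b * (1 / 2) ^ (c + 2) ≤ 2 ^ b * (1 / 2) ^ (t + b + 2) :=
          mul_le_mul_of_nonneg_left e1 (by positivity)
      _ = (1 / 2) ^ t * (1 / 4) * (2 ^ b * (1 / 2) ^ b) := by
          rw [pow_add, pow_add]; ring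
      _ = (1 / 2) ^ t * (1 / 4) := by
          rw [← mul_pow]; norm_num
      _ ≤ α / 4 := by linarith
  have h2r : (0 : ℝ) < 2 ^ r := by positivity
  have hd2 : (2 : ℝ) ^ r * (2 ^ b * (1 / 2) ^ (c + 2)) ≤ 2 ^ r * (α / 4) :=
    mul_le_mul_of_nonneg_left hdelta h2r.le
  nlinarith [mul_pos hαpos h2r]

/-! ### Conjunction of protocols -/

section Seq

variable {X Y : Type}

/-- Run the first protocol, then (if it accepts) the second one. -/
def seq : Prot X Y → Prot X Y → Prot X Y
  | .out true, Q => Q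
  | .out false, _ => .out false
  | .alice q l r, Q => .alice q (seq l Q) (seq r Q)
  | .bob q l r, Q => .bob q (seq l Q) (seq r Q)

theorem run_seq (P Q : Prot X Y) (x : X) (y : Y) :
    (seq P Q).run x y = (P.run x y && Q.run x y) := by
  induction P with
  | out b => cases b <;> simp [seq, Prot.run]
  | alice q l r ihl ihr =>
    simp only [seq, Prot.run, ihl, ihr]
    cases q x <;> simp
  | bob q l r ihl ihr =>
    simp only [seq, Prot.run, ihl, ihr]
    cases q y <;> simp

theorem bits_seq (P Q : Prot X Y) : (seq P Q).bits ≤ P.bits + Q.bits := by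
  induction P with
  | out b => cases b <;> simp [seq, Prot.bits]
  | alice q l r ihl ihr =>
    simp only [seq, Prot.bits]
    omega
  | bob q l r ihl ihr =>
    simp only [seq, Prot.bits]
    omega

/-- Conjunction of a list of protocols. -/
def allP : List (Prot X Y) → Prot X Y
  | [] => .out true
  | P :: L => seq P (allP L)

theorem run_allP (L : List (Prot X Y)) (x : X) (y : Y) :
    (allP L).run x y = true ↔ ∀ P ∈ L, P.run x y = true := by
  induction L with
  | nil => simp [allP, Prot.run]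
  | cons P L ih => simp [allP, run_seq, ih]

theorem bits_allP (L : List (Prot X Y)) (b : ℕ) (h : ∀ P ∈ L, P.bits ≤ b) :
    (allP L).bits ≤ L.length * b := by
  induction L with
  | nil => simp [allP, Prot.bits]
  | cons P L ih =>
    have h1 := bits_seq P (allP L)
    have h2 := h P (by simp)
    have h3 := ih fun Q hQ => h Q (by simp [hQ])
    simp only [allP, List.length_cons]
    calc (seq P (allP L)).bits ≤ P.bits + (allP L).bits := h1
      _ ≤ b + L.length * b := by omega
      _ = (L.length + 1) * b := by ring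

end Seq

theorem count_comp_equiv {α β : Type} [Fintype α] [Fintype β] (e : α ≃ β) (P : β → Prop) :
    count (fun a => P (e a)) = count P := by
  classical
  rw [count, count, fil, fil]
  refine Finset.card_bij (fun a _ => e a) ?_ ?_ ?_
  · intro a ha; simpa using ha
  · intro a _ a' _ h; exact e.injective h
  · intro b hb
    exact ⟨e.symm b, by simpa using hb, by simp⟩

theorem count_forall {α : Type} [Fintype α] (K : ℕ) (P : α → Prop) :
    count (fun w : Fin K → α => ∀ i, P (w i)) = count P ^ K := by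
  classical
  have : fil (univ : Finset (Fin K → α)) (fun w => ∀ i, P (w i)) =
      Fintype.piFinset (fun _ : Fin K => fil univ P) := by
    ext w; simp [fil]
  rw [count, this, Fintype.card_piFinset, Finset.prod_const, Finset.card_univ, Fintype.card_fin]
  rfl

theorem count_prod {α β : Type} [Fintype α] [Fintype β] (P : α → β → Prop) :
    count (fun q : α × β => P q.1 q.2) = ∑ a, count (P a) := by
  classical
  rw [count, fil, Finset.card_filter, ← Finset.univ_product_univ, Finset.sum_product]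
  refine Finset.sum_congr rfl fun a _ => ?_
  rw [count, fil, Finset.card_filter]

/-- Coins of the new protocol. -/
noncomputable def coinEquiv (a K r : ℕ) : Str (a + K * r) ≃ Str a × (Fin K → Str r) :=
  Fintype.equivOfCardEq (by
    simp only [Fintype.card_fun, Fintype.card_fin, Fintype.card_bool, Fintype.card_prod]
    rw [pow_add, mul_comm K r, pow_mul])

theorem J_ma {X Y : Type} (F : X → Y → Bool) (c : ℕ) (h : MA F c) : SBP F ((c + 2) ^ 2) := by
  classical
  obtain ⟨a, b, hab, r, V, hV, hF⟩ := h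
  refine ⟨2 * a + 1, (a + 1) * b, ?_, a + (a + 1) * r,
    fun ω => allP (List.ofFn (fun i : Fin (a + 1) =>
      V ((coinEquiv a (a + 1) r) ω).1 (((coinEquiv a (a + 1) r) ω).2 i))),
    (1 / 2) ^ a * (2 / 3) ^ (a + 1), ?_, ?_, ?_⟩
  · nlinarith
  · intro ω
    have := bits_allP (List.ofFn (fun i : Fin (a + 1) =>
      V ((coinEquiv a (a + 1) r) ω).1 (((coinEquiv a (a + 1) r) ω).2 i))) b ?_
    · simpa using this
    · intro P hP
      rw [List.mem_ofFn] at hP
      obtain ⟨i, rfl⟩ := hP
      exact hV _ _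
  · have : (1 / 2 : ℝ) ^ (2 * a + 1) = (1 / 2) ^ a * (1 / 2) ^ (a + 1) := by
      rw [← pow_add]; congr 1; ring
    rw [this]
    apply mul_le_mul_of_nonneg_left _ (by positivity)
    exact pow_le_pow_left₀ (by norm_num) (by norm_num) _
  · intro x y
    have hcount : count (fun ω : Str (a + (a + 1) * r) =>
        (allP (List.ofFn (fun i : Fin (a + 1) =>
          V ((coinEquiv a (a + 1) r) ω).1 (((coinEquiv a (a + 1) r) ω).2 i)))).run x y = true) =
        ∑ p : Str a, count (fun w => (V p w).run x y = true) ^ (a + 1) := by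
      have e1 : (fun ω : Str (a + (a + 1) * r) =>
          (allP (List.ofFn (fun i : Fin (a + 1) =>
            V ((coinEquiv a (a + 1) r) ω).1
              (((coinEquiv a (a + 1) r) ω).2 i)))).run x y = true) =
          (fun ω => (fun q : Str a × (Fin (a + 1) → Str r) =>
            ∀ i, (V q.1 (q.2 i)).run x y = true) ((coinEquiv a (a + 1) r) ω)) := by
        funext ω
        rw [run_allP]
        simp only [List.mem_ofFn, eq_iff_iff]
        constructor
        · intro h i
          exact h _ ⟨i, rfl⟩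
        · rintro h P ⟨i, rfl⟩
          exact h i
      rw [e1, count_comp_equiv (coinEquiv a (a + 1) r) (fun q : Str a × (Fin (a + 1) → Str r) =>
            ∀ i, (V q.1 (q.2 i)).run x y = true)]
      rw [count_prod (fun (p : Str a) (w : Fin (a + 1) → Str r) =>
        ∀ i, (V p (w i)).run x y = true)]
      exact Finset.sum_congr rfl fun p _ =>
        count_forall (a + 1) (fun w => (V p w).run x y = true)
    rw [hcount]
    push_cast
    have hpow : ((1 : ℝ) / 2) ^ a * (2 / 3) ^ (a + 1) * 2 ^ (a + (a + 1) * r) =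
        ((2 / 3) * 2 ^ r) ^ (a + 1) := by
      have e2 : (2 : ℝ) ^ (a + (a + 1) * r) = 2 ^ a * (2 ^ r) ^ (a + 1) := by
        rw [pow_add, mul_comm (a + 1) r, pow_mul]
      have : ((1 : ℝ) / 2) ^ a * 2 ^ a = 1 := by rw [← mul_pow]; norm_num
      rw [e2, mul_pow]
      calc ((1 : ℝ) / 2) ^ a * (2 / 3) ^ (a + 1) * (2 ^ a * (2 ^ r) ^ (a + 1))
          = (((1 : ℝ) / 2) ^ a * 2 ^ a) * ((2 / 3) ^ (a + 1) * (2 ^ r) ^ (a + 1)) := by ring
        _ = _ := by rw [this, one_mul]
    constructor
    · intro hx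
      obtain ⟨p, hp⟩ := (hF x y).1 hx
      rw [hpow]
      have h3 : (2 / 3 : ℝ) * 2 ^ r ≤ (count (fun w => (V p w).run x y = true) : ℝ) := by
        have : ((2 * 2 ^ r : ℕ) : ℝ) ≤ ((3 * count (fun w => (V p w).run x y = true) : ℕ) : ℝ) := by
          exact_mod_cast hp
        push_cast at this
        linarith
      calc ((2 / 3 : ℝ) * 2 ^ r) ^ (a + 1)
          ≤ (count (fun w => (V p w).run x y = true) : ℝ) ^ (a + 1) :=
            pow_le_pow_left₀ (by positivity) h3 _
        _ ≤ ∑ p : Str a, (count (fun w => (V p w).run x y = true) : ℝ) ^ (a + 1) :=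
            Finset.single_le_sum (f := fun p : Str a =>
              (count (fun w => (V p w).run x y = true) : ℝ) ^ (a + 1))
              (fun _ _ => by positivity) (Finset.mem_univ p)
    · intro hx
      have h4 : ∀ p : Str a, (count (fun w => (V p w).run x y = true) : ℝ) ^ (a + 1) ≤
          ((1 / 3) * 2 ^ r) ^ (a + 1) := by
        intro p
        have hp := (hF x y).2 hx p
        have : ((3 * count (fun w => (V p w).run x y = true) : ℕ) : ℝ) ≤ ((2 ^ r : ℕ) : ℝ) := by
          exact_mod_cast hp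
        push_cast at this
        exact pow_le_pow_left₀ (by positivity) (by linarith) _
      calc ∑ p : Str a, (count (fun w => (V p w).run x y = true) : ℝ) ^ (a + 1)
          ≤ ∑ _p : Str a, ((1 / 3 : ℝ) * 2 ^ r) ^ (a + 1) := Finset.sum_le_sum fun p _ => h4 p
        _ = 2 ^ a * ((1 / 3 : ℝ) * 2 ^ r) ^ (a + 1) := by
            rw [Finset.sum_const, Finset.card_univ, nsmul_eq_mul]
            simp
        _ = ((1 : ℝ) / 2) ^ a * (2 / 3) ^ (a + 1) / 2 * 2 ^ (a + (a + 1) * r) := by
            have h5 : ((1 : ℝ) / 2) ^ a * (2 / 3) ^ (a + 1) / 2 * 2 ^ (a + (a + 1) * r) =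
                (((2 / 3) * 2 ^ r) ^ (a + 1)) / 2 := by rw [← hpow]; ring
            rw [h5]
            have h6 : (2 / 3 : ℝ) * 2 ^ r = 2 * ((1 / 3) * 2 ^ r) := by ring
            rw [h6, mul_pow 2, pow_succ (2 : ℝ) a]
            ring

end H657R2.MAAM.TaskJ
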