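import Pool.Agent.H657R2.MAAM.Defs

/-!
Task K1: transfer of protocols along maps and codes by bit strings.
-/

namespace H657R2.MAAM.TaskK1

open Finset H657R2.MAAM

variable {X Y X' Y' : Type}

/-- Pull back a protocol along maps of the inputs. -/
def comap (σ : X' → X) (τ : Y' → Y) : Prot X Y → Prot X' Y'
  | .out b => .out b
  | .alice q l r => .alice (fun x => q (σ x)) (comap σ τ l) (comap σ τ r)
  | .bob q l r => .bob (fun y => q (τ y)) (comap σ τ l) (comap σ τ r)

theorem comap_bits (σ : X' → X) (τ : Y' → Y) (π : Prot X Y) : (comap σ τ π).bits = π.bits := by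
  induction π with
  | out b => rfl
  | alice q l r hl hr => simp [comap, Prot.bits, hl, hr]
  | bob q l r hl hr => simp [comap, Prot.bits, hl, hr]

theorem comap_run (σ : X' → X) (τ : Y' → Y) (π : Prot X Y) (x : X') (y : Y') :
    (comap σ τ π).run x y = π.run (σ x) (τ y) := by
  induction π with
  | out b => rfl
  | alice q l r hl hr => simp [comap, Prot.run, hl, hr]
  | bob q l r hl hr => simp [comap, Prot.run, hl, hr]

theorem K1_am (F : X → Y → Bool) (σ : X' → X) (τ : Y' → Y) (c : ℕ) (h : AM F c) :
    AM (fun x y => F (σ x) (τ y)) c := by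
  obtain ⟨r, a, b, hc, V, hb, hV⟩ := h
  refine ⟨r, a, b, hc, fun ω p => comap σ τ (V ω p), ?_, ?_⟩
  · intro ω p
    rw [comap_bits]
    exact hb ω p
  · intro x y
    simp only [comap_run]
    exact hV (σ x) (τ y)

theorem K1_np (F : X → Y → Bool) (σ : X' → X) (τ : Y' → Y) (c : ℕ) (h : NP F c) :
    NP (fun x y => F (σ x) (τ y)) c := by
  obtain ⟨S, T, hST⟩ := h
  exact ⟨fun p x => S p (σ x), fun p y => T p (τ y), fun x y => hST (σ x) (τ y)⟩

theorem K1_sbp (F : X → Y → Bool) (σ : X' → X) (τ : Y' → Y) (hσ : Function.Surjective σ)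
    (hτ : Function.Surjective τ) (c : ℕ) (h : SBP (fun x y => F (σ x) (τ y)) c) : SBP F c := by
  obtain ⟨t, b, hc, r, V, α, hb, hα, hV⟩ := h
  obtain ⟨σ', hσ'⟩ := hσ.hasRightInverse
  obtain ⟨τ', hτ'⟩ := hτ.hasRightInverse
  refine ⟨t, b, hc, r, fun ω => comap σ' τ' (V ω), α, ?_, hα, ?_⟩
  · intro ω
    rw [comap_bits]
    exact hb ω
  · intro x y
    simp only [comap_run]
    have := hV (σ' x) (τ' y)
    simp only [hσ' x, hτ' y] at this
    exact this

/-- Bit strings are numbered. -/
theorem card_str (n : ℕ) : Fintype.card (Str n) = 2 ^ n := by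
  simp [Str]

theorem K1_surj {X : Type} [Fintype X] [Nonempty X] (n : ℕ) (h : Fintype.card X ≤ 2 ^ n) :
    ∃ σ : Str n → X, Function.Surjective σ := by
  have h1 : Fintype.card X ≤ Fintype.card (Str n) := by rw [card_str]; exact h
  obtain ⟨e⟩ := Function.Embedding.nonempty_of_card_le h1
  exact ⟨Function.invFun e, Function.invFun_surjective e.injective⟩

theorem K1_np_mono (F : X → Y → Bool) {c c' : ℕ} (h : NP F c) (hc : c ≤ c') : NP F c' := by
  obtain ⟨S, T, hST⟩ := h
  obtain ⟨σ, hσ⟩ := K1_surj (X := Str c) c'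
    (by rw [card_str]; exact Nat.pow_le_pow_right (by norm_num) hc)
  refine ⟨fun p x => S (σ p) x, fun p y => T (σ p) y, fun x y => ?_⟩
  rw [hST]
  constructor
  · rintro ⟨p, hp⟩
    obtain ⟨q, rfl⟩ := hσ p
    exact ⟨q, hp⟩
  · rintro ⟨q, hq⟩
    exact ⟨σ q, hq⟩

theorem K1_am_mono (F : X → Y → Bool) {c c' : ℕ} (h : AM F c) (hc : c ≤ c') : AM F c' := by
  obtain ⟨r, a, b, hcc, V⟩ := h
  exact ⟨r, a, b, hcc.trans hc, V⟩

theorem K1_sbp_mono (F : X → Y → Bool) {c c' : ℕ} (h : SBP F c) (hc : c ≤ c') : SBP F c' := by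
  obtain ⟨t, b, hcc, V⟩ := h
  exact ⟨t, b, hcc.trans hc, V⟩

/-- The number of `i < N` in one residue class mod `n`. -/
theorem card_mod_class (N n : ℕ) (a : Fin n) :
    n * (univ.filter (fun i : Fin N => i.val % n = a.val)).card ≤ N + n := by
  have hcard : (univ.filter (fun i : Fin N => i.val % n = a.val)).card ≤
      (Finset.range (N / n + 1)).card := by
    apply Finset.card_le_card_of_injOn (fun i : Fin N => i.val / n)
    · intro i _
      simp only [Finset.coe_range, Set.mem_Iio]
      exact Nat.lt_succ_of_le (Nat.div_le_div_right i.isLt.le)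
    · intro i hi j hj hij
      simp only [Finset.coe_filter, Finset.mem_univ, true_and, Set.mem_setOf_eq] at hi hj
      apply Fin.ext
      have h1 := Nat.div_add_mod i.val n
      have h2 := Nat.div_add_mod j.val n
      simp only at hij
      rw [hi] at h1
      rw [hj] at h2
      rw [← h1, ← h2, hij]
  rw [Finset.card_range] at hcard
  calc n * (univ.filter (fun i : Fin N => i.val % n = a.val)).card ≤ n * (N / n + 1) :=
        Nat.mul_le_mul_left n hcard
    _ = n * (N / n) + n := by ring
    _ ≤ N + n := Nat.add_le_add_right (Nat.mul_div_le N n) n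

theorem K1_fibre (r : ℕ) (X : Type) [Fintype X] [Nonempty X] (h : Fintype.card X ≤ 2 ^ r) :
    ∃ φ : Str r → X, Function.Surjective φ ∧ ∀ P : X → Prop,
      Fintype.card X * count (fun ω => P (φ ω)) ≤ 2 * 2 ^ r * count P := by
  classical
  have hn : 0 < Fintype.card X := Fintype.card_pos
  let eS : Str r ≃ Fin (2 ^ r) := Fintype.equivFinOfCardEq (card_str r)
  let eX : X ≃ Fin (Fintype.card X) := Fintype.equivFin X
  let φ : Str r → X := fun ω => eX.symm ⟨(eS ω).val % Fintype.card X, Nat.mod_lt _ hn⟩
  have hφ : ∀ ω x, φ ω = x ↔ (eS ω).val % Fintype.card X = (eX x).val := by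
    intro ω x
    simp only [φ, Equiv.symm_apply_eq]
    rw [Fin.ext_iff]
  refine ⟨φ, ?_, ?_⟩
  · intro x
    refine ⟨eS.symm ⟨(eX x).val, lt_of_lt_of_le (eX x).isLt h⟩, ?_⟩
    rw [hφ]
    simp [Nat.mod_eq_of_lt (eX x).isLt]
  · intro P
    have hfib : ∀ x : X, Fintype.card X * (univ.filter (fun ω => φ ω = x)).card ≤ 2 * 2 ^ r := by
      intro x
      have h1 : (univ.filter (fun ω => φ ω = x)).card ≤
          (univ.filter (fun i : Fin (2 ^ r) => i.val % Fintype.card X = (eX x).val)).card := by
        apply Finset.card_le_card_of_injOn eS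
        · intro ω hω
          simp only [Finset.coe_filter, Finset.mem_univ, true_and, Set.mem_setOf_eq] at hω ⊢
          exact (hφ ω x).mp hω
        · exact eS.injective.injOn
      calc Fintype.card X * (univ.filter (fun ω => φ ω = x)).card
          ≤ Fintype.card X *
            (univ.filter (fun i : Fin (2 ^ r) => i.val % Fintype.card X = (eX x).val)).card :=
            Nat.mul_le_mul_left _ h1
        _ ≤ 2 ^ r + Fintype.card X := card_mod_class _ _ (eX x)
        _ ≤ 2 * 2 ^ r := by omega
    have hsum : count (fun ω => P (φ ω)) =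
        ∑ x ∈ univ.filter P, (univ.filter (fun ω => φ ω = x)).card := by
      have h0 : count (fun ω => P (φ ω)) = (univ.filter (fun ω => P (φ ω))).card := by
        unfold count fil
        congr
      rw [h0, Finset.card_eq_sum_card_fiberwise (f := φ) (t := univ.filter P)]
      · apply Finset.sum_congr rfl
        intro x hx
        congr 1
        ext ω
        simp only [Finset.mem_filter, Finset.mem_univ, true_and] at hx ⊢
        constructor
        · exact fun h => h.2
        · intro h
          exact ⟨by rw [h]; exact hx, h⟩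
      · intro ω hω
        simpa using hω
    have hP : count P = (univ.filter P).card := by
      unfold count fil
      congr
    rw [hsum, hP, Finset.mul_sum]
    calc ∑ x ∈ univ.filter P, Fintype.card X * (univ.filter (fun ω => φ ω = x)).card
        ≤ ∑ x ∈ univ.filter P, 2 * 2 ^ r := Finset.sum_le_sum fun x _ => hfib x
      _ = 2 * 2 ^ r * (univ.filter P).card := by
        rw [Finset.sum_const, smul_eq_mul, mul_comm]

end H657R2.MAAM.TaskK1
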