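import Pool.Agent.H657R2.MAAM.TaskA
import Pool.Agent.H657R2.MAAM.TaskB
import Pool.Agent.H657R2.MAAM.TaskC
import Pool.Agent.H657R2.MAAM.TaskE
import Pool.Agent.H657R2.MAAM.TaskF
import Pool.Agent.H657R2.MAAM.TaskH
import Pool.Agent.H657R2.MAAM.TaskI
import Pool.Agent.H657R2.MAAM.TaskJ
import Pool.Agent.H657R2.MAAM.TaskK1

/-!
The statements proved in the task files, collected.
-/

namespace H657R2.MAAM

open Finset

/-! ## Task A -/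
section TaskA
variable {J : Type} [Fintype J] [DecidableEq J] {m : ℕ}

theorem A_decomp (D c : ℕ) (hD : 2 ≤ D) (hm : m = D ^ 2) (X' : Finset (J → Fin m)) :
    ∃ (ι : Type) (_ : Fintype ι) (I : ι → Finset J) (α : ι → J → Fin m)
      (X : ι → Finset (J → Fin m)) (L : Finset (J → Fin m)),
      (∀ i, (I i).card ≤ c) ∧ (∀ i, ∀ x ∈ X i, ∀ j ∈ I i, x j = α i j) ∧
      (∀ i, Dense D (I i) (X i)) ∧ 2 ^ c * L.card ≤ m ^ Fintype.card J ∧
      ∀ f : (J → Fin m) → ℝ, ∑ x ∈ X', f x = ∑ i, ∑ x ∈ X i, f x + ∑ x ∈ L, f x :=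
  TaskA.A_decomp D c hD hm X'

end TaskA

/-! ## Task B -/
section TaskB
variable {J : Type} [Fintype J] [DecidableEq J] {m : ℕ}

theorem B_moment (D k : ℕ) (I : Finset J) (X : Finset (J → Fin m)) (hX : Dense D I X)
    (S : Finset J) (hS : Disjoint S I) :
    (D : ℝ) ^ (k * S.card) *
        ∑ y : J → Fin m → Bool, (∑ x ∈ X, ∏ j ∈ S, sgn (y j (x j))) ^ (2 * k) ≤
      ((2 * k : ℕ) : ℝ) ^ (2 * k * S.card) * (X.card : ℝ) ^ (2 * k) *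
        2 ^ (m * Fintype.card J) :=
  TaskB.B_moment D k I X hX S hS

end TaskB

/-! ## Task C -/
section TaskC
variable {J : Type} [Fintype J] [DecidableEq J] {m : ℕ}

/-- `N = card J`, moment `2k = 4N`, `T = 64 N`, `D = (4 N * 64 N) ^ 2`. -/
theorem C_piece (hJ : 1 ≤ Fintype.card J)
    (I : Finset J) (X : Finset (J → Fin m))
    (hX : Dense ((4 * Fintype.card J * (64 * Fintype.card J)) ^ 2) I X)
    (Y : Finset (J → Fin m → Bool))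
    (hY : 2 ^ (m * Fintype.card J) ≤ Y.card * 2 ^ (4 * Fintype.card J)) (z : J → Bool) :
    |(2 : ℝ) ^ (Fintype.card J - I.card) *
        ∑ x ∈ X, ((fil Y (fun y => ∀ j, j ∉ I → y j (x j) = z j)).card : ℝ) -
      (X.card : ℝ) * Y.card| ≤ 1 / 16 * ((X.card : ℝ) * Y.card) :=
  TaskC.C_piece' (fun D k I X hX S hS => TaskB.B_moment D k I X hX S hS) hJ I X hX Y hY z

end TaskC


/-! ## Task E -/
section TaskE

theorem E_rows (p M M' : ℕ) [Fact p.Prime] (hM' : 1 ≤ M') (hM : M = 2 * p * M') :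
    ∃ (D₁ D₂ : Row p M → ℝ) (D₃ : ZMod p → Row p M → ℝ),
      (∀ z, 0 ≤ D₁ z) ∧ (∀ z, 0 ≤ D₂ z) ∧ (∀ v z, 0 ≤ D₃ v z) ∧
      ∑ z, D₁ z = 1 ∧ ∑ z, D₂ z = 1 ∧ (∀ v, ∑ z, D₃ v z = 1) ∧
      (∀ z, D₁ z ≠ 0 → ∀ u, RowSol z u → u = 0) ∧
      (∀ z, D₂ z ≠ 0 → ∀ u, RowSol z u → u = 0) ∧
      (∀ v z, D₃ v z ≠ 0 → ∀ u, RowSol z u → u = v) ∧
      ∀ (Q : Finset (Fin (2 * M))) (τ : Row p M),
        (Set.InjOn (fun b => (τ b).1) (Q : Set (Fin (2 * M))) → ∀ v,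
          ∑ z ∈ fil univ (fun z => ∀ b ∈ Q, z b = τ b), D₁ z ≤
            ∑ z ∈ fil univ (fun z => ∀ b ∈ Q, z b = τ b), D₃ v z) ∧
        (1 - (Q.card : ℝ) ^ 2 / M') * ∑ z ∈ fil univ (fun z => ∀ b ∈ Q, z b = τ b), D₁ z ≤
            ∑ z ∈ fil univ (fun z => ∀ b ∈ Q, z b = τ b), D₂ z ∧
        (¬ Set.InjOn (fun b => (τ b).1) (Q : Set (Fin (2 * M))) →
          (1 - (Q.card : ℝ) ^ 2 / M') * (2 * p) *
            ∑ z ∈ fil univ (fun z => ∀ b ∈ Q, z b = τ b), D₁ z ≤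
            ∑ z ∈ fil univ (fun z => ∀ b ∈ Q, z b = τ b), D₂ z) :=
  TaskE.E_rows p M M' hM' hM

/-- Pigeonhole. -/
theorem E_total {p M : ℕ} (hM : 1 ≤ M) (z : Row p M) : ∃ v, RowSol z v :=
  TaskE.E_total hM z

end TaskE

/-! ## Task F -/
section TaskF

theorem F_zeros {p m k : ℕ} [Fact p.Prime] (hk : 1 ≤ k) (P : Pt p m → ZMod p) (hP : Code k P)
    (hne : P ≠ 0) : p * count (fun a => P a = 0) ≤ m * (k - 1) * p ^ m :=
  TaskF.F_zeros hk P hP hne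

theorem F_card {p m k : ℕ} [Fact p.Prime] (hk : 1 ≤ k) (hkp : k ≤ p) :
    p ^ (k ^ m) ≤ count (fun P : Pt p m → ZMod p => Code k P) :=
  TaskF.F_card hk hkp

theorem F_restrict {p m k : ℕ} [Fact p.Prime] (T : Finset (Pt p m)) :
    count (fun P : Pt p m → ZMod p => Code k P) ≤
      p ^ T.card * count (fun P : Pt p m → ZMod p => Code k P ∧ ∀ a ∈ T, P a = 0) :=
  TaskF.F_restrict T

end TaskF


/-! ## Task H -/
section TaskH

theorem H_struct {p m k M : ℕ} (hM : 1 ≤ M) (z : Inp p m M) (hz : ¬ Viol k z) :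
    ∃ P : Pt p m → ZMod p, Code k P ∧ ∀ a v, RowSol (z a) v ↔ v = P a :=
  TaskH.H_struct hM z hz

theorem H_sound {p m k M : ℕ} [Fact p.Prime] (hM : 1 ≤ M) (hk : 1 ≤ k) (z : Inp p m M)
    (hz : ¬ Good k z) :
    ¬ Viol k z ∧ p * count (fun a => RowSol (z a) 0) ≤ m * (k - 1) * p ^ m :=
  TaskH.H_sound' hM (fun P hP hne => TaskF.F_zeros hk P hP hne) z hz

/-- `Good` is the disjunction of an NP predicate and the negation of an NP predicate. -/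
theorem H_dp {p m k M : ℕ} (hM : 1 ≤ M) (z : Inp p m M) :
    Good k z ↔ (Viol k z ∨ ¬ ∃ a v, v ≠ 0 ∧ RowSol (z a) v) :=
  TaskH.H_dp hM z

end TaskH

/-! ## Task I -/
section TaskI

/-- Certificates are verified by Alice and Bob with two bits. -/
theorem I_cert {p m M β s e₀ g : ℕ} {E : Type} [Fintype E] [Nonempty E]
    (hE : Fintype.card E ≤ 2 ^ e₀)
    (C : Cert p m M s E) (dec : Str β → Sym p M) {mg : ℕ} [NeZero mg] (hg : mg ≤ 2 ^ g) :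
    ∃ V : Str (e₀ + s * β * g) → Prot (Jt p m M β → Fin mg) (Jt p m M β → Fin mg → Bool),
      (∀ q, (V q).bits ≤ 2) ∧
      ∀ x y, (∃ q, (V q).run x y = true) ↔ C.holds (toInp dec (gad x y)) :=
  TaskI.I_cert hE C dec hg

/-- The same as a cover by rectangles. -/
theorem I_np {p m M β s e₀ g : ℕ} {E : Type} [Fintype E] [Nonempty E]
    (hE : Fintype.card E ≤ 2 ^ e₀)
    (C : Cert p m M s E) (dec : Str β → Sym p M) {mg : ℕ} [NeZero mg] (hg : mg ≤ 2 ^ g)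
    (G : (Jt p m M β → Fin mg) → (Jt p m M β → Fin mg → Bool) → Bool)
    (hG : ∀ x y, G x y = true ↔ C.holds (toInp dec (gad x y))) :
    NP G (e₀ + s * β * g) :=
  TaskI.I_np hE C dec hg G hG

/-- Certificates for violations. -/
theorem I_viol (p m k M : ℕ) [Fact p.Prime] (hm : 1 ≤ m) (hM : 1 ≤ M) :
    ∃ (E : Type) (_ : Fintype E) (_ : Nonempty E) (C : Cert p m M (2 * p) E),
      Fintype.card E ≤ 2 * (m * p ^ m * (2 * M) ^ (2 * p)) ∧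
      ∀ z : Inp p m M, C.holds z ↔ Viol k z :=
  TaskI.I_viol p m k M hm hM

/-- Certificates for violations or a zero in row `a`. -/
theorem I_zero (p m k M : ℕ) [Fact p.Prime] (hm : 1 ≤ m) (hM : 1 ≤ M) (a : Pt p m) :
    ∃ (E : Type) (_ : Fintype E) (_ : Nonempty E) (C : Cert p m M (2 * p) E),
      Fintype.card E ≤ 3 * (m * p ^ m * (2 * M) ^ (2 * p)) ∧
      ∀ z : Inp p m M, C.holds z ↔ (Viol k z ∨ RowSol (z a) 0) :=
  TaskI.I_zero p m k M hm hM a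

/-- Certificates for a nonzero value. -/
theorem I_nonzero (p m M : ℕ) [Fact p.Prime] (hM : 1 ≤ M) :
    ∃ (E : Type) (_ : Fintype E) (_ : Nonempty E) (C : Cert p m M (2 * p) E),
      Fintype.card E ≤ p ^ m * (2 * M) ^ (2 * p) ∧
      ∀ z : Inp p m M, C.holds z ↔ ∃ a v, v ≠ 0 ∧ RowSol (z a) v :=
  TaskI.I_nonzero p m M hM

end TaskI

/-! ## Task J -/
section TaskJ

theorem J_rect {X Y : Type} [Fintype X] [Fintype Y] (π : Prot X Y) :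
    ∃ (ι : Type) (_ : Fintype ι) (A : ι → Finset X) (B : ι → Finset Y),
      Fintype.card ι ≤ 2 ^ π.bits ∧
      ∀ μ : X → Y → ℝ, (∑ x, ∑ y, if π.run x y = true then μ x y else 0) =
        ∑ i, ∑ x ∈ A i, ∑ y ∈ B i, μ x y :=
  TaskJ.J_rect π

theorem J_sbp {X Y : Type} [Fintype X] [Fintype Y] (F : X → Y → Bool) (c : ℕ)
    (μ₀ μ₁ : X → Y → ℝ) (h0 : ∀ x y, 0 ≤ μ₀ x y) (h1 : ∀ x y, 0 ≤ μ₁ x y)
    (hs0 : ∑ x, ∑ y, μ₀ x y = 1) (hs1 : ∑ x, ∑ y, μ₁ x y = 1)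
    (hf0 : ∀ x y, μ₀ x y ≠ 0 → F x y = false) (hf1 : ∀ x y, μ₁ x y ≠ 0 → F x y = true)
    (hdom : ∀ (A : Finset X) (B : Finset Y),
      4 / 5 * ∑ x ∈ A, ∑ y ∈ B, μ₁ x y - (1 / 2) ^ (c + 2) ≤ ∑ x ∈ A, ∑ y ∈ B, μ₀ x y) :
    ¬ SBP F c :=
  TaskJ.J_sbp F c μ₀ μ₁ h0 h1 hs0 hs1 hf0 hf1 hdom

theorem J_ma {X Y : Type} (F : X → Y → Bool) (c : ℕ) (h : MA F c) : SBP F ((c + 2) ^ 2) :=
  TaskJ.J_ma F c h

end TaskJ

end H657R2.MAAM
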