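import Pool.Agent.H657R2.MAAM.Defs

/-!
Task A: greedy density decomposition.
-/

namespace H657R2.MAAM.TaskA

open Finset H657R2.MAAM

section TaskA
variable {J : Type} [Fintype J] [DecidableEq J] {m : ℕ}

theorem card_fix (I : Finset J) (α : J → Fin m) (X : Finset (J → Fin m)) :
    (fil X (fun x => ∀ j ∈ I, x j = α j)).card * m ^ I.card ≤ m ^ Fintype.card J := by
  classical
  have h1 : fil X (fun x => ∀ j ∈ I, x j = α j) ⊆
      Fintype.piFinset (fun j => if j ∈ I then {α j} else (univ : Finset (Fin m))) := by
    intro x hx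
    rw [mem_fil] at hx
    rw [Fintype.mem_piFinset]
    intro j
    by_cases hj : j ∈ I
    · rw [if_pos hj, mem_singleton]
      exact hx.2 j hj
    · rw [if_neg hj]
      exact mem_univ _
  have h2 := card_le_card h1
  rw [Fintype.card_piFinset] at h2
  have h3 : (∏ j, (if j ∈ I then {α j} else (univ : Finset (Fin m))).card) * m ^ I.card =
      m ^ Fintype.card J := by
    have h4 : m ^ I.card = ∏ j, if j ∈ I then m else 1 := by
      rw [prod_ite_mem, univ_inter, prod_const]
    rw [h4, ← prod_mul_distrib]
    rw [← card_univ, ← prod_const]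
    apply prod_congr rfl
    intro j _
    by_cases hj : j ∈ I
    · rw [if_pos hj, if_pos hj, card_singleton, one_mul]
    · rw [if_neg hj, if_neg hj, mul_one, card_univ, Fintype.card_fin]
  calc (fil X (fun x => ∀ j ∈ I, x j = α j)).card * m ^ I.card
      ≤ (∏ j, (if j ∈ I then {α j} else (univ : Finset (Fin m))).card) * m ^ I.card :=
        Nat.mul_le_mul_right _ h2
    _ = _ := h3

theorem A_decomp (D c : ℕ) (hD : 2 ≤ D) (hm : m = D ^ 2) (X' : Finset (J → Fin m)) :
    ∃ (ι : Type) (_ : Fintype ι) (I : ι → Finset J) (α : ι → J → Fin m)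
      (X : ι → Finset (J → Fin m)) (L : Finset (J → Fin m)),
      (∀ i, (I i).card ≤ c) ∧ (∀ i, ∀ x ∈ X i, ∀ j ∈ I i, x j = α i j) ∧
      (∀ i, Dense D (I i) (X i)) ∧ 2 ^ c * L.card ≤ m ^ Fintype.card J ∧
      ∀ f : (J → Fin m) → ℝ, ∑ x ∈ X', f x = ∑ i, ∑ x ∈ X i, f x + ∑ x ∈ L, f x := by
  classical
  induction hn : X'.card using Nat.strong_induction_on generalizing X' with
  | _ n ih =>
  by_cases hsmall : 2 ^ c * X'.card ≤ m ^ Fintype.card J
  · refine ⟨Empty, inferInstance, fun i => i.elim, fun i => i.elim, fun i => i.elim, X',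
      fun i => i.elim, fun i => i.elim, fun i => i.elim, hsmall, ?_⟩
    intro f
    simp
  push Not at hsmall
  have hXpos : 0 < X'.card := by
    rcases Nat.eq_zero_or_pos X'.card with h | h
    · rw [h] at hsmall
      simp at hsmall
    · exact h
  obtain ⟨x0, hx0⟩ := card_pos.1 hXpos
  let Q : Finset (Finset J × (J → Fin m)) := univ.filter fun q =>
    X'.card ≤ D ^ q.1.card * (fil X' (fun x => ∀ j ∈ q.1, x j = q.2 j)).card
  have hQ : Q.Nonempty := by
    refine ⟨(∅, x0), ?_⟩
    rw [mem_filter]
    refine ⟨mem_univ _, ?_⟩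
    have : fil X' (fun x => ∀ j ∈ (∅ : Finset J), x j = x0 j) = X' := by
      ext x
      simp
    simp only
    rw [this, card_empty, pow_zero, one_mul]
  obtain ⟨⟨I, α⟩, hmem, hmax⟩ := exists_max_image Q (fun q => q.1.card) hQ
  rw [mem_filter] at hmem
  replace hmem := hmem.2
  simp only at hmem hmax
  set X0 := fil X' (fun x => ∀ j ∈ I, x j = α j) with hX0
  have hX0pos : 0 < X0.card := by
    rcases Nat.eq_zero_or_pos X0.card with h | h
    · rw [h, mul_zero] at hmem
      omega
    · exact h
  have hDpos : 0 < D := by omega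
  have hmpos : 0 < m := by
    rw [hm]
    positivity
  have hIc : I.card ≤ c := by
    by_contra hcon
    push Not at hcon
    have h1 := card_fix I α X'
    have h2 : m ^ Fintype.card J * m ^ I.card < 2 ^ c * D ^ I.card * m ^ Fintype.card J := by
      calc m ^ Fintype.card J * m ^ I.card < 2 ^ c * X'.card * m ^ I.card :=
            Nat.mul_lt_mul_of_pos_right hsmall (pow_pos hmpos _)
        _ ≤ 2 ^ c * (D ^ I.card * X0.card) * m ^ I.card := by
            apply Nat.mul_le_mul_right
            exact Nat.mul_le_mul_left _ hmem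
        _ = 2 ^ c * D ^ I.card * (X0.card * m ^ I.card) := by ring
        _ ≤ 2 ^ c * D ^ I.card * m ^ Fintype.card J := Nat.mul_le_mul_left _ h1
    rw [mul_comm (m ^ Fintype.card J)] at h2
    have h3 : m ^ I.card < 2 ^ c * D ^ I.card := lt_of_mul_lt_mul_right h2 (Nat.zero_le _)
    have h4 : m ^ I.card = D ^ I.card * D ^ I.card := by
      rw [hm, ← pow_mul, ← pow_add]
      congr 1
      ring
    rw [h4] at h3
    have h5 : D ^ I.card < 2 ^ c := lt_of_mul_lt_mul_right h3 (Nat.zero_le _)
    have h6 : 2 ^ I.card ≤ D ^ I.card := Nat.pow_le_pow_left hD _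
    have h7 : 2 ^ c ≤ 2 ^ I.card := Nat.pow_le_pow_right (by norm_num) hcon.le
    omega
  have hdense : Dense D I X0 := by
    intro S hS s
    by_contra hcon
    push Not at hcon
    have hset : fil X' (fun x => ∀ j ∈ I ∪ S, x j = (if j ∈ S then s j else α j)) =
        fil X0 (fun x => ∀ j ∈ S, x j = s j) := by
      ext x
      rw [hX0]
      simp only [mem_fil]
      constructor
      · rintro ⟨h1, h2⟩
        refine ⟨⟨h1, ?_⟩, ?_⟩
        · intro j hj
          have := h2 j (mem_union_left _ hj)
          rwa [if_neg (fun hjS => (disjoint_left.1 hS hjS) hj)] at this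
        · intro j hj
          have := h2 j (mem_union_right _ hj)
          rwa [if_pos hj] at this
      · rintro ⟨⟨h1, h2⟩, h3⟩
        refine ⟨h1, ?_⟩
        intro j hj
        by_cases hjS : j ∈ S
        · rw [if_pos hjS]
          exact h3 j hjS
        · rw [if_neg hjS]
          rw [mem_union] at hj
          exact h2 j (hj.resolve_right hjS)
    have hcard : (I ∪ S).card = I.card + S.card := card_union_of_disjoint hS.symm
    have hQ' : (I ∪ S, fun j => if j ∈ S then s j else α j) ∈ Q := by
      rw [mem_filter]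
      refine ⟨mem_univ _, ?_⟩
      simp only
      rw [hset, hcard, pow_add]
      calc X'.card ≤ D ^ I.card * X0.card := hmem
        _ ≤ D ^ I.card * ((fil X0 (fun x => ∀ j ∈ S, x j = s j)).card * D ^ S.card) :=
            Nat.mul_le_mul_left _ hcon.le
        _ = _ := by ring
    have h1 := hmax _ hQ'
    simp only at h1
    rw [hcard] at h1
    have h2 : S = ∅ := by
      rw [← card_eq_zero]
      omega
    subst h2
    have h3 : fil X0 (fun x => ∀ j ∈ (∅ : Finset J), x j = s j) = X0 := by
      ext x
      simp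
    rw [h3] at hcon
    simp at hcon
  have hsub : X0 ⊆ X' := by
    intro x hx
    rw [hX0, mem_fil] at hx
    exact hx.1
  have hlt : (X' \ X0).card < n := by
    rw [card_sdiff_of_subset hsub]
    omega
  obtain ⟨ι, hι, I', α', X'', L, h1, h2, h3, h4, h5⟩ := ih _ hlt (X' \ X0) rfl
  refine ⟨Option ι, inferInstance, fun i => i.elim I I', fun i => i.elim α α',
    fun i => i.elim X0 X'', L, ?_, ?_, ?_, h4, ?_⟩
  · intro i
    cases i with
    | none => exact hIc
    | some i => exact h1 i
  · intro i
    cases i with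
    | none =>
      intro x hx j hj
      have hx' : x ∈ X0 := hx
      rw [hX0, mem_fil] at hx'
      exact hx'.2 j hj
    | some i => exact h2 i
  · intro i
    cases i with
    | none => exact hdense
    | some i => exact h3 i
  · intro f
    rw [Fintype.sum_option]
    have h6 := h5 f
    have h7 := sum_sdiff (f := f) hsub
    rw [← h7, h6]
    simp only [Option.elim]
    ring

end TaskA

end H657R2.MAAM.TaskA
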