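import Pool.Agent.H657R2.MAAM.Proved

namespace H657R2.MAAM.TaskD

open Finset

variable {J : Type} [Fintype J] [DecidableEq J] {m : ℕ}

theorem card_fix (a : Fin m) (b : Bool) :
    (univ.filter (fun u : Fin m → Bool => u a = b)).card = 2 ^ (m - 1) := by
  classical
  have h : (univ.filter (fun u : Fin m → Bool => u a = b)) =
      Fintype.piFinset (fun i => if i = a then ({b} : Finset Bool) else univ) := by
    ext u
    simp only [mem_filter, mem_univ, true_and, Fintype.mem_piFinset]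
    constructor
    · intro h i
      by_cases hi : i = a
      · subst hi; simp [h]
      · simp [hi]
    · intro h
      have := h a
      simpa using this
  rw [h, Fintype.card_piFinset]
  have h2 : ∀ i : Fin m, (if i = a then ({b} : Finset Bool) else univ).card =
      if i = a then 1 else 2 := by
    intro i; by_cases hi : i = a <;> simp [hi]
  simp_rw [h2]
  rw [Finset.prod_ite]
  simp [Finset.filter_ne', Finset.card_erase_of_mem]

theorem card_fibre (x : J → Fin m) (z : J → Bool) :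
    (univ.filter (fun y : J → Fin m → Bool => gad x y = z)).card =
      2 ^ ((m - 1) * Fintype.card J) := by
  classical
  have h : (univ.filter (fun y : J → Fin m → Bool => gad x y = z)) =
      Fintype.piFinset (fun j => univ.filter (fun u : Fin m → Bool => u (x j) = z j)) := by
    ext y
    simp only [mem_filter, mem_univ, true_and, Fintype.mem_piFinset, gad]
    constructor
    · intro h j; exact congrFun h j
    · intro h; funext j; exact h j
  rw [h, Fintype.card_piFinset]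
  simp_rw [card_fix]
  simp [pow_mul]

theorem sum_gad (ν : (J → Bool) → ℝ) (x : J → Fin m) :
    ∑ y : J → Fin m → Bool, ν (gad x y) = 2 ^ ((m - 1) * Fintype.card J) * ∑ z, ν z := by
  classical
  have h : ∀ y : J → Fin m → Bool, ν (gad x y) = ∑ z, if gad x y = z then ν z else 0 := by
    intro y; simp
  simp_rw [h]
  rw [Finset.sum_comm, Finset.mul_sum]
  refine Finset.sum_congr rfl (fun z _ => ?_)
  rw [← Finset.sum_filter, Finset.sum_const, card_fibre]
  simp

theorem D_lift (c : ℕ) (hJ : 1 ≤ Fintype.card J) (hc : c + 1 ≤ 3 * Fintype.card J)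
    (hm : m = (4 * Fintype.card J * (64 * Fintype.card J)) ^ 4)
    (ν₀ ν₁ : (J → Bool) → ℝ) (h0 : ∀ z, 0 ≤ ν₀ z) (h1 : ∀ z, 0 ≤ ν₁ z) (hs : ∑ z, ν₁ z = 1)
    (hdom : ∀ Q : Finset J, Q.card ≤ c + 1 → ∀ h : (J → Bool) → ℝ, (∀ z, 0 ≤ h z) →
      DependsOn' Q h → 15 / 16 * ∑ z, ν₁ z * h z ≤ ∑ z, ν₀ z * h z)
    (X' : Finset (J → Fin m)) (Y' : Finset (J → Fin m → Bool)) :
    4 / 5 * mass ν₁ X' Y' - (1 / 2) ^ c ≤ mass ν₀ X' Y' := by
  classical
  set N := Fintype.card J with hN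
  set KT := 4 * N * (64 * N) with hKT
  have hKT1 : 2 ≤ KT := by rw [hKT]; nlinarith
  have hD : 2 ≤ KT ^ 2 := by nlinarith
  have hmD : m = (KT ^ 2) ^ 2 := by rw [hm]; ring
  have hm1 : 1 ≤ m := by rw [hmD]; exact Nat.one_le_pow _ _ (by positivity)
  obtain ⟨ι, _, I, α, X, L, hI, hα, hdense, hL, hsum⟩ := A_decomp (KT ^ 2) (c + 1) hD hmD X'
  -- notation
  set Yz : ι → (J → Bool) → Finset (J → Fin m → Bool) :=
    fun i z => fil Y' (fun y => ∀ j ∈ I i, y j (α i j) = z j) with hYz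
  set cnt : ι → (J → Bool) → ℝ :=
    fun i z => ∑ x ∈ X i, ((fil Y' (fun y => gad x y = z)).card : ℝ) with hcnt
  set h : ι → (J → Bool) → ℝ := fun i z =>
    if 2 ^ (m * N) ≤ (Yz i z).card * 2 ^ (4 * N) then
      ((X i).card : ℝ) * (Yz i z).card / 2 ^ (N - (I i).card) else 0 with hh
  have hcnt' : ∀ i z, cnt i z = ∑ x ∈ X i,
      ((fil (Yz i z) (fun y => ∀ j, j ∉ I i → y j (x j) = z j)).card : ℝ) := by
    intro i z
    refine Finset.sum_congr rfl (fun x hx => ?_)
    congr 2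
    ext y
    simp only [mem_fil, hYz, gad]
    constructor
    · rintro ⟨hy, hz⟩
      refine ⟨⟨hy, fun j hj => ?_⟩, fun j _ => congrFun hz j⟩
      rw [← hα i x hx j hj]; exact congrFun hz j
    · rintro ⟨⟨hy, h1⟩, h2⟩
      refine ⟨hy, ?_⟩
      funext j
      by_cases hj : j ∈ I i
      · show y j (x j) = z j
        rw [hα i x hx j hj]; exact h1 j hj
      · exact h2 j hj
  have hpiece : ∀ i z, 2 ^ (m * N) ≤ (Yz i z).card * 2 ^ (4 * N) →
      |(2 : ℝ) ^ (N - (I i).card) * cnt i z - ((X i).card : ℝ) * (Yz i z).card| ≤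
        1 / 16 * (((X i).card : ℝ) * (Yz i z).card) := by
    intro i z hb
    rw [hcnt']
    exact C_piece hJ (I i) (X i) (hdense i) (Yz i z) hb z
  have hupper : ∀ i z, cnt i z ≤ 17 / 16 * h i z + ((X i).card : ℝ) * 2 ^ (m * N) / 2 ^ (4 * N) := by
    intro i z
    by_cases hb : 2 ^ (m * N) ≤ (Yz i z).card * 2 ^ (4 * N)
    · have h2 := (abs_le.mp (hpiece i z hb)).2
      have h3 : cnt i z ≤ 17 / 16 * h i z := by
        simp only [hh, if_pos hb]
        rw [← mul_div_assoc, le_div_iff₀ (by positivity)]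
        linarith
      have h4 : (0 : ℝ) ≤ ((X i).card : ℝ) * 2 ^ (m * N) / 2 ^ (4 * N) := by positivity
      linarith
    · have h2 : cnt i z ≤ ((X i).card : ℝ) * (Yz i z).card := by
        rw [hcnt', ← nsmul_eq_mul]
        refine Finset.sum_le_card_nsmul _ _ _ (fun x _ => ?_)
        have : (fil (Yz i z) (fun y => ∀ j, j ∉ I i → y j (x j) = z j)).card ≤ (Yz i z).card :=
          Finset.card_le_card (fun y hy => (mem_fil.mp hy).1)
        exact_mod_cast this
      have h3 : ((Yz i z).card : ℝ) ≤ 2 ^ (m * N) / 2 ^ (4 * N) := by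
        rw [le_div_iff₀ (by positivity)]
        push Not at hb
        have := hb.le
        exact_mod_cast this
      simp only [hh, if_neg hb]
      calc cnt i z ≤ ((X i).card : ℝ) * (Yz i z).card := h2
        _ ≤ ((X i).card : ℝ) * (2 ^ (m * N) / 2 ^ (4 * N)) := by gcongr
        _ = _ := by ring
  have hlower : ∀ i z, 15 / 16 * h i z ≤ cnt i z := by
    intro i z
    by_cases hb : 2 ^ (m * N) ≤ (Yz i z).card * 2 ^ (4 * N)
    · have h2 := (abs_le.mp (hpiece i z hb)).1
      simp only [hh, if_pos hb]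
      rw [← mul_div_assoc, div_le_iff₀ (by positivity)]
      linarith
    · have h3 : h i z = 0 := if_neg hb
      rw [h3, mul_zero]
      exact Finset.sum_nonneg (fun x _ => Nat.cast_nonneg _)
  have hhpos : ∀ i z, 0 ≤ h i z := by
    intro i z
    simp only [hh]
    split_ifs <;> positivity
  have hdep : ∀ i, DependsOn' (I i) (h i) := by
    intro i z z' hzz
    have : Yz i z = Yz i z' := by
      refine Finset.ext (fun y => ?_)
      show y ∈ fil Y' (fun y => ∀ j ∈ I i, y j (α i j) = z j) ↔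
        y ∈ fil Y' (fun y => ∀ j ∈ I i, y j (α i j) = z' j)
      rw [mem_fil, mem_fil]
      constructor
      · rintro ⟨hy, hq⟩
        exact ⟨hy, fun j hj => by rw [hq j hj, hzz j hj]⟩
      · rintro ⟨hy, hq⟩
        exact ⟨hy, fun j hj => by rw [hq j hj, hzz j hj]⟩
    show (if 2 ^ (m * N) ≤ (Yz i z).card * 2 ^ (4 * N) then
      ((X i).card : ℝ) * (Yz i z).card / 2 ^ (N - (I i).card) else 0) =
      (if 2 ^ (m * N) ≤ (Yz i z').card * 2 ^ (4 * N) then
      ((X i).card : ℝ) * (Yz i z').card / 2 ^ (N - (I i).card) else 0)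
    rw [this]
  -- regroup
  have hregroup : ∀ ν : (J → Bool) → ℝ, ∀ i, ∑ x ∈ X i, ∑ y ∈ Y', ν (gad x y) =
      ∑ z, ν z * cnt i z := by
    intro ν i
    simp only [hcnt, Finset.mul_sum]
    rw [Finset.sum_comm (s := univ)]
    refine Finset.sum_congr rfl (fun x _ => ?_)
    have h2 : ∀ y : J → Fin m → Bool, ν (gad x y) = ∑ z, if gad x y = z then ν z else 0 := by
      intro y; simp
    simp_rw [h2]
    rw [Finset.sum_comm]
    refine Finset.sum_congr rfl (fun z _ => ?_)
    rw [← Finset.sum_filter, Finset.sum_const, nsmul_eq_mul, mul_comm]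
    congr 2
    refine Finset.card_bij (fun y _ => y) ?_ ?_ ?_
    · intro y hy; rw [Finset.mem_filter] at hy; exact mem_fil.mpr hy
    · intro a _ b _ hab; exact hab
    · intro y hy; exact ⟨y, Finset.mem_filter.mpr (mem_fil.mp hy), rfl⟩
  set Z : ℝ := (m : ℝ) ^ N * 2 ^ ((m - 1) * N) with hZ
  have hZpos : 0 < Z := by positivity
  set E₁ : ℝ := ∑ i, ∑ z, ν₁ z * h i z with hE₁
  have hE₁pos : 0 ≤ E₁ := Finset.sum_nonneg (fun i _ => Finset.sum_nonneg (fun z _ =>
    mul_nonneg (h1 z) (hhpos i z)))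
  have hcardX : (∑ i, ((X i).card : ℝ)) ≤ (m : ℝ) ^ N := by
    have h2 := hsum (fun _ => 1)
    simp only [Finset.sum_const, nsmul_eq_mul, mul_one] at h2
    have h3 : (X'.card : ℝ) ≤ (m : ℝ) ^ N := by
      have : X'.card ≤ m ^ N := by
        calc X'.card ≤ Fintype.card (J → Fin m) := Finset.card_le_univ _
          _ = m ^ N := by simp [hN]
      exact_mod_cast this
    have h4 : (0 : ℝ) ≤ L.card := by positivity
    linarith
  have hup : ∑ x ∈ X', ∑ y ∈ Y', ν₁ (gad x y) ≤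
      17 / 16 * E₁ + (m : ℝ) ^ N * 2 ^ (m * N) / 2 ^ (4 * N) + L.card * 2 ^ ((m - 1) * N) := by
    rw [hsum (fun x => ∑ y ∈ Y', ν₁ (gad x y))]
    have hA : ∑ i, ∑ x ∈ X i, ∑ y ∈ Y', ν₁ (gad x y) ≤
        17 / 16 * E₁ + (m : ℝ) ^ N * 2 ^ (m * N) / 2 ^ (4 * N) := by
      calc ∑ i, ∑ x ∈ X i, ∑ y ∈ Y', ν₁ (gad x y)
          = ∑ i, ∑ z, ν₁ z * cnt i z := Finset.sum_congr rfl (fun i _ => hregroup ν₁ i)
        _ ≤ ∑ i, ∑ z, ν₁ z * (17 / 16 * h i z +
              ((X i).card : ℝ) * 2 ^ (m * N) / 2 ^ (4 * N)) := by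
            refine Finset.sum_le_sum (fun i _ => Finset.sum_le_sum (fun z _ => ?_))
            exact mul_le_mul_of_nonneg_left (hupper i z) (h1 z)
        _ = 17 / 16 * E₁ + (∑ i, ((X i).card : ℝ)) * (2 ^ (m * N) / 2 ^ (4 * N)) := by
            simp only [mul_add, Finset.sum_add_distrib]
            congr 1
            · rw [hE₁, Finset.mul_sum]
              refine Finset.sum_congr rfl (fun i _ => ?_)
              rw [Finset.mul_sum]
              refine Finset.sum_congr rfl (fun z _ => by ring)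
            · rw [Finset.sum_mul]
              refine Finset.sum_congr rfl (fun i _ => ?_)
              rw [← Finset.sum_mul, hs]
              ring
        _ ≤ 17 / 16 * E₁ + (m : ℝ) ^ N * (2 ^ (m * N) / 2 ^ (4 * N)) := by gcongr
        _ = _ := by ring
    have hB : ∑ x ∈ L, ∑ y ∈ Y', ν₁ (gad x y) ≤ L.card * 2 ^ ((m - 1) * N) := by
      rw [← nsmul_eq_mul]
      refine Finset.sum_le_card_nsmul _ _ _ (fun x _ => ?_)
      calc ∑ y ∈ Y', ν₁ (gad x y) ≤ ∑ y, ν₁ (gad x y) :=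
            Finset.sum_le_univ_sum_of_nonneg (fun y => h1 _)
        _ = 2 ^ ((m - 1) * N) := by rw [sum_gad, hs, mul_one]
    linarith
  have hlow : 15 / 16 * (15 / 16 * E₁) ≤ ∑ x ∈ X', ∑ y ∈ Y', ν₀ (gad x y) := by
    rw [hsum (fun x => ∑ y ∈ Y', ν₀ (gad x y))]
    have hB : 0 ≤ ∑ x ∈ L, ∑ y ∈ Y', ν₀ (gad x y) :=
      Finset.sum_nonneg (fun x _ => Finset.sum_nonneg (fun y _ => h0 _))
    have hA : 15 / 16 * (15 / 16 * E₁) ≤ ∑ i, ∑ x ∈ X i, ∑ y ∈ Y', ν₀ (gad x y) := by
      calc 15 / 16 * (15 / 16 * E₁) = ∑ i, 15 / 16 * (15 / 16 * ∑ z, ν₁ z * h i z) := by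
            rw [hE₁, Finset.mul_sum, Finset.mul_sum]
        _ ≤ ∑ i, 15 / 16 * ∑ z, ν₀ z * h i z := by
            refine Finset.sum_le_sum (fun i _ => ?_)
            exact mul_le_mul_of_nonneg_left (hdom (I i) (hI i) (h i) (hhpos i) (hdep i))
              (by norm_num)
        _ = ∑ i, ∑ z, ν₀ z * (15 / 16 * h i z) := by
            refine Finset.sum_congr rfl (fun i _ => ?_)
            rw [Finset.mul_sum]
            refine Finset.sum_congr rfl (fun z _ => by ring)
        _ ≤ ∑ i, ∑ z, ν₀ z * cnt i z := by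
            refine Finset.sum_le_sum (fun i _ => Finset.sum_le_sum (fun z _ => ?_))
            exact mul_le_mul_of_nonneg_left (hlower i z) (h0 z)
        _ = _ := Finset.sum_congr rfl (fun i _ => (hregroup ν₀ i).symm)
    linarith
  -- divide by Z
  have hmassE : 0 ≤ E₁ / Z := div_nonneg hE₁pos hZpos.le
  have hmass1 : mass ν₁ X' Y' ≤ 17 / 16 * (E₁ / Z) + (1 / 2) ^ c := by
    have h2 : mass ν₁ X' Y' ≤ (17 / 16 * E₁ + (m : ℝ) ^ N * 2 ^ (m * N) / 2 ^ (4 * N) +
        L.card * 2 ^ ((m - 1) * N)) / Z := by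
      unfold mass
      exact div_le_div_of_nonneg_right hup hZpos.le
    have h3 : (m : ℝ) ^ N * 2 ^ (m * N) / 2 ^ (4 * N) / Z = (1 / 2) ^ (3 * N) := by
      have e1 : m * N = (m - 1) * N + N := by
        obtain ⟨m', rfl⟩ : ∃ m', m = m' + 1 := ⟨m - 1, by omega⟩
        simp only [Nat.add_sub_cancel]
        ring
      have e2 : 4 * N = 3 * N + N := by ring
      rw [hZ, e1, e2, pow_add, pow_add, one_div, inv_pow]
      have hmpos : (m : ℝ) ^ N ≠ 0 := by positivity
      field_simp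
    have h4 : (L.card : ℝ) * 2 ^ ((m - 1) * N) / Z ≤ (1 / 2) ^ (c + 1) := by
      rw [hZ]
      have hmpos : (0 : ℝ) < (m : ℝ) ^ N := by positivity
      have : (2 : ℝ) ^ (c + 1) * L.card ≤ (m : ℝ) ^ N := by exact_mod_cast hL
      rw [mul_div_mul_right _ _ (by positivity), one_div, inv_pow, div_le_iff₀ hmpos,
        inv_mul_eq_div, le_div_iff₀ (by positivity)]
      linarith
    have h5 : ((1 : ℝ) / 2) ^ (3 * N) ≤ (1 / 2) ^ (c + 1) :=
      pow_le_pow_of_le_one (by norm_num) (by norm_num) hc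
    have h6 : ((1 : ℝ) / 2) ^ (c + 1) + (1 / 2) ^ (c + 1) = (1 / 2) ^ c := by
      rw [pow_succ]; ring
    have h7 : (17 / 16 * E₁ + (m : ℝ) ^ N * 2 ^ (m * N) / 2 ^ (4 * N) +
        L.card * 2 ^ ((m - 1) * N)) / Z = 17 / 16 * (E₁ / Z) +
        (m : ℝ) ^ N * 2 ^ (m * N) / 2 ^ (4 * N) / Z + L.card * 2 ^ ((m - 1) * N) / Z := by
      ring
    rw [h7, h3] at h2
    linarith
  have hmass0 : 225 / 256 * (E₁ / Z) ≤ mass ν₀ X' Y' := by
    unfold mass
    rw [← mul_div_assoc]
    refine div_le_div_of_nonneg_right ?_ hZpos.le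
    linarith
  have hp : (0 : ℝ) ≤ (1 / 2) ^ c := by positivity
  linarith

end H657R2.MAAM.TaskD
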